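import Pool.Agent.H385R4.AEDefs

/-!
TEAM Q, project AE, task AE1 (helper130): the large sieve for primitive characters with the flat
weight and without the error term for non-coprime coefficients.
-/

set_option autoImplicit false

open Complex Filter Topology Set MeasureTheory

namespace H385

namespace AE1

open Flat

/-- twisted Gauss sum of an induced character -/
lemma gauss_induced (q k q' : ℕ) [NeZero q] [NeZero q'] (h : q * k = q')
    (hqk : Nat.Coprime q k) (ψ : DirichletCharacter ℂ q') (hψ : ψ.conductor = q) (n : ℕ)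
    (hn : Nat.Coprime n k) (hnq : ¬ Nat.Coprime n q') :
    ∑ z : ZMod q', ψ⁻¹ z * (ZMod.stdAddChar : AddChar (ZMod q') ℂ) ((n : ZMod q') * z) = 0 := by
  have h2 : ∑ z : ZMod q', ψ⁻¹ z * (ZMod.stdAddChar : AddChar (ZMod q') ℂ) ((n : ZMod q') * z) =
      gaussSum ψ⁻¹ ((ZMod.stdAddChar : AddChar (ZMod q') ℂ).mulShift (n : ZMod q')) := by
    unfold gaussSum
    apply Finset.sum_congr rfl
    intro z _
    rw [AddChar.mulShift_apply]
  rw [h2]
  by_contra hne
  have hq'0 : 0 < q' := Nat.pos_of_ne_zero (NeZero.ne q')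
  have hq0 : 0 < q := Nat.pos_of_ne_zero (NeZero.ne q)
  set d := Nat.gcd n q' with hd
  have hdq' : d ∣ q' := Nat.gcd_dvd_right _ _
  have hdn : d ∣ n := Nat.gcd_dvd_left _ _
  have hd0 : 0 < d := Nat.gcd_pos_of_pos_right _ hq'0
  have hd1 : d ≠ 1 := fun h1 => hnq h1
  have hd'q' : q' / d ∣ q' := Nat.div_dvd_of_dvd hdq'
  have he : ((ZMod.stdAddChar : AddChar (ZMod q') ℂ).mulShift (n : ZMod q')).mulShift
      ((q' / d : ℕ) : ZMod q') = 1 := by
    ext x
    rw [AddChar.mulShift_apply, AddChar.mulShift_apply, AddChar.one_apply]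
    have h3 : (n : ZMod q') * (((q' / d : ℕ) : ZMod q') * x) = 0 := by
      rw [← mul_assoc, ← Nat.cast_mul]
      have h4 : q' ∣ n * (q' / d) := by
        obtain ⟨m, hm⟩ := hdn
        obtain ⟨e, he⟩ := hdq'
        rw [he, Nat.mul_div_cancel_left e hd0]
        conv_rhs => rw [hm]
        exact ⟨m, by ring⟩
      rw [(ZMod.natCast_eq_zero_iff _ _).mpr h4, zero_mul]
    rw [h3, AddChar.map_zero_eq_one]
  have hf := factorsThrough_of_gaussSum_ne_zero _ hd'q' he hne
  have h5 : ψ⁻¹.conductor ∣ q' / d :=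
    DirichletCharacter.conductor_dvd_of_mem_conductorSet _ hf
  rw [DirichletCharacter.conductor_inv, hψ] at h5
  -- q ∣ q'/d , so q * d ∣ q' = q * k , so d ∣ k
  have h6 : q * d ∣ q * k := by
    rw [h]
    exact (Nat.dvd_div_iff_mul_dvd hdq').mp h5 |> fun h7 => by rwa [mul_comm] at h7
  have h7 : d ∣ k := Nat.dvd_of_mul_dvd_mul_left hq0 h6
  have h8 : d ∣ Nat.gcd n k := Nat.dvd_gcd hdn h7
  rw [hn] at h8
  exact hd1 (Nat.dvd_one.mp h8)

lemma tau_mul_sum2 (q k q' : ℕ) [NeZero q] [NeZero q'] (h : q * k = q')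
    (hqk : Nat.Coprime q k) (χ : DirichletCharacter ℂ q') (hχ : χ.conductor = q) (N : ℕ)
    (a : ℕ → ℂ) (ha : ∀ n, ¬ Nat.Coprime n k → a n = 0) :
    tau q' χ⁻¹ * ∑ n ∈ Finset.Icc 1 N, a n * χ (n : ZMod q') =
      ∑ z : ZMod q', χ⁻¹ z * ∑ n ∈ Finset.Icc 1 N, a n *
        ZMod.stdAddChar ((n : ZMod q') * z) := by
  have h1 : ∑ z : ZMod q', χ⁻¹ z * ∑ n ∈ Finset.Icc 1 N, a n *
      ZMod.stdAddChar ((n : ZMod q') * z) =
      ∑ n ∈ Finset.Icc 1 N, a n * ∑ z : ZMod q', χ⁻¹ z *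
        (ZMod.stdAddChar : AddChar (ZMod q') ℂ) ((n : ZMod q') * z) := by
    simp only [Finset.mul_sum]
    rw [Finset.sum_comm]
    apply Finset.sum_congr rfl
    intro n _
    apply Finset.sum_congr rfl
    intro z _
    ring
  rw [h1, Finset.mul_sum]
  apply Finset.sum_congr rfl
  intro n _
  by_cases hn : Nat.Coprime n q'
  · have hu : IsUnit (n : ZMod q') := (ZMod.isUnit_iff_coprime n q').mpr hn
    obtain ⟨u, hu⟩ := hu
    have h2 : ∑ z : ZMod q', χ⁻¹ z * (ZMod.stdAddChar : AddChar (ZMod q') ℂ)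
        ((n : ZMod q') * z) =
        gaussSum χ⁻¹ ((ZMod.stdAddChar : AddChar (ZMod q') ℂ).mulShift (u : ZMod q')) := by
      unfold gaussSum
      apply Finset.sum_congr rfl
      intro z _
      rw [AddChar.mulShift_apply, hu]
    rw [h2, gaussSum_mulShift_eq, inv_inv, hu, tau_eq]
    ring
  · by_cases hk : Nat.Coprime n k
    · rw [gauss_induced q k q' h hqk χ hχ n hk hn]
      have h3 : ¬ IsUnit (n : ZMod q') := by
        rw [ZMod.isUnit_iff_coprime]; exact hn
      rw [MulChar.map_nonunit _ h3]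
      ring
    · rw [ha n hk]; simp

/-- the quantity on the character side -/
noncomputable def GG2 (N : ℕ) (b : ℕ → ℂ) (q : ℕ) [NeZero q] (χ : DirichletCharacter ℂ q) : ℝ :=
  ‖∑ z : ZMod q, χ⁻¹ z * ∑ n ∈ Finset.Icc 1 N, b n *
    ZMod.stdAddChar ((n : ZMod q) * z)‖ ^ 2

lemma GG2_nonneg (N : ℕ) (b : ℕ → ℂ) (q : ℕ) [NeZero q] (χ : DirichletCharacter ℂ q) :
    0 ≤ GG2 N b q χ := by
  unfold GG2; positivity

open Classical in
lemma lemA2 (q k q' : ℕ) [NeZero q] [NeZero q'] (h : q * k = q') (hk : Squarefree k)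
    (hqk : Nat.Coprime q k) (N : ℕ) (b : ℕ → ℂ) (hb : ∀ n, ¬ Nat.Coprime n k → b n = 0) :
    (q : ℝ) * PS N b q ≤ ∑ χ ∈ (Finset.univ : Finset (DirichletCharacter ℂ q')).filter
      (fun χ => χ.conductor = q), GG2 N b q' χ := by
  subst h
  have hk0 : k ≠ 0 := hk.ne_zero
  rw [PS_eq, Finset.mul_sum]
  have h1 : ∀ ψ ∈ (Finset.univ : Finset (DirichletCharacter ℂ q)).filter
      (fun χ => χ.IsPrimitive), (q : ℝ) * ‖∑ n ∈ Finset.Icc 1 N, b n * ψ (n : ZMod q)‖ ^ 2 =
      GG2 N b (q * k) (DirichletCharacter.changeLevel (Dvd.intro k rfl) ψ) := by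
    intro ψ hψ
    rw [Finset.mem_filter] at hψ
    unfold GG2
    have hc : (DirichletCharacter.changeLevel (Dvd.intro k rfl : q ∣ q * k) ψ).conductor = q := by
      rw [DirichletCharacter.conductor_changeLevel]
      exact hψ.2
    rw [← tau_mul_sum2 q k (q * k) rfl hqk _ hc N b hb, norm_mul, norm_tau_inv, mul_pow,
      tau_induced q k hk hqk ψ hψ.2]
    congr 3
    apply Finset.sum_congr rfl
    intro n _
    rw [GaussAux.changeLevel_apply q k hk0 ψ n]
    by_cases hn : Nat.Coprime n k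
    · rw [if_pos hn, one_mul]
    · rw [hb n hn]; ring
  rw [Finset.sum_congr rfl h1]
  have hinj : Function.Injective
      (DirichletCharacter.changeLevel (R := ℂ) (Dvd.intro k rfl : q ∣ q * k)) :=
    DirichletCharacter.changeLevel_injective _
  rw [← Finset.sum_image (f := fun χ => GG2 N b (q * k) χ)
    (g := fun ψ : DirichletCharacter ℂ q =>
      DirichletCharacter.changeLevel (Dvd.intro k rfl : q ∣ q * k) ψ)
    (fun x _ y _ hxy => hinj hxy)]
  apply Finset.sum_le_sum_of_subset_of_nonneg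
  · intro χ hχ
    rw [Finset.mem_image] at hχ
    obtain ⟨ψ, hψ, rfl⟩ := hχ
    rw [Finset.mem_filter] at hψ ⊢
    refine ⟨Finset.mem_univ _, ?_⟩
    rw [DirichletCharacter.conductor_changeLevel]
    exact hψ.2
  · intro χ _ _
    exact GG2_nonneg _ _ _ _

lemma lemB2 (P : ℕ) (hP : Squarefree P) (q' : ℕ) [NeZero q'] (N : ℕ) (b : ℕ → ℂ)
    (hb : ∀ n, ¬ Nat.Coprime n P → b n = 0) :
    ∑ T ∈ UT P q', ((q' / pr T : ℕ) : ℝ) * PS N b (q' / pr T) ≤
      ∑ χ : DirichletCharacter ℂ q', GG2 N b q' χ := by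
  classical
  calc ∑ T ∈ UT P q', ((q' / pr T : ℕ) : ℝ) * PS N b (q' / pr T)
      ≤ ∑ T ∈ UT P q', ∑ χ ∈ (Finset.univ : Finset (DirichletCharacter ℂ q')).filter
          (fun χ => χ.conductor = q' / pr T), GG2 N b q' χ := by
        apply Finset.sum_le_sum
        intro T hT
        unfold UT at hT
        rw [Finset.mem_filter, Finset.mem_powerset] at hT
        obtain ⟨hTP, hd, hc⟩ := hT
        have hq : q' / pr T * pr T = q' := Nat.div_mul_cancel hd
        have : NeZero (q' / pr T) := ⟨by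
          intro h0
          rw [h0, zero_mul] at hq
          exact NeZero.ne q' hq.symm⟩
        exact lemA2 _ _ _ hq (pr_sqf hP hTP) hc N b (fun n hn => hb n (fun h =>
          hn (Nat.Coprime.coprime_dvd_right (pr_dvd hTP) h)))
    _ = ∑ χ : DirichletCharacter ℂ q',
          ∑ T ∈ UT P q', (if χ.conductor = q' / pr T then GG2 N b q' χ else 0) := by
        simp_rw [Finset.sum_filter]
        rw [Finset.sum_comm]
    _ ≤ ∑ χ : DirichletCharacter ℂ q', GG2 N b q' χ := by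
        apply Finset.sum_le_sum
        intro χ _
        rw [← Finset.sum_filter, Finset.sum_const, nsmul_eq_mul]
        have hcard : ((UT P q').filter (fun T => χ.conductor = q' / pr T)).card ≤ 1 := by
          rw [Finset.card_le_one]
          intro T1 h1 T2 h2
          unfold UT at h1 h2
          rw [Finset.mem_filter, Finset.mem_filter, Finset.mem_powerset] at h1 h2
          obtain ⟨⟨hT1, hd1, _⟩, he1⟩ := h1
          obtain ⟨⟨hT2, hd2, _⟩, he2⟩ := h2
          have h3 : q' / pr T1 = q' / pr T2 := he1.symm.trans he2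
          have h4 : pr T1 = pr T2 := by
            have hq1 : q' / pr T1 * pr T1 = q' := Nat.div_mul_cancel hd1
            have hq2 : q' / pr T2 * pr T2 = q' := Nat.div_mul_cancel hd2
            have hpos : 0 < q' / pr T2 := by
              rcases Nat.eq_zero_or_pos (q' / pr T2) with h0 | h0
              · rw [h0, zero_mul] at hq2
                exact absurd hq2.symm (NeZero.ne q')
              · exact h0
            rw [h3] at hq1
            exact Nat.eq_of_mul_eq_mul_left hpos (hq1.trans hq2.symm)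
          rw [← pr_primeFactors hT1, ← pr_primeFactors hT2, h4]
        have hc' : (((UT P q').filter (fun T => χ.conductor = q' / pr T)).card : ℝ) ≤ 1 := by
          exact_mod_cast hcard
        have := mul_le_mul_of_nonneg_right hc' (GG2_nonneg N b q' χ)
        linarith

/-- inequality for one modulus -/
lemma lemC2 (P : ℕ) (hP : Squarefree P) (q' : ℕ) (hq' : 1 ≤ q') (N : ℕ) (b : ℕ → ℂ)
    (hb : ∀ n, ¬ Nat.Coprime n P → b n = 0) :
    ∑ T ∈ UT P q', (1 / (Nat.totient q' : ℝ)) * (((q' / pr T : ℕ) : ℝ) * PS N b (q' / pr T)) ≤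
      ∑ b' ∈ (Finset.range q').filter (fun b' => Nat.Coprime b' q'),
        ‖SS N b ((b' : ℝ) / q')‖ ^ 2 := by
  have : NeZero q' := ⟨by omega⟩
  have hφ : (0 : ℝ) < Nat.totient q' := by exact_mod_cast Nat.totient_pos.mpr (by omega)
  have h1 : ∑ χ : DirichletCharacter ℂ q', GG2 N b q' χ = Nat.totient q' *
      ∑ b' ∈ (Finset.range q').filter (fun b' => Nat.Coprime b' q'),
        ‖SS N b ((b' : ℝ) / q')‖ ^ 2 := by
    simp only [SS_eq]
    rw [sum_coprime_eq (fun z => ‖∑ n ∈ Finset.Icc 1 N, b n *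
      ZMod.stdAddChar ((n : ZMod q') * z)‖ ^ 2), ← parseval]
    rfl
  rw [← Finset.mul_sum]
  have h3 := lemB2 P hP q' N b hb
  rw [h1] at h3
  rw [one_div, inv_mul_le_iff₀ hφ]
  exact h3

end AE1

open Flat AE1 in
theorem flat_ls2 (P : ℕ) (hsf : Squarefree P) : ∃ C : ℝ, 0 < C ∧
    ∀ (X Y N : ℕ) (b : ℕ → ℂ), 1 ≤ X → X ≤ Y → (∀ n, ¬ Nat.Coprime n P → b n = 0) →
    primFam X Y (fun q χ => ‖∑ n ∈ Finset.Icc 1 N, b n * χ (n : ZMod q)‖ ^ 2) ≤
      KLS P C X Y N * ∑ n ∈ Finset.Icc 1 N, ‖b n‖ ^ 2 := by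
  obtain ⟨C0, hC0, hLS⟩ := farey_large_sieve_P P hsf
  have hP1 : 1 ≤ P := Nat.one_le_iff_ne_zero.mpr hsf.ne_zero
  have hP1R : (1 : ℝ) ≤ P := by exact_mod_cast hP1
  have hc0 : 0 ≤ c0 := by unfold c0; positivity
  have hlogP : 0 ≤ Real.log P := Real.log_nonneg hP1R
  refine ⟨c0 * Real.log P + C0, by positivity, ?_⟩
  intro X Y N b hX hXY hb
  have hX0 : (0 : ℝ) < X := by exact_mod_cast hX
  have hX1 : (1 : ℝ) ≤ X := by exact_mod_cast hX
  have hY0 : (0 : ℝ) < Y := by exact_mod_cast (lt_of_lt_of_le hX hXY)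
  have hlog : 0 ≤ Real.log ((Y : ℝ) / X) := by
    apply Real.log_nonneg
    rw [le_div_iff₀ hX0, one_mul]
    exact_mod_cast hXY
  set K : ℝ := ∏ p ∈ P.primeFactors, kp p with hK
  unfold KLS
  set D : ℝ := ∏ p ∈ P.primeFactors, (1 - 1 / (p : ℝ) ^ 2) with hD
  set G : ℝ := ∑ n ∈ Finset.Icc 1 N, ‖b n‖ ^ 2 with hG
  have hG0 : 0 ≤ G := Finset.sum_nonneg (fun _ _ => by positivity)
  have hK1 : 1 ≤ K := Finset.one_le_prod
    (fun p hp => kp_one_le p (Nat.prime_of_mem_primeFactors hp))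
  have hDp : ∀ p ∈ P.primeFactors, 0 ≤ (1 - 1 / (p : ℝ) ^ 2) ∧ (1 - 1 / (p : ℝ) ^ 2) ≤ 1 := by
    intro p hp
    have h2 : (1 : ℝ) ≤ p := by exact_mod_cast (Nat.prime_of_mem_primeFactors hp).one_lt.le
    have h3 : 1 / (p : ℝ) ^ 2 ≤ 1 := by
      rw [div_le_one (by positivity)]
      nlinarith
    have h4 : 0 ≤ 1 / (p : ℝ) ^ 2 := by positivity
    constructor <;> linarith
  have hD0 : 0 ≤ D := Finset.prod_nonneg (fun p hp => (hDp p hp).1)
  have hD1 : D ≤ 1 := Finset.prod_le_one (fun p hp => (hDp p hp).1) (fun p hp => (hDp p hp).2)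
  -- the farey side
  have hLS' := hLS X (P * Y) N ((X : ℝ) ^ 2) b hX (by nlinarith) (by nlinarith) le_rfl
  rw [const_eq, ← hK, ← hD] at hLS'
  have hlog2 : Real.log (((P * Y : ℕ) : ℝ) / X) = Real.log P + Real.log ((Y : ℝ) / X) := by
    rw [Nat.cast_mul, mul_div_assoc, Real.log_mul (by positivity) (by positivity)]
  rw [hlog2] at hLS'
  -- step 2
  have h2 : K * primFam X Y (fun q χ => ‖∑ n ∈ Finset.Icc 1 N, b n * χ (n : ZMod q)‖ ^ 2) ≤
      ∑ q ∈ Finset.Ioc X Y, ∑ T ∈ (P.primeFactors.filter (fun p => ¬ p ∣ q)).powerset,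
        ff P N b (q * pr T) T := by
    have h21 : primFam X Y (fun q χ => ‖∑ n ∈ Finset.Icc 1 N, b n * χ (n : ZMod q)‖ ^ 2) =
        ∑ q ∈ Finset.Ioc X Y, (1 / (q : ℝ) ^ 2) * PS N b q := rfl
    rw [h21, Finset.mul_sum]
    apply Finset.sum_le_sum
    intro q hq
    rw [Finset.mem_Ioc] at hq
    have h22 := mul_le_mul_of_nonneg_right (weight P q (by omega)) (PS_nonneg N b q)
    calc K * ((1 / (q : ℝ) ^ 2) * PS N b q) = (1 / (q : ℝ) ^ 2) * K * PS N b q := by ring
      _ ≤ _ := h22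
      _ = _ := by
        rw [Finset.sum_mul]
        apply Finset.sum_congr rfl
        intro T hT
        rw [Finset.mem_powerset] at hT
        have hTP : T ⊆ P.primeFactors := hT.trans (Finset.filter_subset _ _)
        unfold ff
        rw [Nat.mul_div_cancel q (pr_pos hTP)]
        ring
  have h3 := h2.trans (reindex P hsf X Y N b)
  have h4 : ∑ q' ∈ Finset.Ioc X (P * Y), ∑ T ∈ UT P q', ff P N b q' T ≤
      ∑ q ∈ Finset.Ioc X (P * Y), (hP P q / (q : ℝ) ^ 2) *
        ∑ b' ∈ (Finset.range q).filter (fun b => Nat.Coprime b q),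
          ‖SS N b ((b' : ℝ) / q)‖ ^ 2 := by
    apply Finset.sum_le_sum
    intro q' hq'
    rw [Finset.mem_Ioc] at hq'
    have hq1 : 1 ≤ q' := by omega
    have hq0 : (0 : ℝ) < q' := by exact_mod_cast hq1
    have hh0 := hP_nonneg P q'
    have h41 : 0 ≤ hP P q' / (q' : ℝ) ^ 2 := by positivity
    unfold ff
    rw [← Finset.mul_sum]
    exact mul_le_mul_of_nonneg_left (lemC2 P hsf q' hq1 N b hb) h41
  have h5 := (h3.trans h4).trans hLS'
  set ex : ℝ := Real.exp (Real.pi * N / (X : ℝ) ^ 2) with hex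
  have hex0 : 0 ≤ ex := (Real.exp_pos _).le
  have hK0 : 0 < K := by linarith
  have hgoal : K * primFam X Y (fun q χ => ‖∑ n ∈ Finset.Icc 1 N, b n * χ (n : ZMod q)‖ ^ 2) ≤
      K * (ex * (c0 * D * Real.log ((Y : ℝ) / X) + (c0 * Real.log P + C0)) * G) := by
    have h8 : c0 * (K * D) * (Real.log P + Real.log ((Y : ℝ) / X)) + C0 ≤
        K * (c0 * D * Real.log ((Y : ℝ) / X) + (c0 * Real.log P + C0)) := by
      have h81 : c0 * Real.log P * D ≤ c0 * Real.log P * 1 :=
        mul_le_mul_of_nonneg_left hD1 (by positivity)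
      have h82 : K * (c0 * Real.log P * D) ≤ K * (c0 * Real.log P * 1) :=
        mul_le_mul_of_nonneg_left h81 hK0.le
      have h83 : 1 * C0 ≤ K * C0 := mul_le_mul_of_nonneg_right hK1 hC0.le
      nlinarith
    have h9 : (ex * (c0 * (K * D) * (Real.log P + Real.log ((Y : ℝ) / X)) + C0) * G) ≤
        K * (ex * (c0 * D * Real.log ((Y : ℝ) / X) + (c0 * Real.log P + C0)) * G) := by
      have h91 : 0 ≤ ex * G := by positivity
      have := mul_le_mul_of_nonneg_right h8 h91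
      nlinarith [this]
    linarith
  exact le_of_mul_le_mul_left hgoal hK0

end H385
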