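import Mathlib

open Complex Filter Topology Set MeasureTheory

namespace H385

namespace AE2Aux

theorem unique {n m n' m' : ℕ} (hn : n.Prime) (hm : m.Prime) (hn' : n'.Prime)
    (h : n * m = n' * m') : (n' = n ∧ m' = m) ∨ (n' = m ∧ m' = n) := by
  have h1 : n' ∣ n * m := ⟨m', h⟩
  rcases hn'.dvd_mul.mp h1 with h2 | h2
  · have h3 : n' = n := (Nat.prime_dvd_prime_iff_eq hn' hn).mp h2
    subst h3
    exact Or.inl ⟨rfl, (Nat.eq_of_mul_eq_mul_left hn.pos h).symm⟩
  · have h3 : n' = m := (Nat.prime_dvd_prime_iff_eq hn' hm).mp h2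
    subst h3
    rw [mul_comm n n'] at h
    exact Or.inr ⟨rfl, (Nat.eq_of_mul_eq_mul_left hm.pos h).symm⟩

end AE2Aux

open AE2Aux in
/-- AE2: products of two prime sums -/
theorem prime_prod_sq (N : ℕ) (a b : ℕ → ℂ) (ha : ∀ n, ¬ n.Prime → a n = 0)
    (hb : ∀ n, ¬ n.Prime → b n = 0) :
    ∑ k ∈ Finset.Icc 1 (N ^ 2), ‖∑ n ∈ Finset.Icc 1 N, ∑ m ∈ Finset.Icc 1 N,
        (if n * m = k then a n * b m else 0)‖ ^ 2 ≤
      (∑ n ∈ Finset.Icc 1 N, ‖a n‖ ^ 2) * (∑ n ∈ Finset.Icc 1 N, ‖b n‖ ^ 2) +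
      ‖∑ n ∈ Finset.Icc 1 N, a n * (starRingEnd ℂ) (b n)‖ ^ 2 := by
  classical
  set I : Finset ℕ := Finset.Icc 1 N with hI
  set f : ℕ × ℕ → ℂ := fun x => a x.1 * b x.2 with hf
  have hsq : ∀ z : ℂ, ((‖z‖ ^ 2 : ℝ) : ℂ) = z * (starRingEnd ℂ) z := by
    intro z
    rw [Complex.mul_conj, Complex.normSq_eq_norm_sq]
  have hf0 : ∀ x : ℕ × ℕ, ¬ (x.1.Prime ∧ x.2.Prime) → f x = 0 := by
    intro x hx
    simp only [hf]
    by_cases h1 : x.1.Prime
    · rw [hb x.2 (fun h2 => hx ⟨h1, h2⟩), mul_zero]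
    · rw [ha x.1 h1, zero_mul]
  -- the complex identity
  have key : ((∑ k ∈ Finset.Icc 1 (N ^ 2), ‖∑ n ∈ I, ∑ m ∈ I,
        (if n * m = k then a n * b m else 0)‖ ^ 2 : ℝ) : ℂ) =
      ((∑ n ∈ I, ‖a n‖ ^ 2 : ℝ) : ℂ) * ((∑ n ∈ I, ‖b n‖ ^ 2 : ℝ) : ℂ) +
      ((‖∑ n ∈ I, a n * (starRingEnd ℂ) (b n)‖ ^ 2 : ℝ) : ℂ) -
      ((∑ n ∈ I, ‖a n * b n‖ ^ 2 : ℝ) : ℂ) := by
    have e1 : ∀ k, ((‖∑ n ∈ I, ∑ m ∈ I, (if n * m = k then a n * b m else 0)‖ ^ 2 : ℝ) : ℂ) =
        ∑ x ∈ I ×ˢ I, ∑ y ∈ I ×ˢ I, (if x.1 * x.2 = k then f x else 0) *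
          (starRingEnd ℂ) (if y.1 * y.2 = k then f y else 0) := by
      intro k
      rw [hsq, ← Finset.sum_product' (f := fun n m => if n * m = k then a n * b m else 0),
        map_sum, Finset.sum_mul_sum]
    have e2 : ∀ x ∈ I ×ˢ I, ∀ y ∈ I ×ˢ I,
        ∑ k ∈ Finset.Icc 1 (N ^ 2), (if x.1 * x.2 = k then f x else 0) *
          (starRingEnd ℂ) (if y.1 * y.2 = k then f y else 0) =
        if y.1 * y.2 = x.1 * x.2 then f x * (starRingEnd ℂ) (f y) else 0 := by
      intro x hx y _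
      rw [hI, Finset.mem_product, Finset.mem_Icc, Finset.mem_Icc] at hx
      have hmem : x.1 * x.2 ∈ Finset.Icc 1 (N ^ 2) := by
        rw [Finset.mem_Icc, sq]
        exact ⟨Nat.mul_pos hx.1.1 hx.2.1, Nat.mul_le_mul hx.1.2 hx.2.2⟩
      rw [Finset.sum_eq_single (x.1 * x.2)]
      · rw [if_pos rfl]
        split_ifs <;> simp
      · intro k _ hk
        rw [if_neg (fun h => hk h.symm), zero_mul]
      · intro h; exact absurd hmem h
    have e3 : ∀ x ∈ I ×ˢ I, ∑ y ∈ I ×ˢ I,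
        (if y.1 * y.2 = x.1 * x.2 then f x * (starRingEnd ℂ) (f y) else 0) =
        f x * (starRingEnd ℂ) (f x) + f x * (starRingEnd ℂ) (f x.swap) -
          (if x.1 = x.2 then f x * (starRingEnd ℂ) (f x) else 0) := by
      intro x hx
      by_cases hpr : x.1.Prime ∧ x.2.Prime
      · have hsw : x.swap ∈ I ×ˢ I := by
          rw [Finset.mem_product] at hx ⊢
          exact ⟨hx.2, hx.1⟩
        have h1 : ∑ y ∈ I ×ˢ I,
            (if y.1 * y.2 = x.1 * x.2 then f x * (starRingEnd ℂ) (f y) else 0) =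
            ∑ y ∈ ({x, x.swap} : Finset (ℕ × ℕ)),
              (if y.1 * y.2 = x.1 * x.2 then f x * (starRingEnd ℂ) (f y) else 0) := by
          symm
          apply Finset.sum_subset
          · intro y hy
            rw [Finset.mem_insert, Finset.mem_singleton] at hy
            rcases hy with rfl | rfl
            · exact hx
            · exact hsw
          · intro y _ hy
            rw [Finset.mem_insert, Finset.mem_singleton, not_or] at hy
            split_ifs with h2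
            · by_cases hy2 : y.1.Prime ∧ y.2.Prime
              · exfalso
                rcases unique hpr.1 hpr.2 hy2.1 h2.symm with ⟨h3, h4⟩ | ⟨h3, h4⟩
                · exact hy.1 (Prod.ext h3 h4)
                · exact hy.2 (Prod.ext h3 h4)
              · rw [hf0 y hy2]; simp
            · rfl
        rw [h1]
        by_cases hd : x.1 = x.2
        · have hxs : x.swap = x := Prod.ext hd.symm hd
          rw [hxs, Finset.pair_eq_singleton, Finset.sum_singleton, if_pos rfl, if_pos hd]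
          ring
        · have hxs : x ≠ x.swap := by
            intro h
            apply hd
            have := congrArg Prod.fst h
            simpa using this
          rw [Finset.sum_pair hxs, if_pos rfl, if_neg hd, if_pos (by simp [mul_comm]), sub_zero]
      · rw [hf0 x hpr]; simp
    have e4 : ((∑ k ∈ Finset.Icc 1 (N ^ 2), ‖∑ n ∈ I, ∑ m ∈ I,
        (if n * m = k then a n * b m else 0)‖ ^ 2 : ℝ) : ℂ) =
        ∑ x ∈ I ×ˢ I, (f x * (starRingEnd ℂ) (f x) + f x * (starRingEnd ℂ) (f x.swap) -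
          (if x.1 = x.2 then f x * (starRingEnd ℂ) (f x) else 0)) := by
      rw [Complex.ofReal_sum, Finset.sum_congr rfl (fun k _ => e1 k), Finset.sum_comm]
      apply Finset.sum_congr rfl
      intro x hx
      rw [Finset.sum_comm, ← e3 x hx]
      exact Finset.sum_congr rfl (fun y hy => e2 x hx y hy)
    rw [e4, Finset.sum_sub_distrib, Finset.sum_add_distrib]
    congr 1
    · congr 1
      · rw [Complex.ofReal_sum, Complex.ofReal_sum, Finset.sum_mul_sum, ← Finset.sum_product']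
        apply Finset.sum_congr rfl
        intro x _
        simp only [hf]
        rw [hsq, hsq, map_mul]
        ring
      · rw [hsq, map_sum, Finset.sum_mul_sum, ← Finset.sum_product']
        apply Finset.sum_congr rfl
        intro x _
        simp only [hf, Prod.fst_swap, Prod.snd_swap, map_mul, Complex.conj_conj]
        ring
    · rw [Finset.sum_product, Complex.ofReal_sum]
      apply Finset.sum_congr rfl
      intro n hn
      rw [Finset.sum_ite_eq, if_pos hn, hsq]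
  have key2 : ∑ k ∈ Finset.Icc 1 (N ^ 2), ‖∑ n ∈ I, ∑ m ∈ I,
        (if n * m = k then a n * b m else 0)‖ ^ 2 =
      (∑ n ∈ I, ‖a n‖ ^ 2) * (∑ n ∈ I, ‖b n‖ ^ 2) +
      ‖∑ n ∈ I, a n * (starRingEnd ℂ) (b n)‖ ^ 2 - ∑ n ∈ I, ‖a n * b n‖ ^ 2 := by
    exact_mod_cast key
  rw [key2]
  have h0 : 0 ≤ ∑ n ∈ I, ‖a n * b n‖ ^ 2 := Finset.sum_nonneg (fun n _ => by positivity)
  linarith

end H385
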