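import Pool.Agent.H385R4.AEDefs

/-!
TEAM Q, project AE, task AE3: the fourth moment of the prime sums.
-/

open Complex Filter Topology Set MeasureTheory

namespace H385

namespace AE3

section gen

variable {ι : Type*}

theorem inner_integrable (s : Finset ι) (w : ι → ℝ) (F : ι → ℝ → ℝ)
    (hF : ∀ i ∈ s, Integrable (F i)) (t : ℝ) :
    Integrable (fun t' : ℝ => ∑ i ∈ s, w i * (F i t * F i t')) :=
  integrable_finsetSum _ (fun i hi => ((hF i hi).const_mul _).const_mul _)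

theorem inner_int (s : Finset ι) (w : ι → ℝ) (F : ι → ℝ → ℝ)
    (hF : ∀ i ∈ s, Integrable (F i)) (t : ℝ) :
    ∫ t' : ℝ, ∑ i ∈ s, w i * (F i t * F i t') = ∑ i ∈ s, w i * (F i t * ∫ t' : ℝ, F i t') := by
  rw [integral_finsetSum _ (fun i hi => ((hF i hi).const_mul _).const_mul _)]
  refine Finset.sum_congr rfl (fun i hi => ?_)
  rw [integral_const_mul, integral_const_mul]

theorem outer_integrable (s : Finset ι) (w : ι → ℝ) (F : ι → ℝ → ℝ)
    (hF : ∀ i ∈ s, Integrable (F i)) :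
    Integrable (fun t : ℝ => ∑ i ∈ s, w i * (F i t * ∫ t' : ℝ, F i t')) :=
  integrable_finsetSum _ (fun i hi => ((hF i hi).mul_const _).const_mul _)

theorem outer_int (s : Finset ι) (w : ι → ℝ) (F : ι → ℝ → ℝ)
    (hF : ∀ i ∈ s, Integrable (F i)) :
    ∫ t : ℝ, ∑ i ∈ s, w i * (F i t * ∫ t' : ℝ, F i t') = ∑ i ∈ s, w i * (∫ t : ℝ, F i t) ^ 2 := by
  rw [integral_finsetSum _ (fun i hi => ((hF i hi).mul_const _).const_mul _)]
  refine Finset.sum_congr rfl (fun i hi => ?_)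
  rw [integral_const_mul, integral_mul_const]
  ring

/-- complex version with two families -/
theorem innerC_int (s : Finset ι) (g h : ι → ℝ → ℂ) (hh : ∀ i ∈ s, Integrable (h i)) (t : ℝ) :
    ∫ t' : ℝ, ∑ i ∈ s, g i t * h i t' = ∑ i ∈ s, g i t * ∫ t' : ℝ, h i t' := by
  rw [integral_finsetSum _ (fun i hi => (hh i hi).const_mul _)]
  refine Finset.sum_congr rfl (fun i hi => ?_)
  rw [integral_const_mul]

theorem innerC_integrable (s : Finset ι) (g h : ι → ℝ → ℂ) (hh : ∀ i ∈ s, Integrable (h i))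
    (t : ℝ) : Integrable (fun t' : ℝ => ∑ i ∈ s, g i t * h i t') :=
  integrable_finsetSum _ (fun i hi => (hh i hi).const_mul _)

theorem outerC_integrable (s : Finset ι) (g h : ι → ℝ → ℂ) (hg : ∀ i ∈ s, Integrable (g i)) :
    Integrable (fun t : ℝ => ∑ i ∈ s, g i t * ∫ t' : ℝ, h i t') :=
  integrable_finsetSum _ (fun i hi => (hg i hi).mul_const _)

theorem outerC_int (s : Finset ι) (g h : ι → ℝ → ℂ) (hg : ∀ i ∈ s, Integrable (g i)) :
    ∫ t : ℝ, ∑ i ∈ s, g i t * ∫ t' : ℝ, h i t' =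
      ∑ i ∈ s, (∫ t : ℝ, g i t) * ∫ t' : ℝ, h i t' := by
  rw [integral_finsetSum _ (fun i hi => (hg i hi).mul_const _)]
  refine Finset.sum_congr rfl (fun i hi => ?_)
  rw [integral_mul_const]

end gen

section coef

variable {N : ℕ} {a : ℝ → ℕ → ℂ}

theorem integrable_prod (hc : ∀ n, Continuous (fun t => a t n))
    (hi : ∀ n, Integrable (fun t => ‖a t n‖ ^ 2)) (n m : ℕ) :
    Integrable (fun t : ℝ => a t n * (starRingEnd ℂ) (a t m)) := by
  refine Integrable.mono' ((hi n).add (hi m)) ?_ ?_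
  · exact ((hc n).mul (continuous_conj.comp (hc m))).aestronglyMeasurable
  · refine Filter.Eventually.of_forall (fun t => ?_)
    rw [norm_mul, RCLike.norm_conj]
    show ‖a t n‖ * ‖a t m‖ ≤ ‖a t n‖ ^ 2 + ‖a t m‖ ^ 2
    nlinarith [sq_nonneg (‖a t n‖ - ‖a t m‖), sq_nonneg ‖a t n‖, sq_nonneg ‖a t m‖]

theorem integrable_sum_sq (hi : ∀ n, Integrable (fun t => ‖a t n‖ ^ 2)) (N : ℕ) :
    Integrable (fun t : ℝ => ∑ n ∈ Finset.Icc 1 N, ‖a t n‖ ^ 2) :=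
  integrable_finsetSum _ (fun n _ => hi n)

theorem integrable_S (hc : ∀ n, Continuous (fun t => a t n))
    (hi : ∀ n, Integrable (fun t => ‖a t n‖ ^ 2)) (N : ℕ) (q : ℕ) (χ : DirichletCharacter ℂ q) :
    Integrable (fun t : ℝ => ‖∑ n ∈ Finset.Icc 1 N, a t n * χ (n : ZMod q)‖ ^ 2) := by
  refine Integrable.mono' ((integrable_sum_sq hi N).const_mul (N : ℝ)) ?_ ?_
  · have h1 : Continuous (fun t : ℝ => ∑ n ∈ Finset.Icc 1 N, a t n * χ (n : ZMod q)) :=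
      continuous_finsetSum _ (fun n _ => (hc n).mul continuous_const)
    exact (h1.norm.pow 2).aestronglyMeasurable
  · refine Filter.Eventually.of_forall (fun t => ?_)
    rw [Real.norm_of_nonneg (by positivity)]
    have h1 : ‖∑ n ∈ Finset.Icc 1 N, a t n * χ (n : ZMod q)‖ ≤ ∑ n ∈ Finset.Icc 1 N, ‖a t n‖ := by
      refine (norm_sum_le _ _).trans (Finset.sum_le_sum (fun n _ => ?_))
      rw [norm_mul]
      have h2 := DirichletCharacter.norm_le_one χ (n : ZMod q)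
      nlinarith [norm_nonneg (a t n)]
    have h2 : (∑ n ∈ Finset.Icc 1 N, ‖a t n‖) ^ 2 ≤
        ((Finset.Icc 1 N).card : ℝ) * ∑ n ∈ Finset.Icc 1 N, ‖a t n‖ ^ 2 :=
      sq_sum_le_card_mul_sum_sq
    rw [Nat.card_Icc, Nat.add_sub_cancel] at h2
    exact (pow_le_pow_left₀ (norm_nonneg _) h1 2).trans h2

/-- the cross term -/
theorem cross_eq (t t' : ℝ) :
    ((‖∑ n ∈ Finset.Icc 1 N, a t n * (starRingEnd ℂ) (a t' n)‖ ^ 2 : ℝ) : ℂ) =
      ∑ x ∈ Finset.Icc 1 N ×ˢ Finset.Icc 1 N,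
        (a t x.1 * (starRingEnd ℂ) (a t x.2)) * (a t' x.2 * (starRingEnd ℂ) (a t' x.1)) := by
  have h : ∀ z : ℂ, ((‖z‖ ^ 2 : ℝ) : ℂ) = z * (starRingEnd ℂ) z := by
    intro z
    rw [RCLike.mul_conj]
    push_cast
    rfl
  rw [h, map_sum, Finset.sum_mul_sum, Finset.sum_product]
  refine Finset.sum_congr rfl (fun n _ => Finset.sum_congr rfl (fun m _ => ?_))
  rw [map_mul, Complex.conj_conj]
  ring

theorem cross_inner (hc : ∀ n, Continuous (fun t => a t n))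
    (hi : ∀ n, Integrable (fun t => ‖a t n‖ ^ 2)) (t : ℝ) :
    ((∫ t' : ℝ, ‖∑ n ∈ Finset.Icc 1 N, a t n * (starRingEnd ℂ) (a t' n)‖ ^ 2 : ℝ) : ℂ) =
      ∑ x ∈ Finset.Icc 1 N ×ˢ Finset.Icc 1 N,
        (a t x.1 * (starRingEnd ℂ) (a t x.2)) *
          ∫ t' : ℝ, (a t' x.2 * (starRingEnd ℂ) (a t' x.1)) := by
  rw [← integral_complex_ofReal]
  simp_rw [cross_eq]
  exact innerC_int _ (fun (x : ℕ × ℕ) t => a t x.1 * (starRingEnd ℂ) (a t x.2))
    (fun (x : ℕ × ℕ) t' => a t' x.2 * (starRingEnd ℂ) (a t' x.1))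
    (fun (x : ℕ × ℕ) _ => integrable_prod hc hi x.2 x.1) t

theorem cross_inner_integrable (hc : ∀ n, Continuous (fun t => a t n))
    (hi : ∀ n, Integrable (fun t => ‖a t n‖ ^ 2)) (t : ℝ) :
    Integrable (fun t' : ℝ => ‖∑ n ∈ Finset.Icc 1 N, a t n * (starRingEnd ℂ) (a t' n)‖ ^ 2) := by
  have h1 := innerC_integrable (Finset.Icc 1 N ×ˢ Finset.Icc 1 N)
    (fun (x : ℕ × ℕ) t => a t x.1 * (starRingEnd ℂ) (a t x.2))
    (fun (x : ℕ × ℕ) t' => a t' x.2 * (starRingEnd ℂ) (a t' x.1))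
    (fun (x : ℕ × ℕ) _ => integrable_prod hc hi x.2 x.1) t
  have h2 := h1.re
  refine h2.congr (Filter.Eventually.of_forall (fun t' => ?_))
  show RCLike.re _ = _
  rw [← cross_eq]
  exact Complex.ofReal_re _

theorem cross_outer_integrable (hc : ∀ n, Continuous (fun t => a t n))
    (hi : ∀ n, Integrable (fun t => ‖a t n‖ ^ 2)) :
    Integrable (fun t : ℝ =>
      ∫ t' : ℝ, ‖∑ n ∈ Finset.Icc 1 N, a t n * (starRingEnd ℂ) (a t' n)‖ ^ 2) := by
  have h1 := outerC_integrable (Finset.Icc 1 N ×ˢ Finset.Icc 1 N)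
    (fun (x : ℕ × ℕ) t => a t x.1 * (starRingEnd ℂ) (a t x.2))
    (fun (x : ℕ × ℕ) t' => a t' x.2 * (starRingEnd ℂ) (a t' x.1))
    (fun (x : ℕ × ℕ) _ => integrable_prod hc hi x.1 x.2)
  have h2 := h1.re
  refine h2.congr (Filter.Eventually.of_forall (fun t => ?_))
  show RCLike.re _ = _
  rw [← cross_inner hc hi]
  exact Complex.ofReal_re _

theorem cross_outer (hc : ∀ n, Continuous (fun t => a t n))
    (hi : ∀ n, Integrable (fun t => ‖a t n‖ ^ 2)) :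
    (∫ t : ℝ, ∫ t' : ℝ, ‖∑ n ∈ Finset.Icc 1 N, a t n * (starRingEnd ℂ) (a t' n)‖ ^ 2) =
      ∑ n ∈ Finset.Icc 1 N, ∑ m ∈ Finset.Icc 1 N,
        ‖∫ t : ℝ, a t n * (starRingEnd ℂ) (a t m)‖ ^ 2 := by
  apply Complex.ofReal_injective
  rw [← integral_complex_ofReal]
  simp_rw [cross_inner hc hi]
  rw [outerC_int (Finset.Icc 1 N ×ˢ Finset.Icc 1 N)
    (fun (x : ℕ × ℕ) t => a t x.1 * (starRingEnd ℂ) (a t x.2))
    (fun (x : ℕ × ℕ) t' => a t' x.2 * (starRingEnd ℂ) (a t' x.1))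
    (fun (x : ℕ × ℕ) _ => integrable_prod hc hi x.1 x.2), Finset.sum_product]
  push_cast
  refine Finset.sum_congr rfl (fun n _ => Finset.sum_congr rfl (fun m _ => ?_))
  have h1 : ∫ t' : ℝ, (a t' m * (starRingEnd ℂ) (a t' n)) =
      (starRingEnd ℂ) (∫ t : ℝ, a t n * (starRingEnd ℂ) (a t m)) := by
    rw [← integral_conj]
    congr 1
    ext t
    rw [map_mul, Complex.conj_conj, mul_comm]
  show (∫ t : ℝ, a t n * (starRingEnd ℂ) (a t m)) * ∫ t' : ℝ, (a t' m * (starRingEnd ℂ) (a t' n)) = _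
  rw [h1, RCLike.mul_conj]
  rfl

end coef

/-- the product of two prime sums as one sum -/
theorem prod_eq (N q : ℕ) (χ : DirichletCharacter ℂ q) (a b : ℕ → ℂ) :
    (∑ n ∈ Finset.Icc 1 N, a n * χ (n : ZMod q)) * (∑ n ∈ Finset.Icc 1 N, b n * χ (n : ZMod q)) =
    ∑ k ∈ Finset.Icc 1 (N ^ 2), (∑ n ∈ Finset.Icc 1 N, ∑ m ∈ Finset.Icc 1 N,
        (if n * m = k then a n * b m else 0)) * χ (k : ZMod q) := by
  have h1 : ∀ k ∈ Finset.Icc 1 (N ^ 2), (∑ n ∈ Finset.Icc 1 N, ∑ m ∈ Finset.Icc 1 N,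
        (if n * m = k then a n * b m else 0)) * χ (k : ZMod q) =
      ∑ n ∈ Finset.Icc 1 N, ∑ m ∈ Finset.Icc 1 N,
        (if n * m = k then a n * b m * χ (k : ZMod q) else 0) := by
    intro k _
    rw [Finset.sum_mul]
    refine Finset.sum_congr rfl (fun n _ => ?_)
    rw [Finset.sum_mul]
    refine Finset.sum_congr rfl (fun m _ => ?_)
    split_ifs
    · rfl
    · rw [zero_mul]
  rw [Finset.sum_congr rfl h1, Finset.sum_comm, Finset.sum_mul_sum]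
  refine Finset.sum_congr rfl (fun n hn => ?_)
  rw [Finset.sum_comm]
  refine Finset.sum_congr rfl (fun m hm => ?_)
  rw [Finset.sum_ite_eq, if_pos]
  · push_cast
    rw [map_mul]
    ring
  · rw [Finset.mem_Icc] at hn hm ⊢
    constructor
    · exact Nat.succ_le_of_lt (Nat.mul_pos hn.1 hm.1)
    · rw [sq]
      exact Nat.mul_le_mul hn.2 hm.2

theorem KLS_nonneg (P : ℕ) {C : ℝ} (hC : 0 < C) {X Y : ℕ} (hX : 1 ≤ X) (hXY : X ≤ Y) (N : ℕ) :
    0 ≤ KLS P C X Y N := by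
  unfold KLS
  have h1 : 0 ≤ c0 := by unfold c0; positivity
  have h2 : 0 ≤ ∏ p ∈ P.primeFactors, (1 - 1 / (p : ℝ) ^ 2) := by
    refine Finset.prod_nonneg (fun p hp => ?_)
    have h3 : (1 : ℝ) ≤ (p : ℝ) ^ 2 := by
      have h4 : 1 ≤ p := (Nat.prime_of_mem_primeFactors hp).pos
      have h5 : (1 : ℝ) ≤ p := by exact_mod_cast h4
      exact one_le_pow₀ h5
    have h4 : 1 / (p : ℝ) ^ 2 ≤ 1 := by
      rw [div_le_one (by linarith)]
      exact h3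
    linarith
  have h3 : 0 ≤ Real.log ((Y : ℝ) / X) := by
    apply Real.log_nonneg
    have hX' : (0 : ℝ) < X := by exact_mod_cast hX
    rw [one_le_div hX']
    exact_mod_cast hXY
  have h4 := mul_nonneg (mul_nonneg h1 h2) h3
  positivity

/-- the fourth moment from the large sieve and the diagonal estimate -/
theorem main (P : ℕ)
    (hLS : ∃ C : ℝ, 0 < C ∧
      ∀ (X Y N : ℕ) (b : ℕ → ℂ), 1 ≤ X → X ≤ Y → (∀ n, ¬ Nat.Coprime n P → b n = 0) →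
      primFam X Y (fun q χ => ‖∑ n ∈ Finset.Icc 1 N, b n * χ (n : ZMod q)‖ ^ 2) ≤
        KLS P C X Y N * ∑ n ∈ Finset.Icc 1 N, ‖b n‖ ^ 2)
    (hPP : ∀ (N : ℕ) (a b : ℕ → ℂ), (∀ n, ¬ n.Prime → a n = 0) → (∀ n, ¬ n.Prime → b n = 0) →
      ∑ k ∈ Finset.Icc 1 (N ^ 2), ‖∑ n ∈ Finset.Icc 1 N, ∑ m ∈ Finset.Icc 1 N,
          (if n * m = k then a n * b m else 0)‖ ^ 2 ≤
        (∑ n ∈ Finset.Icc 1 N, ‖a n‖ ^ 2) * (∑ n ∈ Finset.Icc 1 N, ‖b n‖ ^ 2) +
        ‖∑ n ∈ Finset.Icc 1 N, a n * (starRingEnd ℂ) (b n)‖ ^ 2) :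
    ∃ C : ℝ, 0 < C ∧
    ∀ (X Y N : ℕ) (a : ℝ → ℕ → ℂ), 1 ≤ X → X ≤ Y →
    (∀ t n, ¬ (n.Prime ∧ Nat.Coprime n P) → a t n = 0) →
    (∀ n, Continuous (fun t => a t n)) → (∀ n, Integrable (fun t => ‖a t n‖ ^ 2)) →
    primFam X Y (fun q χ =>
      (∫ t : ℝ, ‖∑ n ∈ Finset.Icc 1 N, a t n * χ (n : ZMod q)‖ ^ 2) ^ 2) ≤
    KLS P C X Y (N ^ 2) * ((∫ t : ℝ, ∑ n ∈ Finset.Icc 1 N, ‖a t n‖ ^ 2) ^ 2 +
      ∑ n ∈ Finset.Icc 1 N, ∑ m ∈ Finset.Icc 1 N,
        ‖∫ t : ℝ, a t n * (starRingEnd ℂ) (a t m)‖ ^ 2) := by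
  obtain ⟨C, hC, hLS⟩ := hLS
  refine ⟨C, hC, ?_⟩
  intro X Y N a hX hXY ha hc hi
  set K := KLS P C X Y (N ^ 2) with hK
  have hK0 : 0 ≤ K := KLS_nonneg P hC hX hXY _
  set w : IX → ℝ := fun p => 1 / (p.1 : ℝ) ^ 2 with hw
  set F : IX → ℝ → ℝ := fun p t => ‖∑ n ∈ Finset.Icc 1 N, a t n * p.2 (n : ZMod p.1)‖ ^ 2 with hF
  have hFi : ∀ p ∈ primSet X Y, Integrable (F p) := fun p _ => integrable_S hc hi N p.1 p.2
  set A : ℝ → ℝ := fun t => ∑ n ∈ Finset.Icc 1 N, ‖a t n‖ ^ 2 with hA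
  set B : ℝ → ℝ → ℝ := fun t t' => ‖∑ n ∈ Finset.Icc 1 N, a t n * (starRingEnd ℂ) (a t' n)‖ ^ 2
    with hB
  have hAi : Integrable A := integrable_sum_sq hi N
  have hBi : ∀ t, Integrable (B t) := fun t => cross_inner_integrable hc hi t
  have hBo : Integrable (fun t => ∫ t' : ℝ, B t t') := cross_outer_integrable hc hi
  -- pointwise
  have key : ∀ t t' : ℝ, ∑ p ∈ primSet X Y, w p * (F p t * F p t') ≤
      K * (A t * A t' + B t t') := by
    intro t t'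
    set c : ℕ → ℂ := fun k => ∑ n ∈ Finset.Icc 1 N, ∑ m ∈ Finset.Icc 1 N,
        (if n * m = k then a t n * a t' m else 0) with hcdef
    have h1 : ∀ n, ¬ Nat.Coprime n P → c n = 0 := by
      intro k hk
      refine Finset.sum_eq_zero (fun n _ => Finset.sum_eq_zero (fun m _ => ?_))
      split_ifs with h
      · by_cases h2 : Nat.Coprime n P
        · by_cases h3 : Nat.Coprime m P
          · exfalso
            apply hk
            rw [← h]
            exact Nat.Coprime.mul_left h2 h3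
          · rw [ha t' m (fun h4 => h3 h4.2), mul_zero]
        · rw [ha t n (fun h4 => h2 h4.2), zero_mul]
      · rfl
    have h2 := hLS X Y (N ^ 2) c hX hXY h1
    rw [primFam_eq] at h2
    have h3 : ∑ p ∈ primSet X Y, w p * (F p t * F p t') =
        ∑ p ∈ primSet X Y, (1 / (p.1 : ℝ) ^ 2) *
          ‖∑ n ∈ Finset.Icc 1 (N ^ 2), c n * p.2 (n : ZMod p.1)‖ ^ 2 := by
      refine Finset.sum_congr rfl (fun p _ => ?_)
      show 1 / (p.1 : ℝ) ^ 2 * (‖∑ n ∈ Finset.Icc 1 N, a t n * p.2 (n : ZMod p.1)‖ ^ 2 *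
        ‖∑ n ∈ Finset.Icc 1 N, a t' n * p.2 (n : ZMod p.1)‖ ^ 2) = _
      rw [← mul_pow, ← norm_mul, prod_eq]
    rw [h3]
    refine h2.trans ?_
    refine mul_le_mul_of_nonneg_left ?_ hK0
    exact hPP N (a t) (a t') (fun n hn => ha t n (fun h4 => hn h4.1))
      (fun n hn => ha t' n (fun h4 => hn h4.1))
  -- integrate
  have i1 : ∀ t, ∑ p ∈ primSet X Y, w p * (F p t * ∫ t' : ℝ, F p t') ≤
      K * (A t * (∫ t' : ℝ, A t') + ∫ t' : ℝ, B t t') := by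
    intro t
    rw [← inner_int (primSet X Y) w F hFi t]
    have e : K * (A t * (∫ t' : ℝ, A t') + ∫ t' : ℝ, B t t') =
        ∫ t' : ℝ, K * (A t * A t' + B t t') := by
      rw [integral_const_mul, integral_add (hAi.const_mul _) (hBi t), integral_const_mul]
    rw [e]
    exact integral_mono (inner_integrable (primSet X Y) w F hFi t)
      (((hAi.const_mul _).add (hBi t)).const_mul _) (fun t' => key t t')
  have i2 : ∑ p ∈ primSet X Y, w p * (∫ t : ℝ, F p t) ^ 2 ≤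
      K * ((∫ t : ℝ, A t) ^ 2 + ∫ t : ℝ, ∫ t' : ℝ, B t t') := by
    rw [← outer_int (primSet X Y) w F hFi]
    have e : K * ((∫ t : ℝ, A t) ^ 2 + ∫ t : ℝ, ∫ t' : ℝ, B t t') =
        ∫ t : ℝ, K * (A t * (∫ t' : ℝ, A t') + ∫ t' : ℝ, B t t') := by
      rw [integral_const_mul, integral_add (hAi.mul_const _) hBo, integral_mul_const, sq]
    rw [e]
    exact integral_mono (outer_integrable (primSet X Y) w F hFi)
      (((hAi.mul_const _).add hBo).const_mul _) (fun t => i1 t)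
  rw [primFam_eq]
  have i3 : ∫ t : ℝ, ∫ t' : ℝ, B t t' = ∑ n ∈ Finset.Icc 1 N, ∑ m ∈ Finset.Icc 1 N,
        ‖∫ t : ℝ, a t n * (starRingEnd ℂ) (a t m)‖ ^ 2 := cross_outer hc hi
  rw [i3] at i2
  exact i2

end AE3

end H385
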