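import Pool.Agent.H385R4.AE1
import Pool.Agent.H385R4.AE2
import Pool.Agent.H385R4.AE3Main

/-!
TEAM Q, project AE, task AE3 (helper575): the fourth moment.
-/

open Complex Filter Topology Set MeasureTheory

namespace H385

theorem fourth_moment (P : ℕ) (hsf : Squarefree P) : ∃ C : ℝ, 0 < C ∧
    ∀ (X Y N : ℕ) (a : ℝ → ℕ → ℂ), 1 ≤ X → X ≤ Y →
    (∀ t n, ¬ (n.Prime ∧ Nat.Coprime n P) → a t n = 0) →
    (∀ n, Continuous (fun t => a t n)) → (∀ n, Integrable (fun t => ‖a t n‖ ^ 2)) →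
    primFam X Y (fun q χ =>
      (∫ t : ℝ, ‖∑ n ∈ Finset.Icc 1 N, a t n * χ (n : ZMod q)‖ ^ 2) ^ 2) ≤
    KLS P C X Y (N ^ 2) * ((∫ t : ℝ, ∑ n ∈ Finset.Icc 1 N, ‖a t n‖ ^ 2) ^ 2 +
      ∑ n ∈ Finset.Icc 1 N, ∑ m ∈ Finset.Icc 1 N,
        ‖∫ t : ℝ, a t n * (starRingEnd ℂ) (a t m)‖ ^ 2) :=
  AE3.main P (flat_ls2 P hsf) prime_prod_sq

end H385
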