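import Pool.Agent.H385R4.AEDefs

/-!
AE4: the Gram matrix of the coefficients.
-/

open Complex Filter Topology Set MeasureTheory

namespace H385

namespace AE4Aux

/-- the majorant -/
noncomputable def gg (u : ℝ) (n : ℕ) : ℝ :=
  ArithmeticFunction.vonMangoldt n / Real.sqrt n * Real.exp (-(u - Real.log n) ^ 2 / 4)

theorem gg_nonneg (u : ℝ) (n : ℕ) : 0 ≤ gg u n := by
  unfold gg
  have := @ArithmeticFunction.vonMangoldt_nonneg n
  positivity

theorem cpr_norm (P : ℕ) (T u t : ℝ) (hT : 0 ≤ T) (n : ℕ) :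
    ‖cpr P T u t n‖ ≤ wt T t * gg u n := by
  have hw := wt_nonneg T t hT
  unfold cpr
  split_ifs with h
  · rw [norm_mul, Complex.norm_real, Real.norm_of_nonneg ArithmeticFunction.vonMangoldt_nonneg]
    exact b_bound T u t hT n
  · rw [norm_zero]
    exact mul_nonneg hw (gg_nonneg u n)

theorem gg_le {u : ℝ} (hu : 0 ≤ u) {n : ℕ} (hn : 1 ≤ n) :
    gg u n ≤ Real.exp (9 / 4) * (u + 1) * Real.exp (-u / 2) := by
  have hn0 : (0:ℝ) < n := by exact_mod_cast hn
  set l : ℝ := Real.log n with hl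
  have hl0 : 0 ≤ l := Real.log_nonneg (by exact_mod_cast hn)
  have h1 : ArithmeticFunction.vonMangoldt n ≤ l := ArithmeticFunction.vonMangoldt_le_log
  have h2 : Real.sqrt n = Real.exp (l / 2) := by
    rw [Real.sqrt_eq_rpow, Real.rpow_def_of_pos hn0]
    congr 1
    rw [← hl]; ring
  unfold gg
  rw [h2, ← hl]
  set y : ℝ := u - l with hy
  have h3 : ArithmeticFunction.vonMangoldt n / Real.exp (l / 2) * Real.exp (-y ^ 2 / 4) ≤
      l / Real.exp (l / 2) * Real.exp (-y ^ 2 / 4) := by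
    apply mul_le_mul_of_nonneg_right _ (Real.exp_pos _).le
    exact div_le_div_of_nonneg_right h1 (Real.exp_pos _).le
  refine h3.trans ?_
  have h4 : l ≤ (u + 1) * Real.exp |y| := by
    have h5 : l ≤ u + |y| := by
      have := neg_abs_le y
      have h6 : l = u - y := by rw [hy]; ring
      linarith
    have h7 : 1 + |y| ≤ Real.exp |y| := by
      have := Real.add_one_le_exp |y|
      linarith
    have h8 : 0 ≤ |y| := abs_nonneg y
    nlinarith
  have h9 : l / Real.exp (l / 2) * Real.exp (-y ^ 2 / 4) ≤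
      (u + 1) * Real.exp |y| / Real.exp (l / 2) * Real.exp (-y ^ 2 / 4) := by
    apply mul_le_mul_of_nonneg_right _ (Real.exp_pos _).le
    exact div_le_div_of_nonneg_right h4 (Real.exp_pos _).le
  refine h9.trans ?_
  have h10 : (u + 1) * Real.exp |y| / Real.exp (l / 2) * Real.exp (-y ^ 2 / 4) =
      (u + 1) * Real.exp (|y| - l / 2 + (-y ^ 2 / 4)) := by
    rw [Real.exp_add, Real.exp_sub]; ring
  have h11 : Real.exp (9 / 4) * (u + 1) * Real.exp (-u / 2) =
      (u + 1) * Real.exp (9 / 4 + (-u / 2)) := by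
    rw [Real.exp_add]; ring
  rw [h10, h11]
  apply mul_le_mul_of_nonneg_left _ (by linarith)
  apply Real.exp_le_exp.mpr
  have h12 : l = u - y := by rw [hy]; ring
  have h13 : y ≤ |y| := le_abs_self y
  have h14 : y ^ 2 = |y| ^ 2 := (sq_abs y).symm
  rw [h12, h14]
  nlinarith [sq_nonneg (|y| / 2 - 3 / 2)]

theorem gg_pow (u : ℝ) {n : ℕ} (hn : 1 ≤ n) :
    gg u n ^ 4 ≤ 4096 * (1 / (n:ℝ) ^ (3 / 2 : ℝ)) := by
  have hn0 : (0:ℝ) < n := by exact_mod_cast hn
  have hl0 : 0 ≤ Real.log n := Real.log_nonneg (by exact_mod_cast hn)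
  have h1 : ArithmeticFunction.vonMangoldt n ≤ Real.log n := ArithmeticFunction.vonMangoldt_le_log
  have h2 : Real.log n ≤ 8 * (n:ℝ) ^ (1 / 8 : ℝ) := by
    have := Real.log_le_rpow_div hn0.le (by norm_num : (0:ℝ) < 1 / 8)
    calc Real.log n ≤ (n:ℝ) ^ (1 / 8 : ℝ) / (1 / 8) := this
      _ = 8 * (n:ℝ) ^ (1 / 8 : ℝ) := by ring
  have h3 : gg u n ≤ 8 * (n:ℝ) ^ (1 / 8 : ℝ) / Real.sqrt n := by
    unfold gg
    have h4 : Real.exp (-(u - Real.log n) ^ 2 / 4) ≤ 1 := by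
      apply Real.exp_le_one_iff.mpr
      nlinarith [sq_nonneg (u - Real.log n)]
    have h5 : 0 ≤ ArithmeticFunction.vonMangoldt n / Real.sqrt n :=
      div_nonneg ArithmeticFunction.vonMangoldt_nonneg (Real.sqrt_nonneg _)
    calc ArithmeticFunction.vonMangoldt n / Real.sqrt n *
          Real.exp (-(u - Real.log n) ^ 2 / 4)
        ≤ ArithmeticFunction.vonMangoldt n / Real.sqrt n * 1 := mul_le_mul_of_nonneg_left h4 h5
      _ ≤ 8 * (n:ℝ) ^ (1 / 8 : ℝ) / Real.sqrt n := by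
          rw [mul_one]
          exact div_le_div_of_nonneg_right (h1.trans h2) (Real.sqrt_nonneg _)
  calc gg u n ^ 4 ≤ (8 * (n:ℝ) ^ (1 / 8 : ℝ) / Real.sqrt n) ^ 4 :=
        pow_le_pow_left₀ (gg_nonneg u n) h3 4
    _ = 4096 * (1 / (n:ℝ) ^ (3 / 2 : ℝ)) := by
        rw [div_pow, mul_pow]
        have e1 : Real.sqrt n ^ 4 = (n:ℝ) ^ 2 := by
          have : Real.sqrt n ^ 4 = (Real.sqrt n ^ 2) ^ 2 := by ring
          rw [this, Real.sq_sqrt hn0.le]
        have e2 : ((n:ℝ) ^ (1 / 8 : ℝ)) ^ 4 = (n:ℝ) ^ (1 / 2 : ℝ) := by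
          rw [← Real.rpow_natCast, ← Real.rpow_mul hn0.le]
          norm_num
        have e3 : (n:ℝ) ^ 2 = (n:ℝ) ^ (1 / 2 : ℝ) * (n:ℝ) ^ (3 / 2 : ℝ) := by
          rw [← Real.rpow_add hn0, ← Real.rpow_natCast]
          norm_num
        rw [e1, e2, e3]
        have h6 : (0:ℝ) < (n:ℝ) ^ (1 / 2 : ℝ) := Real.rpow_pos_of_pos hn0 _
        have h7 : (0:ℝ) < (n:ℝ) ^ (3 / 2 : ℝ) := Real.rpow_pos_of_pos hn0 _
        field_simp
        norm_num

end AE4Aux

open AE4Aux in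
/-- AE4: the Gram matrix of the coefficients -/
theorem cpr_gram : ∃ C : ℝ, 0 < C ∧ ∀ (P N : ℕ) (T κ u : ℝ), 1 ≤ κ → κ ≤ T → 1 ≤ T →
    T ≤ Real.exp (κ ^ 2) → 0 ≤ u →
    ∑ n ∈ Finset.Icc 1 N, ∑ m ∈ Finset.Icc 1 N,
        ‖∫ t : ℝ, cpr P T u t n * (starRingEnd ℂ) (cpr P T u t m)‖ ^ 2 ≤
      C * (T ^ 2 + T * (u + 1) ^ 5) := by
  classical
  obtain ⟨C1, hC1, h1⟩ := wt_sq_int
  obtain ⟨C2, hC2, h2⟩ := cyc_offdiag
  obtain ⟨C3, hC3, h3⟩ := aq_cross
  have hsum : Summable (fun n : ℕ => 1 / (n:ℝ) ^ (3 / 2 : ℝ)) :=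
    Real.summable_one_div_nat_rpow.mpr (by norm_num)
  set Z : ℝ := ∑' n : ℕ, 1 / (n:ℝ) ^ (3 / 2 : ℝ) with hZ
  have hZ0 : 0 ≤ Z := tsum_nonneg (fun n => by positivity)
  set A : ℝ := 1 + C1 with hA
  set K : ℝ := Real.exp (9 / 4) with hK
  have hK0 : 0 < K := Real.exp_pos _
  refine ⟨A ^ 2 * (4096 * Z) + A * K ^ 2 * C3 * C2 + 1, by positivity, ?_⟩
  intro P N T κ u hκ hκT hT hTκ hu
  have hT0 : 0 ≤ T := by linarith
  have hA0 : 0 < A := by positivity
  obtain ⟨w1, w2⟩ := h1 T hT0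
  have hwA : ∫ t : ℝ, (wt T t) ^ 2 ≤ A * T := by
    refine w2.trans ?_
    rw [hA]; nlinarith
  set II : ℕ → ℕ → ℝ := fun n m =>
    ‖∫ t : ℝ, cpr P T u t n * (starRingEnd ℂ) (cpr P T u t m)‖ with hII
  have hII0 : ∀ n m, 0 ≤ II n m := fun n m => norm_nonneg _
  -- the trivial bound
  have b1 : ∀ n m, II n m ≤ A * T * (gg u n * gg u m) := by
    intro n m
    have h4 : II n m ≤ ∫ t : ℝ, (wt T t) ^ 2 * (gg u n * gg u m) := by
      simp only [hII]
      apply norm_integral_le_of_norm_le (w1.mul_const _)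
      refine Eventually.of_forall fun t => ?_
      rw [norm_mul, RCLike.norm_conj]
      calc ‖cpr P T u t n‖ * ‖cpr P T u t m‖ ≤ (wt T t * gg u n) * (wt T t * gg u m) :=
            mul_le_mul (cpr_norm P T u t hT0 n) (cpr_norm P T u t hT0 m) (norm_nonneg _)
              (mul_nonneg (wt_nonneg T t hT0) (gg_nonneg u n))
        _ = (wt T t) ^ 2 * (gg u n * gg u m) := by ring
    refine h4.trans ?_
    rw [integral_mul_const]
    exact mul_le_mul_of_nonneg_right hwA (mul_nonneg (gg_nonneg u n) (gg_nonneg u m))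
  -- the off-diagonal kernel
  set WW : ℕ → ℕ → ℝ := fun n m =>
    ArithmeticFunction.vonMangoldt n * ArithmeticFunction.vonMangoldt m /
          (Real.sqrt n * Real.sqrt m) *
          (Real.exp (-(u - Real.log n) ^ 2 / 4) * Real.exp (-(u - Real.log m) ^ 2 / 4)) /
          |Real.log n - Real.log m| with hWW
  have hWW0 : ∀ n m, 0 ≤ WW n m := by
    intro n m
    simp only [hWW]
    have := @ArithmeticFunction.vonMangoldt_nonneg n
    have := @ArithmeticFunction.vonMangoldt_nonneg m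
    positivity
  have b2 : ∀ n m, 1 ≤ n → 1 ≤ m → n ≠ m → II n m ≤ C3 * WW n m := by
    intro n m hn hm hnm
    by_cases hp : (n.Prime ∧ Nat.Coprime n P) ∧ (m.Prime ∧ Nat.Coprime m P)
    · have h5 := (h3 T u P n m hT0 hn hm hnm).2
      have h6 : ∀ t, cpr P T u t n * (starRingEnd ℂ) (cpr P T u t m) =
          FamLS.aq (bn T u t) P n * (starRingEnd ℂ) (FamLS.aq (bn T u t) P m) := by
        intro t
        unfold cpr FamLS.aq
        rw [if_pos hp.1, if_pos hp.2, if_pos hp.1.2, if_pos hp.2.2]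
      simp only [hII]
      simp_rw [h6]
      exact h5
    · have h6 : ∀ t, cpr P T u t n * (starRingEnd ℂ) (cpr P T u t m) = 0 := by
        intro t
        unfold cpr
        rcases not_and_or.mp hp with h | h
        · rw [if_neg h, zero_mul]
        · rw [if_neg h, map_zero, mul_zero]
      simp only [hII]
      simp_rw [h6]
      simp only [integral_zero, norm_zero]
      exact mul_nonneg hC3.le (hWW0 n m)
  -- termwise
  have b3 : ∀ n ∈ Finset.Icc 1 N, ∀ m ∈ Finset.Icc 1 N, II n m ^ 2 ≤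
      (if n = m then (A * T) ^ 2 * (4096 * (1 / (n:ℝ) ^ (3 / 2 : ℝ))) else 0) +
      (A * T * (K ^ 2 * (u + 1) ^ 2 * Real.exp (-u)) * C3) *
        (if n ≠ m ∧ (n : ZMod 1) = (m : ZMod 1) then WW n m else 0) := by
    intro n hn m hm
    rw [Finset.mem_Icc] at hn hm
    by_cases hnm : n = m
    · subst hnm
      rw [if_pos rfl, if_neg (fun h => h.1 rfl), mul_zero, add_zero]
      calc II n n ^ 2 ≤ (A * T * (gg u n * gg u n)) ^ 2 :=
            pow_le_pow_left₀ (hII0 n n) (b1 n n) 2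
        _ = (A * T) ^ 2 * gg u n ^ 4 := by ring
        _ ≤ _ := mul_le_mul_of_nonneg_left (gg_pow u hn.1) (by positivity)
    · rw [if_neg hnm, if_pos ⟨hnm, Subsingleton.elim _ _⟩, zero_add]
      have h7 : gg u n * gg u m ≤ K ^ 2 * (u + 1) ^ 2 * Real.exp (-u) := by
        calc gg u n * gg u m ≤ (K * (u + 1) * Real.exp (-u / 2)) *
              (K * (u + 1) * Real.exp (-u / 2)) :=
              mul_le_mul (gg_le hu hn.1) (gg_le hu hm.1) (gg_nonneg u m) (by positivity)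
          _ = K ^ 2 * (u + 1) ^ 2 * (Real.exp (-u / 2) * Real.exp (-u / 2)) := by ring
          _ = K ^ 2 * (u + 1) ^ 2 * Real.exp (-u) := by
              rw [← Real.exp_add]; congr 2; ring
      calc II n m ^ 2 = II n m * II n m := sq _
        _ ≤ (A * T * (gg u n * gg u m)) * (C3 * WW n m) :=
            mul_le_mul (b1 n m) (b2 n m hn.1 hm.1 hnm) (hII0 n m)
              (by have := gg_nonneg u n; have := gg_nonneg u m; positivity)
        _ ≤ (A * T * (K ^ 2 * (u + 1) ^ 2 * Real.exp (-u))) * (C3 * WW n m) := by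
            apply mul_le_mul_of_nonneg_right _ (mul_nonneg hC3.le (hWW0 n m))
            exact mul_le_mul_of_nonneg_left h7 (by positivity)
        _ = _ := by ring
  have hoff := h2 1 N u le_rfl hu
  have hoff' : ∑ n ∈ Finset.Icc 1 N, ∑ m ∈ Finset.Icc 1 N,
      (if n ≠ m ∧ (n : ZMod 1) = (m : ZMod 1) then WW n m else 0) ≤
      C2 * (u + 1) ^ 3 * Real.exp u := by
    refine hoff.trans (le_of_eq ?_)
    simp
  calc ∑ n ∈ Finset.Icc 1 N, ∑ m ∈ Finset.Icc 1 N, II n m ^ 2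
      ≤ ∑ n ∈ Finset.Icc 1 N, ∑ m ∈ Finset.Icc 1 N,
        ((if n = m then (A * T) ^ 2 * (4096 * (1 / (n:ℝ) ^ (3 / 2 : ℝ))) else 0) +
      (A * T * (K ^ 2 * (u + 1) ^ 2 * Real.exp (-u)) * C3) *
        (if n ≠ m ∧ (n : ZMod 1) = (m : ZMod 1) then WW n m else 0)) :=
        Finset.sum_le_sum fun n hn => Finset.sum_le_sum fun m hm => b3 n hn m hm
    _ = ∑ n ∈ Finset.Icc 1 N, (A * T) ^ 2 * (4096 * (1 / (n:ℝ) ^ (3 / 2 : ℝ))) +
        (A * T * (K ^ 2 * (u + 1) ^ 2 * Real.exp (-u)) * C3) *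
        ∑ n ∈ Finset.Icc 1 N, ∑ m ∈ Finset.Icc 1 N,
        (if n ≠ m ∧ (n : ZMod 1) = (m : ZMod 1) then WW n m else 0) := by
        rw [Finset.mul_sum, ← Finset.sum_add_distrib]
        apply Finset.sum_congr rfl
        intro n hn
        rw [Finset.mul_sum, Finset.sum_add_distrib, Finset.sum_ite_eq, if_pos hn]
    _ ≤ (A * T) ^ 2 * (4096 * Z) + (A * T * (K ^ 2 * (u + 1) ^ 2 * Real.exp (-u)) * C3) *
        (C2 * (u + 1) ^ 3 * Real.exp u) := by
        apply add_le_add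
        · rw [← Finset.mul_sum, ← Finset.mul_sum]
          apply mul_le_mul_of_nonneg_left _ (by positivity)
          apply mul_le_mul_of_nonneg_left _ (by norm_num)
          exact hsum.sum_le_tsum _ (fun n _ => by positivity)
        · exact mul_le_mul_of_nonneg_left hoff' (by positivity)
    _ = (A ^ 2 * (4096 * Z)) * T ^ 2 + (A * K ^ 2 * C3 * C2) * (T * (u + 1) ^ 5) *
        (Real.exp (-u) * Real.exp u) := by ring
    _ = (A ^ 2 * (4096 * Z)) * T ^ 2 + (A * K ^ 2 * C3 * C2) * (T * (u + 1) ^ 5) := by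
        rw [← Real.exp_add, neg_add_cancel, Real.exp_zero, mul_one]
    _ ≤ _ := by
        have e1 : 0 ≤ T ^ 2 := by positivity
        have e2 : 0 ≤ T * (u + 1) ^ 5 := by positivity
        have e3 : 0 ≤ A ^ 2 * (4096 * Z) := by positivity
        have e4 : 0 ≤ A * K ^ 2 * C3 * C2 := by positivity
        nlinarith [mul_nonneg e3 e2, mul_nonneg e4 e1]

end H385
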