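import Pool.Agent.H385R4.AEDefs

/-!
TEAM Q, project AE, task AE5: orthogonality for the primitive characters mod `q`.
-/

open Complex Filter Topology Set MeasureTheory

set_option autoImplicit false

namespace H385

namespace AE5

open Classical in
/-- the sum over all characters mod `d` splits over the conductors -/
theorem sum_all (d q : ℕ) [NeZero d] (hdq : d ∣ q) (N : ℕ) (b : ℕ → ℂ)
    (hb : ∀ n, ¬ Nat.Coprime n q → b n = 0) :
    ∑ e ∈ d.divisors, Flat.PS N b e =
      ∑ χ : DirichletCharacter ℂ d, ‖∑ n ∈ Finset.Icc 1 N, b n * χ (n : ZMod d)‖ ^ 2 := by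
  rw [← Finset.sum_fiberwise_of_maps_to (s := (Finset.univ : Finset (DirichletCharacter ℂ d)))
    (t := d.divisors) (g := fun χ : DirichletCharacter ℂ d => χ.conductor)]
  · refine Finset.sum_congr rfl fun e he => ?_
    rw [Nat.mem_divisors] at he
    have hed := he.1
    have he0 : e ≠ 0 := by
      rintro rfl
      exact NeZero.ne d (Nat.eq_zero_of_zero_dvd hed)
    have : NeZero e := ⟨he0⟩
    rw [Flat.PS_eq]
    refine Finset.sum_bij' (i := fun ψ _ => DirichletCharacter.changeLevel hed ψ)
      (j := fun χ hχ => (Finset.mem_filter.mp hχ).2 ▸ χ.primitiveCharacter) ?_ ?_ ?_ ?_ ?_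
    · intro ψ hψ
      rw [Finset.mem_filter] at hψ ⊢
      refine ⟨Finset.mem_univ _, ?_⟩
      rw [DirichletCharacter.conductor_changeLevel]
      exact hψ.2
    · intro χ hχ
      rw [Finset.mem_filter] at hχ ⊢
      obtain ⟨h1, h2⟩ := hχ
      subst h2
      exact ⟨Finset.mem_univ _, χ.primitiveCharacter_isPrimitive⟩
    · intro ψ hψ
      rw [Finset.mem_filter] at hψ
      apply DirichletCharacter.changeLevel_injective (R := ℂ) hed
      have key : ∀ (c : ℕ) (hc : c = e) (χ : DirichletCharacter ℂ d) (h2 : χ.conductor = e),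
          DirichletCharacter.changeLevel hed (h2 ▸ χ.primitiveCharacter) = χ := by
        intro c hc χ h2
        subst h2
        exact χ.changeLevel_primitiveCharacter
      exact key e rfl _ _
    · intro χ hχ
      have key : ∀ (χ : DirichletCharacter ℂ d) (h2 : χ.conductor = e),
          DirichletCharacter.changeLevel hed (h2 ▸ χ.primitiveCharacter) = χ := by
        intro χ h2
        subst h2
        exact χ.changeLevel_primitiveCharacter
      exact key χ _
    · intro ψ hψ
      congr 2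
      refine Finset.sum_congr rfl fun n _ => ?_
      by_cases hn : Nat.Coprime n q
      · congr 1
        have hnd : Nat.Coprime n d := Nat.Coprime.coprime_dvd_right hdq hn
        have hu : IsUnit (n : ZMod d) := (ZMod.isUnit_iff_coprime n d).mpr hnd
        have h1 := DirichletCharacter.changeLevel_eq_cast_of_dvd ψ hed hu.unit
        rw [IsUnit.unit_spec] at h1
        rw [h1, ZMod.cast_natCast hed]
      · rw [hb n hn, zero_mul, zero_mul]
  · intro χ _
    rw [Nat.mem_divisors]
    exact ⟨χ.conductor_dvd_level, NeZero.ne d⟩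

end AE5

/-- AE5: orthogonality for the primitive characters mod `q` -/
theorem prim_orth (q : ℕ) [NeZero q] (N : ℕ) (b : ℕ → ℂ) (hb : ∀ n, ¬ Nat.Coprime n q → b n = 0) :
    ((Flat.PS N b q : ℝ) : ℂ) =
      ∑ d ∈ q.divisors, ((ArithmeticFunction.moebius (q / d) : ℤ) : ℂ) * (Nat.totient d : ℂ) *
        ∑ n ∈ Finset.Icc 1 N, ∑ m ∈ Finset.Icc 1 N,
          (if (n : ZMod d) = (m : ZMod d) then b n * (starRingEnd ℂ) (b m) else 0) := by
  classical
  set G : ℕ → ℂ := fun d => (Nat.totient d : ℂ) * ∑ n ∈ Finset.Icc 1 N, ∑ m ∈ Finset.Icc 1 N,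
          (if (n : ZMod d) = (m : ZMod d) then b n * (starRingEnd ℂ) (b m) else 0) with hG
  have hq0 : 0 < q := Nat.pos_of_ne_zero (NeZero.ne q)
  have h1 : ∀ n > 0, n ∈ {d : ℕ | d ∣ q} →
      (∑ i ∈ n.divisors, ((Flat.PS N b i : ℝ) : ℂ)) = G n := by
    intro d hd0 hd
    have hdq : d ∣ q := hd
    have : NeZero d := ⟨hd0.ne'⟩
    have h2 := AE5.sum_all d q hdq N b hb
    have h3 := cyc_orth d N b (fun n hn => hb n fun h => hn (Nat.Coprime.coprime_dvd_right hdq h))
    rw [hG]
    simp only
    rw [← h3, ← h2]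
    push_cast
    rfl
  have h2 := (ArithmeticFunction.sum_eq_iff_sum_mul_moebius_eq_on (R := ℂ)
    (f := fun i => ((Flat.PS N b i : ℝ) : ℂ)) (g := G) {d : ℕ | d ∣ q}
    (fun m n hmn hn => hmn.trans hn)).mp h1 q hq0 dvd_rfl
  rw [← h2, Nat.sum_divisorsAntidiagonal' (f := fun a c => ((ArithmeticFunction.moebius a : ℤ) : ℂ) * G c)]
  refine Finset.sum_congr rfl fun d _ => ?_
  rw [hG]
  ring

end H385
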