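import Pool.Agent.H385R2.Flat
import Pool.Agent.H385R2.PrimMass
import Pool.Agent.H385R2.PrimSet
import Pool.Agent.H385R3.Cyc5

/-!
TEAM Q, project AE (almost every Dirichlet character).  Definitions.
-/

open Complex Filter Topology Set MeasureTheory

namespace H385

/-- coefficients of the prime sum : only primes which do not divide `P` -/
noncomputable def cpr (P : ℕ) (T u t : ℝ) (n : ℕ) : ℂ :=
  if n.Prime ∧ Nat.Coprime n P then (ArithmeticFunction.vonMangoldt n : ℂ) * bn T u t n else 0

/-- the constant in the large sieve -/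
noncomputable def KLS (P : ℕ) (C : ℝ) (X Y N : ℕ) : ℝ :=
  Real.exp (Real.pi * N / (X : ℝ) ^ 2) *
    (c0 * (∏ p ∈ P.primeFactors, (1 - 1 / (p : ℝ) ^ 2)) * Real.log ((Y : ℝ) / X) + C)

end H385
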