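import Pool.Agent.H385R4.AE5
import Pool.Agent.H385R4.AEDefs

/-!
TEAM Q, project AE, task AE6: lower bound for the first moment.
-/

set_option autoImplicit false

open Complex Filter Topology Set MeasureTheory

namespace H385

namespace AE6

/-! ### elementary sums -/

lemma sum_inv_Ioc (a b : ℕ) (h : a < b) :
    ∑ m ∈ Finset.Ioc a b, 1 / (m : ℝ) ≤ 1 + Real.log ((b : ℝ) / (a + 1)) := by
  induction b, h using Nat.le_induction with
  | base =>
    have e : Finset.Ioc a (a + 1) = {a + 1} := by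
      ext x; simp only [Finset.mem_Ioc, Finset.mem_singleton]; omega
    rw [Nat.succ_eq_add_one, e, Finset.sum_singleton]
    push_cast
    rw [div_self (by positivity), Real.log_one]
    rw [add_zero, div_le_one (by positivity)]
    have : (0:ℝ) ≤ a := Nat.cast_nonneg a
    linarith
  | succ b hb ih =>
    have hb0 : (0:ℝ) < b := by
      have : 0 < b := by omega
      exact_mod_cast this
    rw [Finset.sum_Ioc_succ_top (by omega)]
    have h1 : 1 / ((b : ℝ) + 1) ≤ Real.log (((b : ℝ) + 1) / b) := by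
      have := Real.one_sub_inv_le_log_of_pos (x := ((b : ℝ) + 1) / b) (by positivity)
      rw [inv_div] at this
      refine le_trans (le_of_eq ?_) this
      field_simp
      ring
    have h2 : Real.log (((b + 1 : ℕ) : ℝ) / (a + 1)) = Real.log ((b : ℝ) / (a + 1))
        + Real.log (((b : ℝ) + 1) / b) := by
      rw [← Real.log_mul (by positivity) (by positivity)]
      congr 1
      push_cast
      field_simp
    rw [h2]
    push_cast
    linarith

lemma sum_inv_sq_Ioc (a b : ℕ) (ha : 1 ≤ a) :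
    ∑ m ∈ Finset.Ioc a b, 1 / (m : ℝ) ^ 2 ≤ 1 / (a : ℝ) := by
  rcases le_or_gt a b with h | h
  · have := sum_Ioc_inv_sq_le_sub (α := ℝ) (k := a) (n := b) (by omega) h
    have h2 : (0:ℝ) ≤ (b : ℝ)⁻¹ := by positivity
    simp only [one_div]
    linarith
  · rw [Finset.Ioc_eq_empty (by omega)]
    simp

lemma sum_inv_sq_zero (b : ℕ) : ∑ m ∈ Finset.Ioc 0 b, 1 / (m : ℝ) ^ 2 ≤ 2 := by
  rcases Nat.eq_zero_or_pos b with h | h
  · subst h; simp
  · have e : Finset.Ioc 0 b = insert 1 (Finset.Ioc 1 b) := by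
      ext x; simp only [Finset.mem_Ioc, Finset.mem_insert]; omega
    rw [e, Finset.sum_insert (by simp)]
    have := sum_inv_sq_Ioc 1 b le_rfl
    norm_num at this ⊢
    linarith

/-- sums over the multiples of `p` in `(X,Y]` -/
lemma sum_mult (X Y p : ℕ) (hp : 1 ≤ p) (k : ℕ) :
    ∑ q ∈ (Finset.Ioc X Y).filter (fun q => p ∣ q), 1 / (q : ℝ) ^ k ≤
      1 / (p : ℝ) ^ k * ∑ m ∈ Finset.Ioc (X / p) (Y / p), 1 / (m : ℝ) ^ k := by
  have hp0 : (0:ℝ) < p := by exact_mod_cast hp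
  have h1 : ∑ q ∈ (Finset.Ioc X Y).filter (fun q => p ∣ q), 1 / (q : ℝ) ^ k =
      1 / (p : ℝ) ^ k * ∑ m ∈ ((Finset.Ioc X Y).filter (fun q => p ∣ q)).image (fun q => q / p),
        1 / (m : ℝ) ^ k := by
    rw [Finset.sum_image]
    · rw [Finset.mul_sum]
      refine Finset.sum_congr rfl fun q hq => ?_
      rw [Finset.mem_filter] at hq
      obtain ⟨m, rfl⟩ := hq.2
      rw [Nat.mul_div_cancel_left _ (by omega)]
      push_cast
      rw [mul_pow]
      field_simp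
    · intro q1 h1 q2 h2 h
      simp only [Finset.coe_filter, Set.mem_setOf_eq] at h1 h2
      obtain ⟨m1, rfl⟩ := h1.2
      obtain ⟨m2, rfl⟩ := h2.2
      simp only at h
      rw [Nat.mul_div_cancel_left _ (by omega), Nat.mul_div_cancel_left _ (by omega)] at h
      rw [h]
  rw [h1]
  apply mul_le_mul_of_nonneg_left _ (by positivity)
  apply Finset.sum_le_sum_of_subset_of_nonneg
  · intro m hm
    rw [Finset.mem_image] at hm
    obtain ⟨q, hq, rfl⟩ := hm
    rw [Finset.mem_filter, Finset.mem_Ioc] at hq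
    obtain ⟨m, rfl⟩ := hq.2
    rw [Nat.mul_div_cancel_left _ (by omega), Finset.mem_Ioc]
    constructor
    · rw [Nat.div_lt_iff_lt_mul (by omega)]
      nlinarith [hq.1.1]
    · rw [Nat.le_div_iff_mul_le (by omega)]
      nlinarith [hq.1.2]
  · intro m _ _; positivity

lemma sum_mult_inv (X Y p : ℕ) (hX : 1 ≤ X) (hXY : X ≤ Y) (hp : 1 ≤ p) :
    ∑ q ∈ (Finset.Ioc X Y).filter (fun q => p ∣ q), 1 / (q : ℝ) ≤
      1 / (p : ℝ) * (Real.log ((Y : ℝ) / X) + 1) := by
  have h1 := sum_mult X Y p hp 1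
  simp only [pow_one] at h1
  refine h1.trans ?_
  have hp0 : (0:ℝ) < p := by exact_mod_cast hp
  have hX0 : (0:ℝ) < X := by exact_mod_cast hX
  apply mul_le_mul_of_nonneg_left _ (by positivity)
  have hlog : 0 ≤ Real.log ((Y : ℝ) / X) := by
    apply Real.log_nonneg
    rw [le_div_iff₀ hX0, one_mul]; exact_mod_cast hXY
  rcases le_or_gt (Y / p) (X / p) with h | h
  · rw [Finset.Ioc_eq_empty (by omega)]
    simp only [Finset.sum_empty]
    linarith
  · refine (sum_inv_Ioc _ _ h).trans ?_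
    have h2 : (X : ℝ) / p < ((X / p : ℕ) : ℝ) + 1 := by
      rw [div_lt_iff₀ hp0]
      have := Nat.lt_mul_div_succ X (show 0 < p by omega)
      have h3 : (X : ℝ) < ((p * (X / p + 1) : ℕ) : ℝ) := by exact_mod_cast this
      push_cast at h3
      linarith
    have h3 : ((Y / p : ℕ) : ℝ) ≤ (Y : ℝ) / p := Nat.cast_div_le
    have h4 : ((Y / p : ℕ) : ℝ) / (((X / p : ℕ) : ℝ) + 1) ≤ (Y : ℝ) / X := by
      rw [div_le_div_iff₀ (by positivity) hX0]
      have h5 : (X : ℝ) < p * (((X / p : ℕ) : ℝ) + 1) := by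
        rw [div_lt_iff₀ hp0] at h2; linarith
      have h6 : ((Y / p : ℕ) : ℝ) * p ≤ Y := by
        rw [le_div_iff₀ hp0] at h3; exact h3
      have h7 : (0:ℝ) ≤ ((X / p : ℕ) : ℝ) := Nat.cast_nonneg _
      calc ((Y / p : ℕ) : ℝ) * X ≤ ((Y / p : ℕ) : ℝ) * (p * (((X / p : ℕ) : ℝ) + 1)) :=
            mul_le_mul_of_nonneg_left h5.le (Nat.cast_nonneg _)
        _ = (((Y / p : ℕ) : ℝ) * p) * (((X / p : ℕ) : ℝ) + 1) := by ring
        _ ≤ Y * (((X / p : ℕ) : ℝ) + 1) := mul_le_mul_of_nonneg_right h6 (by positivity)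
    have h8 : (0:ℝ) < ((Y / p : ℕ) : ℝ) / (((X / p : ℕ) : ℝ) + 1) := by
      have : 0 < Y / p := lt_of_le_of_lt (Nat.zero_le _) h
      have : (0:ℝ) < ((Y / p : ℕ) : ℝ) := by exact_mod_cast this
      positivity
    have := Real.log_le_log h8 h4
    linarith

lemma sum_tau (X Y : ℕ) (hX : 1 ≤ X) :
    ∑ q ∈ Finset.Ioc X Y, (q.divisors.card : ℝ) / (q : ℝ) ^ 2 ≤ 4 * (Real.log X + 1) / X := by
  have hX0 : (0:ℝ) < X := by exact_mod_cast hX
  have hX1 : (1:ℝ) ≤ X := by exact_mod_cast hX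
  have hlog : 0 ≤ Real.log X := Real.log_nonneg hX1
  have h1 : ∑ q ∈ Finset.Ioc X Y, (q.divisors.card : ℝ) / (q : ℝ) ^ 2 =
      ∑ d ∈ Finset.Icc 1 Y, ∑ q ∈ (Finset.Ioc X Y).filter (fun q => d ∣ q), 1 / (q : ℝ) ^ 2 := by
    have : ∀ d, ∑ q ∈ (Finset.Ioc X Y).filter (fun q => d ∣ q), 1 / (q : ℝ) ^ 2 =
        ∑ q ∈ Finset.Ioc X Y, if d ∣ q then 1 / (q : ℝ) ^ 2 else 0 := fun d => Finset.sum_filter _ _
    simp_rw [this]
    rw [Finset.sum_comm]
    refine Finset.sum_congr rfl fun q hq => ?_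
    rw [Finset.mem_Ioc] at hq
    rw [← Finset.sum_filter, Finset.sum_const, nsmul_eq_mul]
    have e : (Finset.Icc 1 Y).filter (fun d => d ∣ q) = q.divisors := by
      ext d
      simp only [Finset.mem_filter, Finset.mem_Icc, Nat.mem_divisors]
      constructor
      · rintro ⟨_, h⟩; exact ⟨h, by omega⟩
      · rintro ⟨h, _⟩
        have := Nat.le_of_dvd (by omega) h
        have := Nat.pos_of_dvd_of_pos h (by omega)
        exact ⟨⟨by omega, by omega⟩, h⟩
    rw [e]; ring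
  rw [h1]
  have h2 : ∀ d ∈ Finset.Icc 1 Y, ∑ q ∈ (Finset.Ioc X Y).filter (fun q => d ∣ q), 1 / (q : ℝ) ^ 2
      ≤ if d ≤ X then 2 / (X : ℝ) * (1 / (d : ℝ)) else 2 * (1 / (d : ℝ) ^ 2) := by
    intro d hd
    rw [Finset.mem_Icc] at hd
    have hd0 : (0:ℝ) < d := by
      have : 0 < d := by omega
      exact_mod_cast this
    refine (sum_mult X Y d hd.1 2).trans ?_
    split_ifs with h
    · have ha : 1 ≤ X / d := by rw [Nat.le_div_iff_mul_le (by omega)]; omega
      have ha' : (1:ℝ) ≤ ((X / d : ℕ) : ℝ) := by exact_mod_cast ha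
      have h3 := sum_inv_sq_Ioc (X / d) (Y / d) ha
      have h4 : (X : ℝ) ≤ 2 * (d * ((X / d : ℕ) : ℝ)) := by
        have := Nat.lt_mul_div_succ X (show 0 < d by omega)
        have h5 : (X : ℝ) < ((d * (X / d + 1) : ℕ) : ℝ) := by exact_mod_cast this
        push_cast at h5
        nlinarith
      calc 1 / (d : ℝ) ^ 2 * ∑ m ∈ Finset.Ioc (X / d) (Y / d), 1 / (m : ℝ) ^ 2
          ≤ 1 / (d : ℝ) ^ 2 * (1 / ((X / d : ℕ) : ℝ)) := mul_le_mul_of_nonneg_left h3 (by positivity)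
        _ ≤ 2 / (X : ℝ) * (1 / (d : ℝ)) := by
          rw [div_mul_div_comm, div_mul_div_comm, div_le_div_iff₀ (by positivity) (by positivity)]
          nlinarith
    · have e : X / d = 0 := Nat.div_eq_of_lt (by omega)
      rw [e]
      have h3 := sum_inv_sq_zero (Y / d)
      calc 1 / (d : ℝ) ^ 2 * ∑ m ∈ Finset.Ioc 0 (Y / d), 1 / (m : ℝ) ^ 2
          ≤ 1 / (d : ℝ) ^ 2 * 2 := mul_le_mul_of_nonneg_left h3 (by positivity)
        _ = _ := by ring
  refine (Finset.sum_le_sum h2).trans ?_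
  rw [← Finset.sum_filter_add_sum_filter_not (Finset.Icc 1 Y) (fun d => d ≤ X)]
  have h3 : ∑ d ∈ (Finset.Icc 1 Y).filter (fun d => d ≤ X),
      (if d ≤ X then 2 / (X : ℝ) * (1 / (d : ℝ)) else 2 * (1 / (d : ℝ) ^ 2)) ≤
      2 / (X : ℝ) * (1 + Real.log X) := by
    have e1 : ∑ d ∈ (Finset.Icc 1 Y).filter (fun d => d ≤ X),
      (if d ≤ X then 2 / (X : ℝ) * (1 / (d : ℝ)) else 2 * (1 / (d : ℝ) ^ 2)) =
      ∑ d ∈ (Finset.Icc 1 Y).filter (fun d => d ≤ X), 2 / (X : ℝ) * (1 / (d : ℝ)) := by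
      refine Finset.sum_congr rfl fun d hd => ?_
      rw [if_pos (Finset.mem_filter.mp hd).2]
    rw [e1]
    have e2 : ∑ d ∈ (Finset.Icc 1 Y).filter (fun d => d ≤ X), 2 / (X : ℝ) * (1 / (d : ℝ)) ≤
        ∑ d ∈ Finset.Ioc 0 X, 2 / (X : ℝ) * (1 / (d : ℝ)) := by
      apply Finset.sum_le_sum_of_subset_of_nonneg
      · intro d hd
        simp only [Finset.mem_filter, Finset.mem_Icc, Finset.mem_Ioc] at hd ⊢
        omega
      · intro d _ _; positivity
    refine e2.trans ?_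
    rw [← Finset.mul_sum]
    apply mul_le_mul_of_nonneg_left _ (by positivity)
    have := sum_inv_Ioc 0 X (by omega)
    simpa using this
  have h4 : ∑ d ∈ (Finset.Icc 1 Y).filter (fun d => ¬ d ≤ X),
      (if d ≤ X then 2 / (X : ℝ) * (1 / (d : ℝ)) else 2 * (1 / (d : ℝ) ^ 2)) ≤ 2 / X := by
    have e1 : ∑ d ∈ (Finset.Icc 1 Y).filter (fun d => ¬ d ≤ X),
      (if d ≤ X then 2 / (X : ℝ) * (1 / (d : ℝ)) else 2 * (1 / (d : ℝ) ^ 2)) =
      ∑ d ∈ (Finset.Icc 1 Y).filter (fun d => ¬ d ≤ X), 2 * (1 / (d : ℝ) ^ 2) := by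
      refine Finset.sum_congr rfl fun d hd => ?_
      rw [if_neg (Finset.mem_filter.mp hd).2]
    rw [e1]
    have e2 : ∑ d ∈ (Finset.Icc 1 Y).filter (fun d => ¬ d ≤ X), 2 * (1 / (d : ℝ) ^ 2) ≤
        ∑ d ∈ Finset.Ioc X Y, 2 * (1 / (d : ℝ) ^ 2) := by
      apply Finset.sum_le_sum_of_subset_of_nonneg
      · intro d hd
        simp only [Finset.mem_filter, Finset.mem_Icc, Finset.mem_Ioc] at hd ⊢
        omega
      · intro d _ _; positivity
    refine e2.trans ?_
    rw [← Finset.mul_sum]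
    have := sum_inv_sq_Ioc X Y hX
    have h9 := mul_le_mul_of_nonneg_left this (show (0:ℝ) ≤ 2 by norm_num)
    refine h9.trans (le_of_eq ?_)
    ring
  calc _ ≤ 2 / (X : ℝ) * (1 + Real.log X) + 2 / X := add_le_add h3 h4
    _ ≤ 4 * (Real.log X + 1) / X := by
      have e : 4 * (Real.log X + 1) / X - (2 / (X : ℝ) * (1 + Real.log X) + 2 / X)
          = 2 * Real.log X / X := by field_simp; ring
      have : 0 ≤ 2 * Real.log X / X := by positivity
      linarith

lemma sum_logsq : ∃ K : ℝ, 0 < K ∧ ∀ N : ℕ, ∑ n ∈ Finset.Icc 1 N, (Real.log n) ^ 2 / (n : ℝ) ^ 2 ≤ K := by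
  have hs : Summable (fun n : ℕ => 1 / (n : ℝ) ^ (3 / 2 : ℝ)) :=
    Real.summable_one_div_nat_rpow.mpr (by norm_num)
  refine ⟨16 * ∑' n : ℕ, 1 / (n : ℝ) ^ (3 / 2 : ℝ) + 1, ?_, fun N => ?_⟩
  · have : 0 ≤ ∑' n : ℕ, 1 / (n : ℝ) ^ (3 / 2 : ℝ) := tsum_nonneg fun n => by positivity
    linarith
  · have h1 : ∀ n ∈ Finset.Icc 1 N, (Real.log n) ^ 2 / (n : ℝ) ^ 2 ≤
        16 * (1 / (n : ℝ) ^ (3 / 2 : ℝ)) := by
      intro n hn
      have hn1 : 1 ≤ n := (Finset.mem_Icc.mp hn).1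
      have hn0 : (0:ℝ) < n := by exact_mod_cast hn1
      have hl0 : 0 ≤ Real.log n := Real.log_nonneg (by exact_mod_cast hn1)
      have hl : Real.log n ≤ (n : ℝ) ^ (1/4 : ℝ) / (1/4) :=
        Real.log_le_rpow_div hn0.le (by norm_num)
      have hl2 : (Real.log n) ^ 2 ≤ 16 * (n : ℝ) ^ (1/2 : ℝ) := by
        calc (Real.log n) ^ 2 ≤ ((n : ℝ) ^ (1/4 : ℝ) / (1/4)) ^ 2 := pow_le_pow_left₀ hl0 hl 2
          _ = 16 * ((n : ℝ) ^ (1/4 : ℝ)) ^ 2 := by ring
          _ = 16 * (n : ℝ) ^ (1/2 : ℝ) := by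
            rw [← Real.rpow_natCast, ← Real.rpow_mul hn0.le]; norm_num
      have h2 : (n : ℝ) ^ (1/2 : ℝ) * (n : ℝ) ^ (3/2 : ℝ) = (n : ℝ) ^ 2 := by
        rw [← Real.rpow_add hn0, show (1/2 + 3/2 : ℝ) = ((2 : ℕ) : ℝ) by norm_num,
          Real.rpow_natCast]
      rw [mul_one_div, div_le_div_iff₀ (by positivity) (by positivity), ← h2]
      have h3 : (0:ℝ) < (n : ℝ) ^ (3/2 : ℝ) := by positivity
      nlinarith
    calc ∑ n ∈ Finset.Icc 1 N, (Real.log n) ^ 2 / (n : ℝ) ^ 2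
        ≤ ∑ n ∈ Finset.Icc 1 N, 16 * (1 / (n : ℝ) ^ (3 / 2 : ℝ)) := Finset.sum_le_sum h1
      _ = 16 * ∑ n ∈ Finset.Icc 1 N, 1 / (n : ℝ) ^ (3 / 2 : ℝ) := by rw [Finset.mul_sum]
      _ ≤ 16 * ∑' n : ℕ, 1 / (n : ℝ) ^ (3 / 2 : ℝ) := by
          apply mul_le_mul_of_nonneg_left _ (by norm_num)
          exact hs.sum_le_tsum _ fun n _ => by positivity
      _ ≤ _ := by linarith

/-! ### the coefficients -/

/-- bound for the cross terms -/
noncomputable def tt (u : ℝ) (n m : ℕ) : ℝ :=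
  ArithmeticFunction.vonMangoldt n * ArithmeticFunction.vonMangoldt m /
    (Real.sqrt n * Real.sqrt m) *
    (Real.exp (-(u - Real.log n) ^ 2 / 4) * Real.exp (-(u - Real.log m) ^ 2 / 4)) /
    |Real.log n - Real.log m|

lemma tt_nonneg (u : ℝ) (n m : ℕ) : 0 ≤ tt u n m := by
  unfold tt
  have := @ArithmeticFunction.vonMangoldt_nonneg n
  have := @ArithmeticFunction.vonMangoldt_nonneg m
  positivity

lemma cpr_cont (P : ℕ) (T u : ℝ) (n : ℕ) : Continuous (fun t => cpr P T u t n) := by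
  unfold cpr bn
  split_ifs
  · have := (bt_cont T (Real.log n)).comp (Continuous.prodMk_right (X := ℝ) (Y := ℝ) u)
    exact continuous_const.mul (continuous_const.mul this)
  · exact continuous_const

lemma cpr_eq_aq (P : ℕ) (T u t : ℝ) (n : ℕ) :
    cpr P T u t n = if n.Prime ∧ Nat.Coprime n P then FamLS.aq (bn T u t) 1 n else 0 := by
  unfold cpr FamLS.aq
  simp

lemma cpr_cross : ∃ C : ℝ, 0 < C ∧ ∀ (P : ℕ) (T u : ℝ) (n m : ℕ), 0 ≤ T → 1 ≤ n → 1 ≤ m → n ≠ m →
    Integrable (fun t : ℝ => cpr P T u t n * (starRingEnd ℂ) (cpr P T u t m)) ∧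
    ‖∫ t : ℝ, cpr P T u t n * (starRingEnd ℂ) (cpr P T u t m)‖ ≤ C * tt u n m := by
  obtain ⟨C, hC, h⟩ := aq_cross
  refine ⟨C, hC, fun P T u n m hT hn hm hnm => ?_⟩
  obtain ⟨h1, h2⟩ := h T u 1 n m hT hn hm hnm
  simp only [cpr_eq_aq]
  by_cases c1 : n.Prime ∧ Nat.Coprime n P
  · by_cases c2 : m.Prime ∧ Nat.Coprime m P
    · simp only [if_pos c1, if_pos c2]
      exact ⟨h1, h2⟩
    · simp only [if_neg c2, map_zero, mul_zero]
      exact ⟨integrable_zero _ _ _, by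
        simpa using mul_nonneg hC.le (tt_nonneg u n m)⟩
  · simp only [if_neg c1, zero_mul]
    exact ⟨integrable_zero _ _ _, by
      simpa using mul_nonneg hC.le (tt_nonneg u n m)⟩

lemma cpr_sq : ∃ C : ℝ, 0 < C ∧ ∀ (P : ℕ) (T κ u : ℝ) (n : ℕ), 1 ≤ κ → κ ≤ T → 1 ≤ T →
    T ≤ Real.exp (κ ^ 2) →
    Integrable (fun t : ℝ => ‖cpr P T u t n‖ ^ 2) ∧
    ∫ t : ℝ, ‖cpr P T u t n‖ ^ 2 ≤ C * T * ((Real.log n) ^ 2 / n) := by
  obtain ⟨C, hC, h⟩ := bt_sq_int
  refine ⟨1 + C, by positivity, fun P T κ u n hκ hκT hT hTκ => ?_⟩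
  obtain ⟨h1, h2⟩ := h T κ u (Real.log n) hκ hT hTκ
  have hT0 : 0 ≤ T := by linarith
  have hb : ∫ t : ℝ, ‖bt T u t (Real.log n)‖ ^ 2 ≤ (1 + C) * T := by
    refine h2.trans ?_
    have e1 : Real.exp (-(u - Real.log n) ^ 2) ≤ 1 := by
      apply Real.exp_le_one_iff.mpr
      nlinarith [sq_nonneg (u - Real.log n)]
    have e2 : Real.exp (-(u - Real.log n) ^ 2 / 2) ≤ 1 := by
      apply Real.exp_le_one_iff.mpr
      nlinarith [sq_nonneg (u - Real.log n)]
    have e3 : T / (2 * Real.pi) ≤ T := by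
      rw [div_le_iff₀ (by positivity)]
      have := Real.pi_gt_three
      nlinarith
    have e4 : 0 ≤ T / (2 * Real.pi) := by positivity
    calc T / (2 * Real.pi) * Real.exp (-(u - Real.log n) ^ 2) + C * κ * Real.exp (-(u - Real.log n) ^ 2 / 2)
        ≤ T / (2 * Real.pi) * 1 + C * κ * 1 := by gcongr
      _ ≤ T + C * T := by nlinarith
      _ = _ := by ring
  have hcm : ∀ t : ℝ, ‖cpr P T u t n‖ ^ 2 ≤ ((Real.log n) ^ 2 / n) * ‖bt T u t (Real.log n)‖ ^ 2 := by
    intro t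
    unfold cpr bn
    split_ifs with hc
    · have hn0 : (0:ℝ) < n := by exact_mod_cast hc.1.pos
      rw [norm_mul, norm_mul, norm_inv, Complex.norm_real, Complex.norm_real,
        Real.norm_of_nonneg (Real.sqrt_nonneg _),
        Real.norm_of_nonneg ArithmeticFunction.vonMangoldt_nonneg, mul_pow, mul_pow, inv_pow,
        Real.sq_sqrt hn0.le]
      have hv : ArithmeticFunction.vonMangoldt n ^ 2 ≤ (Real.log n) ^ 2 :=
        pow_le_pow_left₀ ArithmeticFunction.vonMangoldt_nonneg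
          ArithmeticFunction.vonMangoldt_le_log 2
      rw [← mul_assoc, ← div_eq_mul_inv]
      gcongr
    · rw [norm_zero, zero_pow two_ne_zero]
      have : (0:ℝ) ≤ (n:ℝ) := Nat.cast_nonneg n
      positivity
  have hI := h1.const_mul ((Real.log n) ^ 2 / n)
  have hint : Integrable (fun t : ℝ => ‖cpr P T u t n‖ ^ 2) := by
    refine hI.mono' ((cpr_cont P T u n).norm.pow 2).aestronglyMeasurable
      (Eventually.of_forall fun t => ?_)
    rw [Real.norm_of_nonneg (sq_nonneg _)]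
    exact hcm t
  refine ⟨hint, ?_⟩
  refine (integral_mono hint hI hcm).trans ?_
  rw [integral_const_mul]
  have hl0 : 0 ≤ (Real.log n) ^ 2 / n := by
    have : (0:ℝ) ≤ (n:ℝ) := Nat.cast_nonneg n
    positivity
  calc _ ≤ (Real.log n) ^ 2 / n * ((1 + C) * T) := mul_le_mul_of_nonneg_left hb hl0
    _ = _ := by ring

/-! ### one modulus -/

/-- coefficients coprime to `q` -/
noncomputable def bq (P q : ℕ) (T u t : ℝ) (n : ℕ) : ℂ :=
  if Nat.Coprime n q then cpr P T u t n else 0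

lemma sum_char (P q N : ℕ) (T u t : ℝ) (χ : DirichletCharacter ℂ q) :
    ∑ n ∈ Finset.Icc 1 N, cpr P T u t n * χ (n : ZMod q) =
      ∑ n ∈ Finset.Icc 1 N, bq P q T u t n * χ (n : ZMod q) := by
  refine Finset.sum_congr rfl fun n _ => ?_
  unfold bq
  split_ifs with h
  · rfl
  · have : ¬ IsUnit (n : ZMod q) := fun hu => h ((ZMod.isUnit_iff_coprime n q).mp hu)
    rw [MulChar.map_nonunit χ this]
    ring

/-- off-diagonal part -/
noncomputable def OD (P q N d : ℕ) (T u t : ℝ) : ℂ :=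
  ∑ n ∈ Finset.Icc 1 N, ∑ m ∈ Finset.Icc 1 N,
    (if n ≠ m ∧ (n : ZMod d) = (m : ZMod d) then
      bq P q T u t n * (starRingEnd ℂ) (bq P q T u t m) else 0)

lemma PS_id (P q N : ℕ) [NeZero q] (T u t : ℝ) :
    Flat.PS N (bq P q T u t) q = (phs q : ℝ) * ∑ n ∈ Finset.Icc 1 N, ‖bq P q T u t n‖ ^ 2 +
      ∑ d ∈ q.divisors, ((ArithmeticFunction.moebius (q / d) : ℤ) : ℝ) * (Nat.totient d : ℝ) *
        (OD P q N d T u t).re := by
  have hq : 0 < q := NeZero.pos q
  have h := prim_orth q N (bq P q T u t) (fun n hn => by unfold bq; rw [if_neg hn])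
  have e2 : ∀ d, ∑ n ∈ Finset.Icc 1 N, ∑ m ∈ Finset.Icc 1 N,
      (if (n : ZMod d) = (m : ZMod d) then bq P q T u t n * (starRingEnd ℂ) (bq P q T u t m)
        else 0) =
      ((∑ n ∈ Finset.Icc 1 N, ‖bq P q T u t n‖ ^ 2 : ℝ) : ℂ) + OD P q N d T u t := by
    intro d
    unfold OD
    push_cast
    rw [← Finset.sum_add_distrib]
    refine Finset.sum_congr rfl fun n hn => ?_
    have e3 : ((‖bq P q T u t n‖ : ℂ)) ^ 2 = ∑ m ∈ Finset.Icc 1 N,
        (if n = m then bq P q T u t n * (starRingEnd ℂ) (bq P q T u t m) else 0) := by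
      rw [Finset.sum_ite_eq, if_pos hn, Complex.mul_conj']
    rw [e3, ← Finset.sum_add_distrib]
    refine Finset.sum_congr rfl fun m _ => ?_
    by_cases hnm : n = m
    · subst hnm; simp
    · simp [hnm]
  simp only [e2] at h
  have h2 := congrArg Complex.re h
  rw [Complex.ofReal_re, Complex.re_sum] at h2
  rw [h2]
  have h3 : (phs q : ℝ) = ∑ d ∈ q.divisors, ((ArithmeticFunction.moebius (q / d) : ℤ) : ℝ) *
      (Nat.totient d : ℝ) := by
    rw [← phs_moebius q hq]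
    exact Nat.sum_divisorsAntidiagonal' (fun a b =>
      ((ArithmeticFunction.moebius a : ℤ) : ℝ) * (Nat.totient b : ℝ))
  rw [h3, Finset.sum_mul, ← Finset.sum_add_distrib]
  refine Finset.sum_congr rfl fun d _ => ?_
  have h4 : ((ArithmeticFunction.moebius (q / d) : ℤ) : ℂ) * (Nat.totient d : ℂ) =
      ((((ArithmeticFunction.moebius (q / d) : ℤ) : ℝ) * (Nat.totient d : ℝ) : ℝ) : ℂ) := by
    push_cast; ring
  rw [h4, Complex.re_ofReal_mul, Complex.add_re, Complex.ofReal_re]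
  ring

lemma phs_le (q : ℕ) [NeZero q] : (phs q : ℝ) ≤ q := by
  have h := sum_phs q (NeZero.pos q)
  have h1 : phs q ≤ ∑ d ∈ q.divisors, phs d :=
    Finset.single_le_sum (f := fun d => phs d) (fun _ _ => Nat.zero_le _)
      (Nat.mem_divisors_self q (NeZero.ne q))
  have h2 : Nat.totient q ≤ q := Nat.totient_le q
  have : phs q ≤ q := by omega
  exact_mod_cast this

end AE6

open AE6 in
/-- AE6: lower bound for the first moment (uses AE5) -/
theorem first_moment : ∃ C : ℝ, 0 < C ∧ ∀ (P X Y N : ℕ) (T κ u : ℝ), 1 ≤ X → X ≤ Y →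
    1 ≤ κ → κ ≤ T → 1 ≤ T → T ≤ Real.exp (κ ^ 2) → 0 ≤ u →
    primFam X Y (fun _ _ => 1) * (∫ t : ℝ, ∑ n ∈ Finset.Icc 1 N, ‖cpr P T u t n‖ ^ 2) -
      C * (T * (Real.log ((Y : ℝ) / X) + 1) +
        (u + 1) ^ 3 * Real.exp u * (Real.log X + 1) / X) ≤
    primFam X Y (fun q χ =>
      ∫ t : ℝ, ‖∑ n ∈ Finset.Icc 1 N, cpr P T u t n * χ (n : ZMod q)‖ ^ 2) := by
  classical
  obtain ⟨C1, hC1, h1⟩ := cpr_sq
  obtain ⟨C2, hC2, h2⟩ := cyc_offdiag
  obtain ⟨C3, hC3, h3⟩ := cpr_cross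
  obtain ⟨K, hK, hKs⟩ := sum_logsq
  refine ⟨C1 * K + 4 * (C3 * C2), by positivity, ?_⟩
  intro P X Y N T κ u hX hXY hκ hκT hT hTκ hu
  have hT0 : 0 ≤ T := by linarith
  have hX0 : (0:ℝ) < X := by exact_mod_cast hX
  have hlogX : 0 ≤ Real.log X := Real.log_nonneg (by exact_mod_cast hX)
  have hlogXY : 0 ≤ Real.log ((Y : ℝ) / X) := by
    apply Real.log_nonneg
    rw [le_div_iff₀ hX0, one_mul]; exact_mod_cast hXY
  set I : ℕ → ℝ := fun n => ∫ t : ℝ, ‖cpr P T u t n‖ ^ 2 with hI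
  have hI0 : ∀ n, 0 ≤ I n := fun n => integral_nonneg fun t => sq_nonneg _
  have hIle : ∀ n, I n ≤ C1 * T * ((Real.log n) ^ 2 / n) := fun n =>
    (h1 P T κ u n hκ hκT hT hTκ).2
  have hIint : ∀ n, Integrable (fun t : ℝ => ‖cpr P T u t n‖ ^ 2) := fun n =>
    (h1 P T κ u n hκ hκT hT hTκ).1
  have hIp : ∀ n, ¬ n.Prime → I n = 0 := by
    intro n hn
    simp only [hI]
    have : ∀ t, cpr P T u t n = 0 := by
      intro t; unfold cpr; rw [if_neg (fun h => hn h.1)]
    simp [this]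
  have hsumI : ∫ t : ℝ, ∑ n ∈ Finset.Icc 1 N, ‖cpr P T u t n‖ ^ 2 = ∑ n ∈ Finset.Icc 1 N, I n :=
    integral_finsetSum _ fun n _ => hIint n
  set E : ℝ := (u + 1) ^ 3 * Real.exp u with hE
  have hE0 : 0 ≤ E := by positivity
  -- one modulus
  have hone : ∀ q, X < q → q ≤ Y →
      (phs q : ℝ) * ((∑ n ∈ Finset.Icc 1 N, I n) -
        ∑ n ∈ (Finset.Icc 1 N).filter (fun n => ¬ Nat.Coprime n q), I n) -
        C3 * C2 * E * (q.divisors.card : ℝ) ≤
      ∑ᶠ χ : {χ : DirichletCharacter ℂ q // χ.IsPrimitive},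
        ∫ t : ℝ, ‖∑ n ∈ Finset.Icc 1 N, cpr P T u t n * (χ : DirichletCharacter ℂ q) (n : ZMod q)‖ ^ 2 := by
    intro q hq1 hq2
    have : NeZero q := ⟨by omega⟩
    -- integrability
    have hbc : ∀ n, Continuous (fun t => bq P q T u t n) := by
      intro n; unfold bq; split_ifs
      · exact cpr_cont P T u n
      · exact continuous_const
    have hbi : ∀ n, Integrable (fun t => ‖bq P q T u t n‖ ^ 2) := by
      intro n; unfold bq; split_ifs
      · exact hIint n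
      · simp
    have hbI : ∀ n, ∫ t, ‖bq P q T u t n‖ ^ 2 = if Nat.Coprime n q then I n else 0 := by
      intro n; unfold bq; split_ifs
      · rfl
      · simp
    have hcr : ∀ d, ∀ n ∈ Finset.Icc 1 N, ∀ m ∈ Finset.Icc 1 N, Integrable (fun t : ℝ =>
        (if n ≠ m ∧ (n : ZMod d) = (m : ZMod d) then
          bq P q T u t n * (starRingEnd ℂ) (bq P q T u t m) else 0)) ∧
        ‖∫ t : ℝ, (if n ≠ m ∧ (n : ZMod d) = (m : ZMod d) then
          bq P q T u t n * (starRingEnd ℂ) (bq P q T u t m) else 0)‖ ≤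
        C3 * (if n ≠ m ∧ (n : ZMod d) = (m : ZMod d) then tt u n m else 0) := by
      intro d n hn m hm
      rw [Finset.mem_Icc] at hn hm
      by_cases h : n ≠ m ∧ (n : ZMod d) = (m : ZMod d)
      · simp only [if_pos h]
        obtain ⟨k1, k2⟩ := h3 P T u n m hT0 hn.1 hm.1 h.1
        unfold bq
        by_cases c1 : Nat.Coprime n q
        · by_cases c2 : Nat.Coprime m q
          · simp only [if_pos c1, if_pos c2]
            exact ⟨k1, k2⟩
          · simp only [if_neg c2, map_zero, mul_zero]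
            exact ⟨integrable_zero _ _ _, by simpa using mul_nonneg hC3.le (tt_nonneg u n m)⟩
        · simp only [if_neg c1, zero_mul]
          exact ⟨integrable_zero _ _ _, by simpa using mul_nonneg hC3.le (tt_nonneg u n m)⟩
      · simp only [if_neg h]
        exact ⟨integrable_zero _ _ _, by simp⟩
    have hODi : ∀ d, Integrable (fun t => OD P q N d T u t) := fun d =>
      integrable_finsetSum _ fun n hn => integrable_finsetSum _ fun m hm => (hcr d n hn m hm).1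
    have hODb : ∀ d, 1 ≤ d → ‖∫ t, OD P q N d T u t‖ ≤ C3 * (C2 * (u + 1) ^ 3 * Real.exp u / d) := by
      intro d hd
      unfold OD
      rw [integral_finsetSum _ (fun n hn => integrable_finsetSum _ fun m hm => (hcr d n hn m hm).1)]
      refine (norm_sum_le _ _).trans ?_
      refine le_trans ?_ (mul_le_mul_of_nonneg_left (h2 d N u hd hu) hC3.le)
      rw [Finset.mul_sum]
      refine Finset.sum_le_sum fun n hn => ?_
      rw [integral_finsetSum _ (fun m hm => (hcr d n hn m hm).1)]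
      refine (norm_sum_le _ _).trans ?_
      rw [Finset.mul_sum]
      exact Finset.sum_le_sum fun m hm => (hcr d n hn m hm).2
    -- exchange
    have hchi : ∀ χ : DirichletCharacter ℂ q, Integrable (fun t : ℝ =>
        ‖∑ n ∈ Finset.Icc 1 N, bq P q T u t n * χ (n : ZMod q)‖ ^ 2) := by
      intro χ
      have hmaj : Integrable (fun t : ℝ => (N : ℝ) * ∑ n ∈ Finset.Icc 1 N, ‖bq P q T u t n‖ ^ 2) :=
        (integrable_finsetSum _ fun n _ => hbi n).const_mul _
      refine hmaj.mono' ?_ (Eventually.of_forall fun t => ?_)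
      · exact (((continuous_finsetSum _ fun n _ => (hbc n).mul continuous_const).norm).pow
          2).aestronglyMeasurable
      · rw [Real.norm_of_nonneg (sq_nonneg _)]
        have k1 : ‖∑ n ∈ Finset.Icc 1 N, bq P q T u t n * χ (n : ZMod q)‖ ≤
            ∑ n ∈ Finset.Icc 1 N, ‖bq P q T u t n‖ := by
          refine (norm_sum_le _ _).trans (Finset.sum_le_sum fun n _ => ?_)
          rw [norm_mul]
          exact mul_le_of_le_one_right (norm_nonneg _) (χ.norm_le_one _)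
        have k2 := sq_sum_le_card_mul_sum_sq (s := Finset.Icc 1 N)
          (f := fun n => ‖bq P q T u t n‖)
        rw [Nat.card_Icc] at k2
        calc _ ≤ (∑ n ∈ Finset.Icc 1 N, ‖bq P q T u t n‖) ^ 2 :=
              pow_le_pow_left₀ (norm_nonneg _) k1 2
          _ ≤ _ := by simpa using k2
    have hPS : ∑ᶠ χ : {χ : DirichletCharacter ℂ q // χ.IsPrimitive},
        ∫ t : ℝ, ‖∑ n ∈ Finset.Icc 1 N, cpr P T u t n * (χ : DirichletCharacter ℂ q) (n : ZMod q)‖ ^ 2
        = ∫ t, Flat.PS N (bq P q T u t) q := by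
      unfold Flat.PS
      rw [finsum_eq_sum_of_fintype]
      simp only [finsum_eq_sum_of_fintype, sum_char]
      exact (integral_finsetSum Finset.univ
        (fun (χ : {χ : DirichletCharacter ℂ q // χ.IsPrimitive}) _ => hchi χ.1)).symm
    rw [hPS]
    have hfun : (fun t => Flat.PS N (bq P q T u t) q) = fun t =>
        (phs q : ℝ) * ∑ n ∈ Finset.Icc 1 N, ‖bq P q T u t n‖ ^ 2 +
      ∑ d ∈ q.divisors, ((ArithmeticFunction.moebius (q / d) : ℤ) : ℝ) * (Nat.totient d : ℝ) *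
        (OD P q N d T u t).re := funext fun t => PS_id P q N T u t
    rw [hfun]
    have i1 : Integrable (fun t => (phs q : ℝ) * ∑ n ∈ Finset.Icc 1 N, ‖bq P q T u t n‖ ^ 2) :=
      (integrable_finsetSum _ fun n _ => hbi n).const_mul _
    have i2 : ∀ d ∈ q.divisors, Integrable (fun t =>
        ((ArithmeticFunction.moebius (q / d) : ℤ) : ℝ) * (Nat.totient d : ℝ) *
        (OD P q N d T u t).re) := fun d _ => (hODi d).re.const_mul _
    rw [integral_add i1 (integrable_finsetSum _ i2), integral_const_mul,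
      integral_finsetSum _ (fun n _ => hbi n), integral_finsetSum _ i2]
    have e1 : ∑ n ∈ Finset.Icc 1 N, ∫ t, ‖bq P q T u t n‖ ^ 2 = (∑ n ∈ Finset.Icc 1 N, I n) -
        ∑ n ∈ (Finset.Icc 1 N).filter (fun n => ¬ Nat.Coprime n q), I n := by
      simp only [hbI]
      rw [← Finset.sum_filter, eq_sub_iff_add_eq]
      exact Finset.sum_filter_add_sum_filter_not _ _ _
    rw [e1]
    have e2 : ∀ d ∈ q.divisors, -(C3 * C2 * E) ≤
        ∫ t, ((ArithmeticFunction.moebius (q / d) : ℤ) : ℝ) * (Nat.totient d : ℝ) *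
        (OD P q N d T u t).re := by
      intro d hd
      have hd1 : 1 ≤ d := Nat.pos_of_mem_divisors hd
      have hd0 : (0:ℝ) < d := by exact_mod_cast hd1
      rw [integral_const_mul]
      have r1 : ∫ t, (OD P q N d T u t).re = (∫ t, OD P q N d T u t).re := integral_re (hODi d)
      rw [r1]
      have r2 : |((ArithmeticFunction.moebius (q / d) : ℤ) : ℝ) * (Nat.totient d : ℝ) *
          (∫ t, OD P q N d T u t).re| ≤ C3 * C2 * E := by
        rw [abs_mul, abs_mul]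
        have s1 : |((ArithmeticFunction.moebius (q / d) : ℤ) : ℝ)| ≤ 1 := by
          rw [← Int.cast_abs]
          exact_mod_cast ArithmeticFunction.abs_moebius_le_one
        have s2 : |(Nat.totient d : ℝ)| ≤ d := by
          rw [abs_of_nonneg (Nat.cast_nonneg _)]
          exact_mod_cast Nat.totient_le d
        have s3 : |(∫ t, OD P q N d T u t).re| ≤ C3 * (C2 * (u + 1) ^ 3 * Real.exp u / d) :=
          (Complex.abs_re_le_norm _).trans (hODb d hd1)
        calc _ ≤ 1 * d * (C3 * (C2 * (u + 1) ^ 3 * Real.exp u / d)) := by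
              gcongr
          _ = C3 * C2 * E := by rw [hE]; field_simp
      exact (abs_le.mp r2).1
    have e3 := Finset.sum_le_sum e2
    rw [Finset.sum_const, nsmul_eq_mul] at e3
    linarith
  -- sum over q
  have hfam : ∑ q ∈ Finset.Ioc X Y, (1 / (q : ℝ) ^ 2) * ((phs q : ℝ) * ((∑ n ∈ Finset.Icc 1 N, I n) -
        ∑ n ∈ (Finset.Icc 1 N).filter (fun n => ¬ Nat.Coprime n q), I n) -
        C3 * C2 * E * (q.divisors.card : ℝ)) ≤
      primFam X Y (fun q χ =>
        ∫ t : ℝ, ‖∑ n ∈ Finset.Icc 1 N, cpr P T u t n * χ (n : ZMod q)‖ ^ 2) := by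
    unfold primFam
    refine Finset.sum_le_sum fun q hq => ?_
    rw [Finset.mem_Ioc] at hq
    exact mul_le_mul_of_nonneg_left (hone q hq.1 hq.2) (by positivity)
  refine le_trans ?_ hfam
  have hs1 : ∑ q ∈ Finset.Ioc X Y, (1 / (q : ℝ) ^ 2) * ((phs q : ℝ) * ((∑ n ∈ Finset.Icc 1 N, I n) -
        ∑ n ∈ (Finset.Icc 1 N).filter (fun n => ¬ Nat.Coprime n q), I n) -
        C3 * C2 * E * (q.divisors.card : ℝ)) =
      (∑ q ∈ Finset.Ioc X Y, (phs q : ℝ) / (q : ℝ) ^ 2) * (∑ n ∈ Finset.Icc 1 N, I n) -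
      ∑ q ∈ Finset.Ioc X Y, ∑ n ∈ (Finset.Icc 1 N).filter (fun n => ¬ Nat.Coprime n q),
        (phs q : ℝ) / (q : ℝ) ^ 2 * I n -
      C3 * C2 * E * ∑ q ∈ Finset.Ioc X Y, (q.divisors.card : ℝ) / (q : ℝ) ^ 2 := by
    rw [Finset.sum_mul, Finset.mul_sum, ← Finset.sum_sub_distrib, ← Finset.sum_sub_distrib]
    refine Finset.sum_congr rfl fun q _ => ?_
    rw [← Finset.mul_sum]
    ring
  rw [hs1, ← primFam_one, hsumI]
  -- non-coprime terms
  have hnc : ∑ q ∈ Finset.Ioc X Y, ∑ n ∈ (Finset.Icc 1 N).filter (fun n => ¬ Nat.Coprime n q),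
        (phs q : ℝ) / (q : ℝ) ^ 2 * I n ≤ C1 * K * (T * (Real.log ((Y : ℝ) / X) + 1)) := by
    have a1 : ∑ q ∈ Finset.Ioc X Y, ∑ n ∈ (Finset.Icc 1 N).filter (fun n => ¬ Nat.Coprime n q),
        (phs q : ℝ) / (q : ℝ) ^ 2 * I n ≤ ∑ q ∈ Finset.Ioc X Y, ∑ n ∈ Finset.Icc 1 N,
          (if n ∣ q then 1 / (q : ℝ) * I n else 0) := by
      refine Finset.sum_le_sum fun q hq => ?_
      rw [Finset.mem_Ioc] at hq
      have : NeZero q := ⟨by omega⟩
      have hq0 : (0:ℝ) < q := by exact_mod_cast NeZero.pos q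
      rw [Finset.sum_filter]
      refine Finset.sum_le_sum fun n _ => ?_
      by_cases hn : n.Prime
      · by_cases hc : Nat.Coprime n q
        · rw [if_neg (not_not.mpr hc)]
          split_ifs
          · exact mul_nonneg (by positivity) (hI0 n)
          · exact le_rfl
        · rw [if_pos hc, if_pos ((Nat.Prime.dvd_iff_not_coprime hn).mpr hc)]
          apply mul_le_mul_of_nonneg_right _ (hI0 n)
          rw [div_le_div_iff₀ (by positivity) hq0]
          have := phs_le q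
          nlinarith
      · rw [hIp n hn]; simp
    refine a1.trans ?_
    rw [Finset.sum_comm]
    have a2 : ∀ n ∈ Finset.Icc 1 N, ∑ q ∈ Finset.Ioc X Y, (if n ∣ q then 1 / (q : ℝ) * I n else 0) ≤
        C1 * (T * (Real.log ((Y : ℝ) / X) + 1)) * ((Real.log n) ^ 2 / (n : ℝ) ^ 2) := by
      intro n hn
      have hn1 : 1 ≤ n := (Finset.mem_Icc.mp hn).1
      have hn0 : (0:ℝ) < n := by exact_mod_cast hn1
      rw [← Finset.sum_filter, ← Finset.sum_mul]
      have b1 := sum_mult_inv X Y n hX hXY hn1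
      calc _ ≤ (1 / (n : ℝ) * (Real.log ((Y : ℝ) / X) + 1)) * (C1 * T * ((Real.log n) ^ 2 / n)) :=
            mul_le_mul b1 (hIle n) (hI0 n) (by positivity)
        _ = _ := by field_simp
    refine (Finset.sum_le_sum a2).trans ?_
    rw [← Finset.mul_sum]
    calc _ ≤ C1 * (T * (Real.log ((Y : ℝ) / X) + 1)) * K :=
          mul_le_mul_of_nonneg_left (hKs N) (by positivity)
      _ = _ := by ring
  have htau := mul_le_mul_of_nonneg_left (sum_tau X Y hX)
    (show 0 ≤ C3 * C2 * E by positivity)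
  have hfin : C1 * K * (T * (Real.log ((Y : ℝ) / X) + 1)) +
      C3 * C2 * E * (4 * (Real.log X + 1) / X) ≤
      (C1 * K + 4 * (C3 * C2)) * (T * (Real.log ((Y : ℝ) / X) + 1) +
        (u + 1) ^ 3 * Real.exp u * (Real.log X + 1) / X) := by
    rw [← hE]
    have f1 : 0 ≤ T * (Real.log ((Y : ℝ) / X) + 1) := by positivity
    have f2 : 0 ≤ E * (Real.log X + 1) / X := by positivity
    have f3 : C3 * C2 * E * (4 * (Real.log X + 1) / X) = 4 * (C3 * C2) * (E * (Real.log X + 1) / X) := by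
      ring
    rw [f3]
    have f4 : 0 ≤ C1 * K := by positivity
    have f5 : 0 ≤ 4 * (C3 * C2) := by positivity
    nlinarith [mul_nonneg f4 f2, mul_nonneg f5 f1]
  linarith

end H385
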