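import Pool.Agent.H385R4.AEDefs
import Pool.Agent.H385R4.AE4

/-!
AE7: from the full prime sum to the sum over primes, for one character.
-/

open Complex Filter Topology Set MeasureTheory

namespace H385

namespace AE7Aux

open FamLS AE4Aux

/-- weights of the proper prime powers -/
noncomputable def npw (n : ℕ) : ℝ :=
  if n.Prime then 0 else ArithmeticFunction.vonMangoldt n / Real.sqrt n

theorem npw_nonneg (n : ℕ) : 0 ≤ npw n := by
  unfold npw
  split_ifs
  · exact le_rfl
  · exact div_nonneg ArithmeticFunction.vonMangoldt_nonneg (Real.sqrt_nonneg _)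

/-- proper prime powers in a block -/
theorem block_np : ∃ C : ℝ, 0 < C ∧ ∀ (k N : ℕ),
    ∑ n ∈ (Finset.range N).filter (fun n : ℕ => ⌊Real.log n⌋₊ = k), npw n ≤ C := by
  obtain ⟨C0, hC0⟩ := Chebyshev.psi_sub_theta_le_mul_sqrt
  refine ⟨|C0| * Real.exp (1 / 2) + 1, by positivity, ?_⟩
  intro k N
  have h1 : ∑ n ∈ (Finset.range N).filter (fun n : ℕ => ⌊Real.log n⌋₊ = k),
      (if n.Prime then 0 else ArithmeticFunction.vonMangoldt n) ≤
      |C0| * Real.exp ((k + 1) / 2) := by
    have h2 := hC0 (Real.exp (k + 1))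
    rw [Chebyshev.psi_sub_theta_eq_sum_not_prime] at h2
    have h3 : C0 * Real.sqrt (Real.exp (k + 1)) ≤ |C0| * Real.exp ((k + 1) / 2) := by
      have : Real.sqrt (Real.exp ((k : ℝ) + 1)) = Real.exp ((k + 1) / 2) := by
        rw [Real.exp_half]
      rw [this]
      exact mul_le_mul_of_nonneg_right (le_abs_self _) (Real.exp_pos _).le
    refine le_trans ?_ (h2.trans h3)
    rw [Finset.sum_filter (s := Finset.Ioc 0 ⌊Real.exp ((k : ℝ) + 1)⌋₊),
      ← Finset.sum_filter_ne_zero]
    have e : ∀ n : ℕ, (if ¬ n.Prime then ArithmeticFunction.vonMangoldt n else 0) =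
        (if n.Prime then 0 else ArithmeticFunction.vonMangoldt n) := by
      intro n; split_ifs <;> simp_all
    simp only [e]
    apply Finset.sum_le_sum_of_subset_of_nonneg
    · intro n hn
      obtain ⟨hn, hne⟩ := Finset.mem_filter.1 hn
      have hfl := (Finset.mem_filter.1 hn).2
      have hn0 : 0 < n := by
        rcases Nat.eq_zero_or_pos n with rfl | h
        · simp at hne
        · exact h
      rw [Finset.mem_Ioc]
      refine ⟨hn0, ?_⟩
      apply Nat.le_floor
      rw [← Real.log_le_iff_le_exp (by exact_mod_cast hn0)]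
      rw [← hfl]
      exact (Nat.lt_floor_add_one _).le
    · intro n _ _
      split_ifs
      · exact le_rfl
      · exact ArithmeticFunction.vonMangoldt_nonneg
  calc ∑ n ∈ (Finset.range N).filter (fun n : ℕ => ⌊Real.log n⌋₊ = k), npw n
      ≤ ∑ n ∈ (Finset.range N).filter (fun n : ℕ => ⌊Real.log n⌋₊ = k),
        (1 / Real.exp (k / 2)) * (if n.Prime then 0 else ArithmeticFunction.vonMangoldt n) := by
        apply Finset.sum_le_sum
        intro n hn
        have hfl := (Finset.mem_filter.1 hn).2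
        unfold npw
        split_ifs with hp
        · simp
        rcases Nat.eq_zero_or_pos n with rfl | hn0
        · simp
        have hl := block_lower hn0 hfl
        have h3 : 0 ≤ ArithmeticFunction.vonMangoldt n := ArithmeticFunction.vonMangoldt_nonneg
        have h4 : Real.exp (k / 2) ≤ Real.sqrt n := by
          apply Real.le_sqrt_of_sq_le
          rw [← Real.exp_nat_mul]
          push_cast
          rw [mul_div_cancel₀ _ (by norm_num : (2 : ℝ) ≠ 0)]
          exact hl
        rw [one_div_mul_eq_div]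
        have he := Real.exp_pos ((k : ℝ) / 2)
        gcongr
    _ = (1 / Real.exp (k / 2)) * ∑ n ∈ (Finset.range N).filter (fun n : ℕ => ⌊Real.log n⌋₊ = k),
        (if n.Prime then 0 else ArithmeticFunction.vonMangoldt n) := by rw [Finset.mul_sum]
    _ ≤ (1 / Real.exp (k / 2)) * (|C0| * Real.exp ((k + 1) / 2)) :=
        mul_le_mul_of_nonneg_left h1 (by positivity)
    _ = |C0| * Real.exp (1 / 2) := by
        have : Real.exp (((k : ℝ) + 1) / 2) = Real.exp (k / 2) * Real.exp (1 / 2) := by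
          rw [← Real.exp_add]; congr 1; ring
        rw [this]
        have he := Real.exp_pos ((k : ℝ) / 2)
        field_simp
    _ ≤ _ := by linarith

/-- the contribution of the proper prime powers is bounded -/
theorem np_bound : ∃ C : ℝ, 0 < C ∧ ∀ u : ℝ,
    Summable (fun n : ℕ => npw n * Real.exp (-(u - Real.log n) ^ 2 / 4)) ∧
    ∑' n : ℕ, npw n * Real.exp (-(u - Real.log n) ^ 2 / 4) ≤ C := by
  obtain ⟨C0, hC0, h0⟩ := block_np
  set M : ℝ := ∫ v : ℝ, Real.exp (-(1 / 4 / 2) * v ^ 2) with hM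
  have hM0 : 0 ≤ M := integral_nonneg fun v => (Real.exp_pos _).le
  refine ⟨Real.exp (1 / 4) * (C0 * M) + 1, by positivity, fun u => ?_⟩
  have hi : Integrable (fun s : ℝ => C0 * Real.exp (-(1 / 4 / 2) * (u - s) ^ 2)) :=
    ((ntw_int0 (1 / 4 / 2) (by norm_num)).comp_sub_left u).const_mul _
  obtain ⟨hs, hb⟩ := block_gauss npw npw_nonneg (fun _ => C0) continuous_const
    (fun _ => hC0.le) (fun k N s _ _ => h0 k N) (1 / 4) u (by norm_num) hi
  have e1 : ∀ n : ℕ, -(1 / 4) * (u - Real.log n) ^ 2 = -(u - Real.log n) ^ 2 / 4 := fun n => by ring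
  simp only [e1] at hs hb
  refine ⟨hs, hb.trans ?_⟩
  have h5 : ∫ s : ℝ, C0 * Real.exp (-(1 / 4 / 2) * (u - s) ^ 2) = C0 * M := by
    rw [integral_const_mul,
      integral_sub_left_eq_self (fun v : ℝ => Real.exp (-(1 / 4 / 2) * v ^ 2))]
  rw [h5]
  linarith

/-- the terms left out -/
noncomputable def LL (P : ℕ) (u : ℝ) : ℝ :=
  ∑' n : ℕ, (if ¬ (n.Prime ∧ Nat.Coprime n P) then
    ArithmeticFunction.vonMangoldt n / Real.sqrt n * Real.exp (-(u - Real.log n) ^ 2 / 4) else 0)

theorem LL_nonneg (P : ℕ) (u : ℝ) : 0 ≤ LL P u := by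
  refine tsum_nonneg (fun n => ?_)
  split_ifs
  · exact le_rfl
  · exact mul_nonneg (div_nonneg ArithmeticFunction.vonMangoldt_nonneg (Real.sqrt_nonneg _))
      (Real.exp_pos _).le

theorem LL_bound (P : ℕ) (hP : 1 ≤ P) : ∃ C : ℝ, 0 < C ∧ ∀ u : ℝ, 0 ≤ u → LL P u ≤ C := by
  obtain ⟨C1, hC1, h1⟩ := np_bound
  obtain ⟨C2, hC2, h2⟩ := noncop_bound 1 one_pos
  have hl : 0 ≤ Real.log P := Real.log_nonneg (by exact_mod_cast hP)
  refine ⟨C1 + (1 * Real.log P + C2), by positivity, fun u hu => ?_⟩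
  obtain ⟨a1, a2⟩ := h1 u
  obtain ⟨b1, b2⟩ := h2 P u hP hu
  have hg : ∀ n : ℕ, 0 ≤ ArithmeticFunction.vonMangoldt n / Real.sqrt n *
      Real.exp (-(u - Real.log n) ^ 2 / 4) := fun n =>
    mul_nonneg (div_nonneg ArithmeticFunction.vonMangoldt_nonneg (Real.sqrt_nonneg _))
      (Real.exp_pos _).le
  have hle : ∀ n : ℕ, (if ¬ (n.Prime ∧ Nat.Coprime n P) then
      ArithmeticFunction.vonMangoldt n / Real.sqrt n * Real.exp (-(u - Real.log n) ^ 2 / 4)
        else 0) ≤
      npw n * Real.exp (-(u - Real.log n) ^ 2 / 4) +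
      (if Nat.Coprime n P then 0 else
        ArithmeticFunction.vonMangoldt n / Real.sqrt n *
          Real.exp (-(u - Real.log n) ^ 2 / 4)) := by
    intro n
    have := hg n
    unfold npw
    by_cases hp : n.Prime
    · by_cases hc : Nat.Coprime n P
      · rw [if_neg (not_not.mpr ⟨hp, hc⟩), if_pos hp, if_pos hc]
        simp
      · rw [if_pos (fun h => hc h.2), if_pos hp, if_neg hc]
        linarith
    · rw [if_pos (fun h => hp h.1), if_neg hp]
      by_cases hc : Nat.Coprime n P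
      · rw [if_pos hc]
        linarith
      · rw [if_neg hc]
        linarith
  have hs : Summable (fun n : ℕ => (if ¬ (n.Prime ∧ Nat.Coprime n P) then
      ArithmeticFunction.vonMangoldt n / Real.sqrt n * Real.exp (-(u - Real.log n) ^ 2 / 4)
        else 0)) := by
    refine Summable.of_nonneg_of_le (fun n => ?_) hle (a1.add b1)
    split_ifs
    · exact le_rfl
    · exact hg n
  calc LL P u ≤ ∑' n : ℕ, (npw n * Real.exp (-(u - Real.log n) ^ 2 / 4) +
      (if Nat.Coprime n P then 0 else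
        ArithmeticFunction.vonMangoldt n / Real.sqrt n *
          Real.exp (-(u - Real.log n) ^ 2 / 4))) := hs.tsum_le_tsum hle (a1.add b1)
    _ = _ := a1.tsum_add b1
    _ ≤ _ := add_le_add a2 b2

/-- primitive characters -/
theorem aa_prim (q : ℕ) [NeZero q] (χ : DirichletCharacter ℂ q) (hχ : χ.IsPrimitive) (n : ℕ) :
    aa q χ n = χ (n : ZMod q) * (ArithmeticFunction.vonMangoldt n : ℂ) := by
  unfold aa
  by_cases hc : Nat.Coprime n q
  · rw [prim_apply q χ n hc]
  · have e1 : χ (n : ZMod q) = 0 := by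
      apply MulChar.map_nonunit
      rw [ZMod.isUnit_iff_coprime]
      exact hc
    have e2 : χ.primitiveCharacter (n : ZMod χ.conductor) = 0 := by
      apply MulChar.map_nonunit
      rw [ZMod.isUnit_iff_coprime]
      have : χ.conductor = q := hχ
      rw [this]
      exact hc
    rw [e1, e2]

theorem mj_p_summable (b : ℕ → ℂ) (hs : Summable (mj b)) (p : ℕ → Prop) [DecidablePred p] :
    Summable (fun n => if p n then mj b n else 0) := by
  refine Summable.of_nonneg_of_le (fun n => ?_) (fun n => ?_) hs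
  · split_ifs
    · exact mj_nonneg b n
    · exact le_rfl
  · split_ifs
    · exact le_rfl
    · exact mj_nonneg b n

/-- pointwise comparison -/
theorem claimP (P : ℕ) (T u t : ℝ) (hT : 0 ≤ T) (q : ℕ) [NeZero q]
    (χ : DirichletCharacter ℂ q) (hχ : χ.IsPrimitive) (N : ℕ) :
    ‖∑' n : ℕ, aa q χ n * bn T u t n -
        ∑ n ∈ Finset.Icc 1 N, cpr P T u t n * χ (n : ZMod q)‖
      ≤ ∑' n, (if ¬ (n.Prime ∧ Nat.Coprime n P) then mj (bn T u t) n else 0) +
        ∑' n, TT1 (bn T u t) N n := by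
  classical
  have hs := bn_summable T u t hT
  set b := bn T u t with hb
  have h1 : Summable (fun n => aa q χ n * b n) :=
    Summable.of_norm_bounded hs (fun n => aa_norm b q χ n)
  have h2 : ∑ n ∈ Finset.Icc 1 N, cpr P T u t n * χ (n : ZMod q)
      = ∑' n, (if n ∈ Finset.Icc 1 N then cpr P T u t n * χ (n : ZMod q) else 0) := by
    rw [tsum_eq_sum (s := Finset.Icc 1 N)]
    · apply Finset.sum_congr rfl
      intro n hn
      rw [if_pos hn]
    · intro n hn
      rw [if_neg hn]
  have h3 : Summable (fun n => (if n ∈ Finset.Icc 1 N then cpr P T u t n * χ (n : ZMod q)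
      else 0)) := by
    apply summable_of_ne_finset_zero (s := Finset.Icc 1 N)
    intro n hn
    rw [if_neg hn]
  have h4 := mj_p_summable b hs (fun n => ¬ (n.Prime ∧ Nat.Coprime n P))
  have h4n : ∀ n : ℕ, 0 ≤ (if ¬ (n.Prime ∧ Nat.Coprime n P) then mj b n else 0) := by
    intro n
    split_ifs
    · exact le_rfl
    · exact mj_nonneg b n
  rw [h2, ← h1.tsum_sub h3, ← h4.tsum_add (TT1_summable b hs N)]
  apply tsum_of_norm_bounded (h4.add (TT1_summable b hs N)).hasSum
  intro n
  by_cases hn : n ∈ Finset.Icc 1 N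
  · rw [if_pos hn]
    by_cases hc : n.Prime ∧ Nat.Coprime n P
    · have : aa q χ n * b n - cpr P T u t n * χ (n : ZMod q) = 0 := by
        rw [aa_prim q χ hχ n]
        unfold cpr
        rw [if_pos hc, ← hb]
        ring
      rw [this, norm_zero]
      exact add_nonneg (h4n n) (TT1_nonneg b N n)
    · have : cpr P T u t n = 0 := by unfold cpr; rw [if_neg hc]
      rw [this, zero_mul, sub_zero, if_pos hc]
      have := aa_norm b q χ n
      have := TT1_nonneg b N n
      linarith
  · rw [if_neg hn, sub_zero]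
    by_cases h0 : n = 0
    · have : aa q χ n * b n = 0 := by
        unfold aa
        rw [h0]
        simp
      rw [this, norm_zero]
      exact add_nonneg (h4n n) (TT1_nonneg b N n)
    · have h5 : TT1 b N n = mj b n := by
        unfold TT1
        rw [if_pos]
        rw [Finset.mem_Icc] at hn
        omega
      rw [h5]
      have := aa_norm b q χ n
      have := h4n n
      linarith

theorem cpr_cont (P : ℕ) (T u : ℝ) (n : ℕ) : Continuous (fun t => cpr P T u t n) := by
  unfold cpr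
  split_ifs
  · unfold bn
    have h : Continuous (fun t : ℝ => bt T u t (Real.log n)) :=
      (bt_cont T (Real.log n)).comp (continuous_const.prodMk continuous_id)
    exact continuous_const.mul (continuous_const.mul h)
  · exact continuous_const

end AE7Aux

open AE7Aux AE4Aux FamLS in
/-- AE7: from the full prime sum to the sum over primes, for one character -/
theorem aa_point (P : ℕ) (hP : 1 ≤ P) : ∃ C : ℝ, 0 < C ∧ ∀ (q : ℕ) [NeZero q]
    (χ : DirichletCharacter ℂ q), χ.IsPrimitive → ∀ (N : ℕ) (T u δ : ℝ), 0 < δ → 1 ≤ T → 0 ≤ u →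
    Tl N u ≤ 1 →
    ∫ t : ℝ, ‖∑' n : ℕ, aa q χ n * bn T u t n‖ ^ 2 ≤
      (1 + δ) * (∫ t : ℝ, ‖∑ n ∈ Finset.Icc 1 N, cpr P T u t n * χ (n : ZMod q)‖ ^ 2) +
      (1 + 1 / δ) * (C * T) := by
  classical
  obtain ⟨C1, hC1, h1⟩ := LL_bound P hP
  obtain ⟨C2, hC2, h2⟩ := wt_sq_int
  refine ⟨(1 + C2) * (C1 + 1) ^ 2, by positivity, ?_⟩
  intro q _ χ hχ N T u δ hδ hT hu hN
  have hT0 : 0 ≤ T := by linarith
  obtain ⟨w1, w2⟩ := h2 T hT0
  have hL0 := LL_nonneg P u
  have hL := h1 u hu
  -- pointwise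
  have hpt : ∀ t : ℝ, ‖∑' n : ℕ, aa q χ n * bn T u t n‖ ^ 2 ≤
      (1 + δ) * ‖∑ n ∈ Finset.Icc 1 N, cpr P T u t n * χ (n : ZMod q)‖ ^ 2 +
      (1 + 1 / δ) * ((wt T t) ^ 2 * (C1 + 1) ^ 2) := by
    intro t
    have hw := wt_nonneg T t hT0
    have g1 := claimP P T u t hT0 q χ hχ N
    set S := ∑ n ∈ Finset.Icc 1 N, cpr P T u t n * χ (n : ZMod q) with hS
    set R := ∑' n : ℕ, aa q χ n * bn T u t n with hR
    have g2 : R = S + (R - S) := by ring
    have g3 : ‖R - S‖ ≤ wt T t * (C1 + 1) := by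
      refine g1.trans ?_
      have a1 : ∑' n, (if ¬ (n.Prime ∧ Nat.Coprime n P) then mj (bn T u t) n else 0) ≤
          wt T t * LL P u :=
        b_tsum_le T u t hT0 (fun n => ¬ (n.Prime ∧ Nat.Coprime n P))
      have a2 := TT1_bn T u t hT0 N
      have a3 : wt T t * Tl N u ≤ wt T t * 1 := mul_le_mul_of_nonneg_left hN hw
      have a4 : wt T t * LL P u ≤ wt T t * C1 := mul_le_mul_of_nonneg_left hL hw
      calc _ ≤ wt T t * C1 + wt T t * 1 := by linarith
        _ = _ := by ring
    have g4 : ‖R - S‖ ^ 2 ≤ (wt T t) ^ 2 * (C1 + 1) ^ 2 := by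
      rw [← mul_pow]
      exact pow_le_pow_left₀ (norm_nonneg _) g3 2
    rw [g2]
    refine (sq_add_le S (R - S) δ hδ).trans ?_
    have g5 : 0 ≤ 1 + 1 / δ := by positivity
    have g6 := mul_le_mul_of_nonneg_left g4 g5
    linarith
  -- integrability
  have hcS : Continuous (fun t : ℝ => ‖∑ n ∈ Finset.Icc 1 N, cpr P T u t n * χ (n : ZMod q)‖ ^ 2) :=
    ((continuous_finsetSum _ (fun n _ => (cpr_cont P T u n).mul continuous_const)).norm).pow 2
  have hiS : Integrable (fun t : ℝ =>
      ‖∑ n ∈ Finset.Icc 1 N, cpr P T u t n * χ (n : ZMod q)‖ ^ 2) := by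
    refine Integrable.mono' (w1.mul_const ((∑ n ∈ Finset.Icc 1 N, gg u n) ^ 2))
      hcS.aestronglyMeasurable (Eventually.of_forall fun t => ?_)
    have hw := wt_nonneg T t hT0
    rw [Real.norm_of_nonneg (by positivity), ← mul_pow]
    apply pow_le_pow_left₀ (norm_nonneg _)
    rw [Finset.mul_sum]
    refine (norm_sum_le _ _).trans (Finset.sum_le_sum fun n _ => ?_)
    rw [norm_mul]
    calc ‖cpr P T u t n‖ * ‖χ (n : ZMod q)‖ ≤ (wt T t * gg u n) * 1 :=
          mul_le_mul (cpr_norm P T u t hT0 n) (DirichletCharacter.norm_le_one _ _) (norm_nonneg _)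
            (mul_nonneg hw (gg_nonneg u n))
      _ = _ := mul_one _
  calc ∫ t : ℝ, ‖∑' n : ℕ, aa q χ n * bn T u t n‖ ^ 2
      ≤ ∫ t : ℝ, ((1 + δ) * ‖∑ n ∈ Finset.Icc 1 N, cpr P T u t n * χ (n : ZMod q)‖ ^ 2 +
      (1 + 1 / δ) * ((wt T t) ^ 2 * (C1 + 1) ^ 2)) := by
        refine integral_mono_of_nonneg ?_ ?_ ?_
        · exact Filter.Eventually.of_forall (fun t => by positivity)
        · exact (hiS.const_mul _).add ((w1.mul_const _).const_mul _)
        · exact Filter.Eventually.of_forall hpt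
    _ = (1 + δ) * (∫ t : ℝ, ‖∑ n ∈ Finset.Icc 1 N, cpr P T u t n * χ (n : ZMod q)‖ ^ 2) +
      (1 + 1 / δ) * ((∫ t : ℝ, (wt T t) ^ 2) * (C1 + 1) ^ 2) := by
        rw [integral_add (hiS.const_mul _) ((w1.mul_const _).const_mul _),
          integral_const_mul, integral_const_mul, integral_mul_const]
    _ ≤ _ := by
        have e0 : T + C2 ≤ (1 + C2) * T := by nlinarith
        have e1 : (∫ t : ℝ, (wt T t) ^ 2) * (C1 + 1) ^ 2 ≤ (1 + C2) * (C1 + 1) ^ 2 * T := by
          calc _ ≤ ((1 + C2) * T) * (C1 + 1) ^ 2 :=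
                mul_le_mul_of_nonneg_right (w2.trans e0) (by positivity)
            _ = _ := by ring
        have e2 : 0 ≤ 1 + 1 / δ := by positivity
        have e3 := mul_le_mul_of_nonneg_left e1 e2
        linarith

end H385
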