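import Pool.Agent.H385R3.Cyc6

/-!
TEAM Q, project AE: estimates for the majorant of the mean square.
-/

open Complex Filter Topology Set MeasureTheory

set_option maxHeartbeats 4000000

namespace H385

/-- the majorant -/
noncomputable def YE (δ a b T u : ℝ) : ℝ :=
  (1 + δ) * (T / (2 * Real.pi)) * S1 u + T * (a * (u + 1) + b)

theorem YE_cont (δ a b T : ℝ) : Continuous (YE δ a b T) := by
  unfold YE
  have h1 := S1_cont
  fun_prop

/-- pointwise bound of the majorant -/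
theorem YE_point : ∃ C : ℝ, 0 < C ∧ ∀ (δ a b T u : ℝ), 0 ≤ δ → δ ≤ 1 → 0 ≤ a → a ≤ 1 → 0 ≤ b →
    0 ≤ T → 0 ≤ u → YE δ a b T u ≤ T * (C * (u + 1) + b) := by
  obtain ⟨C6, hC6, h6⟩ := S1_le
  refine ⟨C6 + 1, by positivity, ?_⟩
  intro δ a b T u hδ hδ1 ha ha1 hb hT hu
  obtain ⟨s0, s1⟩ := h6 u hu
  unfold YE
  have h3 : T / (2 * Real.pi) ≤ T / 2 := by
    apply div_le_div_of_nonneg_left hT (by norm_num)
    linarith [Real.pi_gt_three]
  have h4 : (1 + δ) * (T / (2 * Real.pi)) * S1 u ≤ 2 * (T / 2) * (C6 * (u + 1)) := by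
    have : 0 ≤ T / (2 * Real.pi) := by positivity
    gcongr
    linarith
  have h5 : T * (a * (u + 1) + b) ≤ T * (1 * (u + 1) + b) := by gcongr
  calc _ ≤ 2 * (T / 2) * (C6 * (u + 1)) + T * (1 * (u + 1) + b) := add_le_add h4 h5
    _ = _ := by ring

/-- integral of the majorant -/
theorem YE_integral (γ β ε1 : ℝ) (h0 : 0 < γ) (hπ : γ < Real.pi) (hβ : 0 < β)
    (hβ1 : β < 1) (hε1 : 0 < ε1) :
    ∃ δ a : ℝ, 0 < δ ∧ δ ≤ 1 ∧ 0 < a ∧ a ≤ 1 ∧ ∀ b : ℝ, 0 ≤ b → ∃ L0 : ℝ, 1 ≤ L0 ∧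
      ∀ (T ℒ : ℝ), 0 ≤ T → L0 ≤ ℒ →
      (2 / (Real.sqrt Real.pi * (β * ℒ))) *
        (∫ u in (0 : ℝ)..(β * ℒ), Rw γ (u / (β * ℒ)) * YE δ a b T u) ≤
      T / (2 * Real.pi) * ℒ * (2 * β * (∫ α in (0 : ℝ)..1, α * Rw γ α) + ε1) := by
  set J : ℝ := ∫ α in (0 : ℝ)..1, α * Rw γ α with hJ
  have hJ0 : 0 ≤ J := I1_nonneg γ h0 hπ
  have hR0 : 0 ≤ Rw γ 0 := Rw_nonneg γ h0 hπ 0
  obtain ⟨C1, hC1, h1⟩ := lam_sq_smooth_w γ h0 hπ
  set R0 : ℝ := Rw γ 0 with hR0d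
  obtain ⟨δ, hδ, hδ1, hδ2⟩ : ∃ δ : ℝ, 0 < δ ∧ δ ≤ 1 ∧ 2 * β * J * δ ≤ ε1 / 4 := by
    refine ⟨min 1 (ε1 / 4 / (2 * β * J + 1)), lt_min one_pos (by positivity), min_le_left _ _, ?_⟩
    calc 2 * β * J * min 1 (ε1 / 4 / (2 * β * J + 1)) ≤
        (2 * β * J + 1) * (ε1 / 4 / (2 * β * J + 1)) := by
          gcongr
          · linarith
          · exact min_le_right _ _
      _ = ε1 / 4 := by field_simp
  obtain ⟨a, ha, ha1, ha2⟩ : ∃ a : ℝ, 0 < a ∧ a ≤ 1 ∧ R0 * a ≤ ε1 / 64 := by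
    refine ⟨min 1 (ε1 / 64 / (R0 + 1)), lt_min one_pos (by positivity), min_le_left _ _, ?_⟩
    calc R0 * min 1 (ε1 / 64 / (R0 + 1)) ≤ (R0 + 1) * (ε1 / 64 / (R0 + 1)) := by
          gcongr
          · linarith
          · exact min_le_right _ _
      _ = ε1 / 64 := by field_simp
  refine ⟨δ, a, hδ, hδ1, ha, ha1, fun b hb => ?_⟩
  set K : ℝ := C1 + R0 * (4 * a + 2 * b) with hK
  have hK0 : 0 ≤ K := by positivity
  have hβi : 0 < 1 / β := by positivity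
  have hKε : 0 ≤ 32 * K / ε1 := by positivity
  refine ⟨1 / β + 32 * K / ε1 + 1, by linarith, ?_⟩
  intro T ℒ hT hℒ
  have hℒ1 : 1 ≤ ℒ := by linarith
  have hℒ0 : 0 ≤ ℒ := by linarith
  have hΛ1 : 1 ≤ β * ℒ := by
    have : 1 / β ≤ ℒ := by linarith
    rw [div_le_iff₀ hβ] at this
    linarith
  set Λ := β * ℒ with hΛ
  have hΛ0 : 0 < Λ := by linarith
  have hRc := Rw_cont γ h0 hπ
  have hS := S1_cont
  have hpi := Real.pi_pos
  have hpt : ∀ u ∈ Set.Icc 0 Λ, Rw γ (u / Λ) * YE δ a b T u ≤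
      (1 + δ) * (T / (2 * Real.pi)) * (Rw γ (u / Λ) * S1 u) + R0 * (T * (a * (u + 1) + b)) := by
    intro u hu
    obtain ⟨hu0, hu2⟩ := hu
    have hRle : Rw γ (u / Λ) ≤ R0 := Rw_le γ h0 hπ _ (div_nonneg hu0 hΛ0.le)
    unfold YE
    have hn : 0 ≤ T * (a * (u + 1) + b) := by positivity
    have := mul_le_mul_of_nonneg_right hRle hn
    calc _ = (1 + δ) * (T / (2 * Real.pi)) * (Rw γ (u / Λ) * S1 u) +
          Rw γ (u / Λ) * (T * (a * (u + 1) + b)) := by ring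
      _ ≤ _ := by linarith
  have hRS : Continuous (fun u : ℝ => Rw γ (u / Λ) * S1 u) :=
    (hRc.comp (continuous_id.div_const Λ)).mul hS
  have hEc : Continuous (fun u : ℝ => T * (a * (u + 1) + b)) := by fun_prop
  have hI1 : ∫ u in (0 : ℝ)..Λ, Rw γ (u / Λ) * YE δ a b T u ≤
      ∫ u in (0 : ℝ)..Λ, ((1 + δ) * (T / (2 * Real.pi)) * (Rw γ (u / Λ) * S1 u) +
        R0 * (T * (a * (u + 1) + b))) := by
    refine intervalIntegral.integral_mono_on hΛ0.le ?_ ?_ hpt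
    · exact ((hRc.comp (continuous_id.div_const Λ)).mul (YE_cont _ _ _ _)).intervalIntegrable _ _
    · exact ((hRS.const_mul _).add (hEc.const_mul _)).intervalIntegrable _ _
  have hI2 : ∫ u in (0 : ℝ)..Λ, ((1 + δ) * (T / (2 * Real.pi)) * (Rw γ (u / Λ) * S1 u) +
        R0 * (T * (a * (u + 1) + b))) =
      (1 + δ) * (T / (2 * Real.pi)) * (∫ u in (0 : ℝ)..Λ, Rw γ (u / Λ) * S1 u) +
      R0 * ∫ u in (0 : ℝ)..Λ, T * (a * (u + 1) + b) := by
    rw [intervalIntegral.integral_add ((hRS.const_mul _).intervalIntegrable _ _)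
      ((hEc.const_mul _).intervalIntegrable _ _), intervalIntegral.integral_const_mul,
      intervalIntegral.integral_const_mul]
  have hI3 : ∫ u in (0 : ℝ)..Λ, T * (a * (u + 1) + b) = T * (a * (Λ ^ 2 / 2 + Λ) + b * Λ) := by
    have ii : IntervalIntegrable (fun u : ℝ => u) volume 0 Λ := continuous_id.intervalIntegrable _ _
    have j3 : IntervalIntegrable (fun u : ℝ => a * (u + 1)) volume 0 Λ := by
      apply Continuous.intervalIntegrable; fun_prop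
    rw [intervalIntegral.integral_const_mul, intervalIntegral.integral_add j3
        (continuous_const.intervalIntegrable _ _), intervalIntegral.integral_const_mul,
        intervalIntegral.integral_add ii (continuous_const.intervalIntegrable _ _)]
    simp only [integral_id, intervalIntegral.integral_const, smul_eq_mul]
    ring
  have hS3 := h1 Λ hΛ1
  have hsp : 1 ≤ Real.sqrt Real.pi := by
    rw [Real.one_le_sqrt]; linarith [Real.pi_gt_three]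
  have hsp0 : 0 < Real.sqrt Real.pi := by linarith
  set P : ℝ := 2 / (Real.sqrt Real.pi * Λ) with hP
  have hP0 : 0 ≤ P := by positivity
  have hPΛ : P * Λ ≤ 2 := by
    rw [hP]
    have : 2 / (Real.sqrt Real.pi * Λ) * Λ = 2 / Real.sqrt Real.pi := by field_simp
    rw [this, div_le_iff₀ hsp0]; linarith
  have m1 : P * ((1 + δ) * (T / (2 * Real.pi)) * (∫ u in (0 : ℝ)..Λ, Rw γ (u / Λ) * S1 u)) ≤
      T / (2 * Real.pi) * ℒ * (2 * β * J * (1 + δ)) + T * C1 := by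
    calc _ ≤ P * ((1 + δ) * (T / (2 * Real.pi)) * (Real.sqrt Real.pi * Λ ^ 2 * J + C1 * Λ)) := by
          gcongr
          exact hS3
      _ = T / (2 * Real.pi) * ℒ * (2 * β * J * (1 + δ)) +
          (P * Λ) * ((1 + δ) * (T / (2 * Real.pi)) * C1) := by
        have : P * (Real.sqrt Real.pi * Λ ^ 2 * J) = 2 * β * J * ℒ := by
          rw [hP, hΛ]
          field_simp
        calc _ = (1 + δ) * (T / (2 * Real.pi)) * (P * (Real.sqrt Real.pi * Λ ^ 2 * J)) +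
            (P * Λ) * ((1 + δ) * (T / (2 * Real.pi)) * C1) := by ring
          _ = _ := by rw [this]; ring
      _ ≤ _ := by
        have h3 : T / (2 * Real.pi) ≤ T / 4 := by
          apply div_le_div_of_nonneg_left hT (by norm_num)
          linarith [Real.pi_gt_three]
        have : (P * Λ) * ((1 + δ) * (T / (2 * Real.pi)) * C1) ≤ 2 * (2 * (T / 4) * C1) := by
          gcongr
          linarith
        linarith
  have hΛℒ : Λ ≤ ℒ := by
    rw [hΛ]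
    calc β * ℒ ≤ 1 * ℒ := mul_le_mul_of_nonneg_right hβ1.le hℒ0
      _ = ℒ := one_mul _
  have m2 : P * (R0 * (T * (a * (Λ ^ 2 / 2 + Λ) + b * Λ))) ≤
      T * (R0 * a * ℒ) + T * (R0 * (4 * a + 2 * b)) := by
    calc _ = (P * Λ) * (T * R0 * (a * (Λ / 2 + 1) + b)) := by ring
      _ ≤ 2 * (T * R0 * (a * (ℒ / 2 + 1) + b)) := by gcongr
      _ ≤ _ := by
        have : 0 ≤ T * R0 * a := by positivity
        have e : T * (R0 * a * ℒ) + T * (R0 * (4 * a + 2 * b)) =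
          2 * (T * R0 * (a * (ℒ / 2 + 1) + b)) + 2 * (T * R0 * a) := by ring
        rw [e]; linarith
  have hKℒ : K ≤ ε1 / 32 * ℒ := by
    have h1 : 32 * K / ε1 ≤ ℒ := by linarith
    rw [div_le_iff₀ hε1] at h1
    linarith
  have total : P * (∫ u in (0 : ℝ)..Λ, Rw γ (u / Λ) * YE δ a b T u) ≤
      T / (2 * Real.pi) * ℒ * (2 * β * J * (1 + δ)) + T * (R0 * a * ℒ + K) := by
    calc _ ≤ P * ((1 + δ) * (T / (2 * Real.pi)) * (∫ u in (0 : ℝ)..Λ, Rw γ (u / Λ) * S1 u) +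
          R0 * (T * (a * (Λ ^ 2 / 2 + Λ) + b * Λ))) := by
          rw [← hI3, ← hI2]
          exact mul_le_mul_of_nonneg_left hI1 hP0
      _ = P * ((1 + δ) * (T / (2 * Real.pi)) * (∫ u in (0 : ℝ)..Λ, Rw γ (u / Λ) * S1 u)) +
          P * (R0 * (T * (a * (Λ ^ 2 / 2 + Λ) + b * Λ))) := by ring
      _ ≤ (T / (2 * Real.pi) * ℒ * (2 * β * J * (1 + δ)) + T * C1) +
          (T * (R0 * a * ℒ) + T * (R0 * (4 * a + 2 * b))) := by linarith
      _ = _ := by rw [hK]; ring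
  refine total.trans ?_
  have f0 : R0 * a * ℒ ≤ ε1 / 64 * ℒ := mul_le_mul_of_nonneg_right ha2 hℒ0
  have f1 : T * (R0 * a * ℒ + K) ≤ T * (3 / 64 * ε1 * ℒ) := by
    refine mul_le_mul_of_nonneg_left ?_ hT
    linarith
  have f2 : T * (3 / 64 * ε1 * ℒ) ≤ T / (2 * Real.pi) * ℒ * (3 / 4 * ε1) := by
    have h3 : 1 / 8 ≤ 1 / (2 * Real.pi) := by
      apply one_div_le_one_div_of_le (by positivity)
      linarith [Real.pi_lt_four]
    have n : 0 ≤ T * ℒ * ε1 := by positivity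
    calc T * (3 / 64 * ε1 * ℒ) = (1 / 16) * (3 / 4 * (T * ℒ * ε1)) := by ring
      _ ≤ (1 / 8) * (3 / 4 * (T * ℒ * ε1)) := by gcongr; norm_num
      _ ≤ (1 / (2 * Real.pi)) * (3 / 4 * (T * ℒ * ε1)) := by gcongr
      _ = _ := by ring
  have f3 : T / (2 * Real.pi) * ℒ * (2 * β * J * (1 + δ)) ≤
      T / (2 * Real.pi) * ℒ * (2 * β * J + ε1 / 4) := by
    refine mul_le_mul_of_nonneg_left ?_ (by positivity)
    have : 2 * β * J * (1 + δ) = 2 * β * J + 2 * β * J * δ := by ring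
    linarith
  calc _ ≤ T / (2 * Real.pi) * ℒ * (2 * β * J + ε1 / 4) +
        T / (2 * Real.pi) * ℒ * (3 / 4 * ε1) := by linarith
    _ = _ := by ring

/-- Cauchy-Schwarz: the mean over a subset -/
theorem subset_bound {ι : Type*} (s E : Finset ι) (hE : E ⊆ s) (ω A : ι → ℝ)
    (hω : ∀ i ∈ s, 0 ≤ ω i) (M K R e μ δ : ℝ) (hM : 0 ≤ M) (hR : 0 ≤ R) (he : 0 ≤ e)
    (hμ : 0 < μ) (hδ : 0 < δ) (hδ1 : δ ≤ 1) (hμ1 : μ ≤ 1)
    (hW : 0 < ∑ i ∈ s, ω i) (hWE : μ * (∑ i ∈ s, ω i) ≤ ∑ i ∈ E, ω i)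
    (hK : K ≤ (1 + μ * δ ^ 2) * ∑ i ∈ s, ω i)
    (h4 : ∑ i ∈ s, ω i * A i ^ 2 ≤ K * (M ^ 2 + R))
    (h1 : (∑ i ∈ s, ω i) * M - e * (∑ i ∈ s, ω i) ≤ ∑ i ∈ s, ω i * A i) :
    ∑ i ∈ E, ω i * A i ≤ (∑ i ∈ E, ω i) *
      ((1 + 2 * δ) * M + Real.sqrt (2 * R / μ) + e / (μ * δ)) := by
  set W : ℝ := ∑ i ∈ s, ω i with hWd
  set w : ℝ := ∑ i ∈ E, ω i with hwd
  have hωE : ∀ i ∈ E, 0 ≤ ω i := fun i hi => hω i (hE hi)
  have hw0 : 0 < w := lt_of_lt_of_le (mul_pos hμ hW) hWE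
  -- the variance
  have hV : ∑ i ∈ E, ω i * (A i - M) ^ 2 ≤ μ * δ ^ 2 * W * M ^ 2 + 2 * W * R + 2 * M * (e * W) := by
    have v1 : ∑ i ∈ E, ω i * (A i - M) ^ 2 ≤ ∑ i ∈ s, ω i * (A i - M) ^ 2 :=
      Finset.sum_le_sum_of_subset_of_nonneg hE
        (fun i hi _ => mul_nonneg (hω i hi) (sq_nonneg _))
    have v2 : ∑ i ∈ s, ω i * (A i - M) ^ 2 =
        ∑ i ∈ s, ω i * A i ^ 2 - 2 * M * (∑ i ∈ s, ω i * A i) + W * M ^ 2 := by
      rw [hWd, Finset.mul_sum, Finset.sum_mul, ← Finset.sum_sub_distrib, ← Finset.sum_add_distrib]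
      refine Finset.sum_congr rfl fun i _ => by ring
    have v3 : 2 * M * (W * M - e * W) ≤ 2 * M * (∑ i ∈ s, ω i * A i) :=
      mul_le_mul_of_nonneg_left h1 (by positivity)
    have v4 : K * (M ^ 2 + R) ≤ ((1 + μ * δ ^ 2) * W) * (M ^ 2 + R) :=
      mul_le_mul_of_nonneg_right hK (by positivity)
    have v5 : (1 + μ * δ ^ 2) * W * R ≤ 2 * W * R := by
      have : μ * δ ^ 2 ≤ 1 := mul_le_one₀ hμ1 (sq_nonneg _) (pow_le_one₀ hδ.le hδ1)
      have : 1 + μ * δ ^ 2 ≤ 2 := by linarith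
      gcongr
    calc _ ≤ _ := v1
      _ = _ := v2
      _ ≤ ((1 + μ * δ ^ 2) * W) * (M ^ 2 + R) - 2 * M * (W * M - e * W) + W * M ^ 2 := by linarith
      _ = μ * δ ^ 2 * W * M ^ 2 + (1 + μ * δ ^ 2) * W * R + 2 * M * (e * W) := by ring
      _ ≤ _ := by linarith
  -- Cauchy-Schwarz
  have hCS : (∑ i ∈ E, ω i * (A i - M)) ^ 2 ≤ w * ∑ i ∈ E, ω i * (A i - M) ^ 2 := by
    have h := Finset.sum_sq_le_sum_mul_sum_of_sq_eq_mul E (r := fun i => ω i * (A i - M))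
      (f := fun i => ω i) (g := fun i => ω i * (A i - M) ^ 2) hωE
      (fun i hi => mul_nonneg (hωE i hi) (sq_nonneg _)) (fun i _ => by ring)
    exact h
  set X : ℝ := 2 * δ * M + Real.sqrt (2 * R / μ) + e / (μ * δ) with hX
  have hX0 : 0 ≤ X := by positivity
  have hs2 : Real.sqrt (2 * R / μ) ^ 2 = 2 * R / μ := Real.sq_sqrt (by positivity)
  have hX2 : δ ^ 2 * M ^ 2 + 2 * R / μ + 2 * M * e / μ ≤ X ^ 2 := by
    have x1 : X ^ 2 = 4 * δ ^ 2 * M ^ 2 + Real.sqrt (2 * R / μ) ^ 2 + (e / (μ * δ)) ^ 2 +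
        2 * (2 * δ * M) * Real.sqrt (2 * R / μ) + 2 * (2 * δ * M) * (e / (μ * δ)) +
        2 * Real.sqrt (2 * R / μ) * (e / (μ * δ)) := by rw [hX]; ring
    have x2 : 2 * (2 * δ * M) * (e / (μ * δ)) = 4 * M * e / μ := by field_simp; ring
    have x3 : 0 ≤ (e / (μ * δ)) ^ 2 := sq_nonneg _
    have x4 : 0 ≤ 2 * (2 * δ * M) * Real.sqrt (2 * R / μ) := by positivity
    have x5 : 0 ≤ 2 * Real.sqrt (2 * R / μ) * (e / (μ * δ)) := by positivity
    have x6 : 0 ≤ M * e / μ := by positivity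
    have x7 : 0 ≤ δ ^ 2 * M ^ 2 := by positivity
    have x8 : 2 * M * e / μ = 2 * (M * e / μ) := by ring
    have x9 : 4 * M * e / μ = 4 * (M * e / μ) := by ring
    rw [x1, hs2, x2, x8, x9]
    linarith
  have hfin : (∑ i ∈ E, ω i * (A i - M)) ^ 2 ≤ (w * X) ^ 2 := by
    refine hCS.trans ?_
    have y1 : μ * δ ^ 2 * W * M ^ 2 + 2 * W * R + 2 * M * (e * W) =
        (μ * W) * (δ ^ 2 * M ^ 2 + 2 * R / μ + 2 * M * e / μ) := by field_simp
    calc w * ∑ i ∈ E, ω i * (A i - M) ^ 2 ≤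
        w * ((μ * W) * (δ ^ 2 * M ^ 2 + 2 * R / μ + 2 * M * e / μ)) := by
          rw [← y1]; exact mul_le_mul_of_nonneg_left hV hw0.le
      _ ≤ w * (w * X ^ 2) := by
          refine mul_le_mul_of_nonneg_left ?_ hw0.le
          refine mul_le_mul hWE hX2 (by positivity) hw0.le
      _ = _ := by ring
  have hle : ∑ i ∈ E, ω i * (A i - M) ≤ w * X := le_of_sq_le_sq hfin (by positivity)
  have e1 : ∑ i ∈ E, ω i * (A i - M) = ∑ i ∈ E, ω i * A i - w * M := by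
    rw [hwd, Finset.sum_mul, ← Finset.sum_sub_distrib]
    refine Finset.sum_congr rfl fun i _ => by ring
  rw [e1] at hle
  calc ∑ i ∈ E, ω i * A i ≤ w * M + w * X := by linarith
    _ = _ := by rw [hX]; ring

end H385
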