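import Pool.Agent.H385R4.AE3
import Pool.Agent.H385R4.AE6
import Pool.Agent.H385R4.AE7
import Pool.Agent.H385R4.AE8a
import Pool.Agent.H385R4.AE8b
import Pool.Agent.H385R2.PrimLS
import Pool.Agent.H385R2.FinB3a

/-!
TEAM Q, project AE: the mean square over a subset of the family.
-/

open Complex Filter Topology Set MeasureTheory

set_option maxHeartbeats 4000000

namespace H385

theorem pow_exp_ev (n : ℕ) (c K : ℝ) (hc : 0 < c) (hK : 0 < K) :
    ∀ᶠ L : ℝ in atTop, (L + 1) ^ n * Real.exp (-(c * L)) ≤ K := by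
  have h1 : Tendsto (fun x : ℝ => x ^ n * Real.exp (-x)) atTop (𝓝 0) :=
    Real.tendsto_pow_mul_exp_neg_atTop_nhds_zero n
  have h2 : Tendsto (fun L : ℝ => c * (L + 1)) atTop atTop :=
    (tendsto_atTop_add_const_right _ _ tendsto_id).const_mul_atTop hc
  have h3 := h1.comp h2
  have hK2 : 0 < K * c ^ n * Real.exp (-c) := by positivity
  filter_upwards [h3.eventually (gt_mem_nhds hK2)] with L hL
  simp only [Function.comp] at hL
  have e1 : Real.exp (-(c * (L + 1))) = Real.exp (-(c * L)) * Real.exp (-c) := by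
    rw [← Real.exp_add]; ring_nf
  rw [mul_pow, e1] at hL
  have h5 : c ^ n * Real.exp (-c) * ((L + 1) ^ n * Real.exp (-(c * L))) <
      c ^ n * Real.exp (-c) * K := by linarith
  exact (lt_of_mul_lt_mul_left h5 (by positivity)).le

theorem cpr_cont (P : ℕ) (T u : ℝ) (n : ℕ) : Continuous (fun t => cpr P T u t n) := by
  unfold cpr bn
  split_ifs
  · have := (bt_cont T (Real.log n)).comp (Continuous.prodMk_right (X := ℝ) (Y := ℝ) u)
    exact continuous_const.mul (continuous_const.mul this)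
  · exact continuous_const

theorem cpr_norm (P : ℕ) (T u t : ℝ) (n : ℕ) :
    ‖cpr P T u t n‖ ≤ ArithmeticFunction.vonMangoldt n * ‖bn T u t n‖ := by
  unfold cpr
  split_ifs
  · rw [norm_mul, Complex.norm_real, Real.norm_of_nonneg ArithmeticFunction.vonMangoldt_nonneg]
  · rw [norm_zero]
    exact mul_nonneg ArithmeticFunction.vonMangoldt_nonneg (norm_nonneg _)

theorem cpr_norm_sq (P : ℕ) (T u t : ℝ) (n : ℕ) :
    ‖cpr P T u t n‖ ^ 2 ≤ ArithmeticFunction.vonMangoldt n ^ 2 *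
      ‖(Real.sqrt n : ℂ)⁻¹ * bt T u t (Real.log n)‖ ^ 2 := by
  rw [← mul_pow]
  exact pow_le_pow_left₀ (norm_nonneg _) (cpr_norm P T u t n) 2

theorem cpr_sq_int (P : ℕ) (T κ u : ℝ) (hκ : 1 ≤ κ) (hT : 1 ≤ T) (hTκ : T ≤ Real.exp (κ ^ 2))
    (n : ℕ) : Integrable (fun t => ‖cpr P T u t n‖ ^ 2) := by
  obtain ⟨C, hC, h⟩ := bt_sq_int
  have h1 := (h T κ u (Real.log n) hκ hT hTκ).1
  have h2 : Integrable (fun t => ArithmeticFunction.vonMangoldt n ^ 2 *
      ‖(Real.sqrt n : ℂ)⁻¹ * bt T u t (Real.log n)‖ ^ 2) := by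
    refine Integrable.const_mul ?_ _
    simp only [norm_mul, mul_pow]
    exact h1.const_mul _
  refine h2.mono' (((cpr_cont P T u n).norm.pow 2).aestronglyMeasurable)
    (Eventually.of_forall fun t => ?_)
  rw [Real.norm_of_nonneg (sq_nonneg _)]
  exact cpr_norm_sq P T u t n

theorem aa_prim (q : ℕ) [NeZero q] (χ : DirichletCharacter ℂ q) (h : χ.IsPrimitive) (n : ℕ) :
    aa q χ n = χ (n : ZMod q) * (ArithmeticFunction.vonMangoldt n : ℂ) := by
  unfold aa
  congr 1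
  have hc : χ.conductor = q := h
  by_cases hn : Nat.Coprime n q
  · have hu : IsUnit (n : ZMod q) := (ZMod.isUnit_iff_coprime n q).mpr hn
    have e := χ.changeLevel_primitiveCharacter
    conv_rhs => rw [← e]
    obtain ⟨u, hu'⟩ := hu
    rw [← hu', DirichletCharacter.changeLevel_eq_cast_of_dvd, hu']
    congr 1
    exact (ZMod.cast_natCast (χ.conductor_dvd_level) n).symm
  · have h1 : ¬ IsUnit (n : ZMod q) := by rw [ZMod.isUnit_iff_coprime]; exact hn
    have h2 : ¬ IsUnit (n : ZMod χ.conductor) := by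
      rw [ZMod.isUnit_iff_coprime, hc]; exact hn
    rw [MulChar.map_nonunit _ h1, MulChar.map_nonunit _ h2]

theorem aa_norm_le (q : ℕ) (χ : DirichletCharacter ℂ q) (n : ℕ) :
    ‖aa q χ n‖ ≤ ArithmeticFunction.vonMangoldt n := by
  unfold aa
  rw [norm_mul, Complex.norm_real, Real.norm_of_nonneg ArithmeticFunction.vonMangoldt_nonneg]
  exact mul_le_of_le_one_left ArithmeticFunction.vonMangoldt_nonneg
    (DirichletCharacter.norm_le_one _ _)

theorem aa_integrable (q : ℕ) (χ : DirichletCharacter ℂ q) (T u : ℝ) (hT : 0 ≤ T) :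
    Integrable (fun t : ℝ => ‖∑' n : ℕ, aa q χ n * bn T u t n‖ ^ 2) := by
  obtain ⟨C2, hC2, h2⟩ := wt_sq_int
  have hw := (h2 T hT).1
  have hs := half_summable u
  have hb : ∀ (t : ℝ) (n : ℕ), ‖aa q χ n * bn T u t n‖ ≤ wt T t *
      (ArithmeticFunction.vonMangoldt n / Real.sqrt n * Real.exp (-(u - Real.log n) ^ 2 / 4)) := by
    intro t n
    rw [norm_mul]
    refine le_trans ?_ (b_bound T u t hT n)
    exact mul_le_mul_of_nonneg_right (aa_norm_le q χ n) (norm_nonneg _)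
  have hb1 : ∀ (n : ℕ) (t : ℝ), ‖aa q χ n * bn T u t n‖ ≤
      ArithmeticFunction.vonMangoldt n / Real.sqrt n * Real.exp (-(u - Real.log n) ^ 2 / 4) := by
    intro n t
    refine (hb t n).trans ?_
    have := wt_le_one T t hT
    exact mul_le_of_le_one_left (mul_nonneg (div_nonneg ArithmeticFunction.vonMangoldt_nonneg
      (Real.sqrt_nonneg _)) (Real.exp_pos _).le) this
  have hc : Continuous (fun t : ℝ => ∑' n : ℕ, aa q χ n * bn T u t n) := by
    refine continuous_tsum (fun n => ?_) hs hb1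
    unfold bn
    have := (bt_cont T (Real.log n)).comp (Continuous.prodMk_right (X := ℝ) (Y := ℝ) u)
    exact continuous_const.mul (continuous_const.mul this)
  set H := ∑' n : ℕ, ArithmeticFunction.vonMangoldt n / Real.sqrt n *
    Real.exp (-(u - Real.log n) ^ 2 / 4) with hH
  refine (hw.mul_const (H ^ 2)).mono' ((hc.norm.pow 2).aestronglyMeasurable)
    (Eventually.of_forall fun t => ?_)
  rw [Real.norm_of_nonneg (sq_nonneg _), ← mul_pow]
  refine pow_le_pow_left₀ (norm_nonneg _) ?_ 2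
  have hs2 : Summable (fun n : ℕ => wt T t * (ArithmeticFunction.vonMangoldt n / Real.sqrt n *
      Real.exp (-(u - Real.log n) ^ 2 / 4))) := hs.mul_left _
  have hs3 : Summable (fun n : ℕ => ‖aa q χ n * bn T u t n‖) :=
    Summable.of_nonneg_of_le (fun n => norm_nonneg _) (hb t) hs2
  calc _ ≤ ∑' n : ℕ, ‖aa q χ n * bn T u t n‖ := norm_tsum_le_tsum_norm hs3
    _ ≤ ∑' n : ℕ, wt T t * (ArithmeticFunction.vonMangoldt n / Real.sqrt n *
      Real.exp (-(u - Real.log n) ^ 2 / 4)) := hs3.tsum_le_tsum (hb t) hs2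
    _ = _ := by rw [tsum_mul_left]

/-- the tail -/
theorem tail_ev (β : ℝ) (hβ1 : β < 1) : ∀ᶠ L : ℝ in atTop, ∀ u : ℝ, 0 ≤ u → u ≤ β * L →
    Tl ⌈Real.exp ((1 + β) / 2 * L)⌉₊ u ≤ 1 := by
  obtain ⟨C8, hC8, h8⟩ := lam_tail
  set c : ℝ := ((1 - β) / 2) ^ 2 / 8 with hc
  have hc0 : 0 < c := by
    have : 0 < (1 - β) / 2 := by linarith
    positivity
  filter_upwards [eventually_ge_atTop 1, lin_ev (β / 2 + |Real.log C8|) c hc0] with L a1 a2
  intro u hu hu2
  have h1 : Real.exp ((1 + β) / 2 * L) ≤ (⌈Real.exp ((1 + β) / 2 * L)⌉₊ : ℝ) := Nat.le_ceil _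
  have h2 : (1 + β) / 2 * L ≤ Real.log (⌈Real.exp ((1 + β) / 2 * L)⌉₊ : ℝ) := by
    rw [Real.le_log_iff_exp_le (lt_of_lt_of_le (Real.exp_pos _) h1)]
    exact h1
  have hG : 0 ≤ (1 - β) / 2 * L := mul_nonneg (by linarith) (by linarith)
  have h9 := h8 u ((1 - β) / 2 * L) ⌈Real.exp ((1 + β) / 2 * L)⌉₊ hu hG (by linarith)
  refine le_trans h9 ?_
  have h10 : C8 = Real.exp (Real.log C8) := (Real.exp_log hC8).symm
  rw [h10, ← Real.exp_add]
  refine Real.exp_le_one_iff.mpr ?_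
  have h11 : ((1 - β) / 2 * L) ^ 2 / 8 = c * L * L := by rw [hc]; ring
  have h12 : (β / 2 + |Real.log C8|) * L ≤ c * L * L := mul_le_mul_of_nonneg_right a2 (by linarith)
  have h13 : Real.log C8 ≤ |Real.log C8| * L := by
    have h14 := le_abs_self (Real.log C8)
    have h15 := abs_nonneg (Real.log C8)
    nlinarith
  linarith

theorem ceil_sq (β : ℝ) (hβ : 0 < β) (L : ℝ) (hL : 0 ≤ L) :
    ((⌈Real.exp ((1 + β) / 2 * L)⌉₊ : ℝ)) ^ 2 ≤ 4 * Real.exp ((1 + β) * L) := by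
  have h1 : (⌈Real.exp ((1 + β) / 2 * L)⌉₊ : ℝ) < Real.exp ((1 + β) / 2 * L) + 1 :=
    Nat.ceil_lt_add_one (Real.exp_pos _).le
  have h2 : 1 ≤ Real.exp ((1 + β) / 2 * L) := Real.one_le_exp (by positivity)
  have h3 : (⌈Real.exp ((1 + β) / 2 * L)⌉₊ : ℝ) ≤ 2 * Real.exp ((1 + β) / 2 * L) := by linarith
  have h4 : Real.exp ((1 + β) * L) = Real.exp ((1 + β) / 2 * L) ^ 2 := by
    rw [← Real.exp_nat_mul]; congr 1; push_cast; ring
  rw [h4]
  calc _ ≤ (2 * Real.exp ((1 + β) / 2 * L)) ^ 2 := pow_le_pow_left₀ (Nat.cast_nonneg _) h3 2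
    _ = _ := by ring

end H385
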