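import Pool.Agent.H385R4.AE8c

/-!
TEAM Q, project AE: the mean square over a subset of the family.
-/

open Complex Filter Topology Set MeasureTheory

set_option maxHeartbeats 4000000

namespace H385

/-- the mean square over a subset, for one `u` -/
theorem ms_subset (P : ℕ) (hsf : Squarefree P) : ∃ CL C : ℝ, 0 < CL ∧ 0 < C ∧
    ∀ (X Y N : ℕ) (T κ u μ δ e : ℝ) (E : Finset IX), 1 ≤ X → X ≤ Y → 1 ≤ κ → κ ≤ T → 1 ≤ T →
    T ≤ Real.exp (κ ^ 2) → 0 ≤ u → Tl N u ≤ 1 → 0 < μ → μ ≤ 1 → 0 < δ → δ ≤ 1 → 0 ≤ e →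
    E ⊆ primSet X Y → μ * WW X Y ≤ WE E → 0 < WW X Y →
    KLS P CL X Y (N ^ 2) ≤ (1 + μ * δ ^ 2) * WW X Y →
    C * (T * (Real.log ((Y : ℝ) / X) + 1) +
        (u + 1) ^ 3 * Real.exp u * (Real.log X + 1) / X) ≤ e * WW X Y →
    ∫ t : ℝ, ∑ p ∈ E, (1 / (p.1 : ℝ) ^ 2) *
      ‖∑' n : ℕ, (p.2 (n : ZMod p.1) * (ArithmeticFunction.vonMangoldt n : ℂ)) *
        ((Real.sqrt n : ℂ)⁻¹ * bt T u t (Real.log n))‖ ^ 2 ≤
      WE E * ((1 + δ) * ((1 + 2 * δ) * (T / (2 * Real.pi) * S1 u + C * κ * (u + 1)) +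
        Real.sqrt (2 * (C * (T ^ 2 + T * (u + 1) ^ 5)) / μ) + e / (μ * δ)) +
        (1 + 1 / δ) * (C * T)) := by
  have hP0 : P ≠ 0 := hsf.ne_zero
  obtain ⟨CL, hCL, h4m⟩ := fourth_moment P hsf
  obtain ⟨C4, hC4, hgram⟩ := cpr_gram
  obtain ⟨C6, hC6, hfirst⟩ := first_moment
  obtain ⟨C7, hC7, hpoint⟩ := aa_point P (Nat.one_le_iff_ne_zero.mpr hP0)
  obtain ⟨CS, hCS, hsum⟩ := bt_sum_int
  refine ⟨CL, C4 + C6 + C7 + CS, hCL, by positivity, ?_⟩
  set C : ℝ := C4 + C6 + C7 + CS with hC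
  intro X Y N T κ u μ δ e E hX hXY hκ hκT hT hTκ hu hN hμ hμ1 hδ hδ1 he hE hWE hW hK herr
  have hT0 : 0 ≤ T := by linarith
  have hXr : (1 : ℝ) ≤ X := by exact_mod_cast hX
  have hYX : 0 ≤ Real.log ((Y : ℝ) / X) := by
    apply Real.log_nonneg
    rw [le_div_iff₀ (by linarith), one_mul]
    exact_mod_cast hXY
  have hlX : 0 ≤ Real.log X := Real.log_nonneg hXr
  -- the objects
  set A : IX → ℝ := fun p => ∫ t : ℝ, ‖∑ n ∈ Finset.Icc 1 N, cpr P T u t n * p.2 (n : ZMod p.1)‖ ^ 2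
    with hA
  set M : ℝ := ∫ t : ℝ, ∑ n ∈ Finset.Icc 1 N, ‖cpr P T u t n‖ ^ 2 with hM
  set R : ℝ := ∑ n ∈ Finset.Icc 1 N, ∑ m ∈ Finset.Icc 1 N,
        ‖∫ t : ℝ, cpr P T u t n * (starRingEnd ℂ) (cpr P T u t m)‖ ^ 2 with hR
  have hM0 : 0 ≤ M := integral_nonneg fun t => Finset.sum_nonneg fun n _ => sq_nonneg _
  have hR0 : 0 ≤ R := Finset.sum_nonneg fun n _ => Finset.sum_nonneg fun m _ => sq_nonneg _
  have hsub := subset_bound (primSet X Y) E hE (fun p => 1 / (p.1 : ℝ) ^ 2) A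
    (fun p _ => by positivity) M (KLS P CL X Y (N ^ 2)) R e μ δ hM0 hR0 he hμ hδ hδ1 hμ1
    (by have := WE_primSet X Y; unfold WE at this; rw [this]; exact hW)
    (by have := WE_primSet X Y; unfold WE at this; rw [this]; exact hWE)
    (by have := WE_primSet X Y; unfold WE at this; rw [this]; exact hK)
    (by
      have h := h4m X Y N (fun t n => cpr P T u t n) hX hXY
        (fun t n hn => by unfold cpr; rw [if_neg hn]) (fun n => cpr_cont P T u n)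
        (fun n => cpr_sq_int P T κ u hκ hT hTκ n)
      rw [primFam_eq] at h
      exact h)
    (by
      have h := hfirst P X Y N T κ u hX hXY hκ hκT hT hTκ hu
      rw [primFam_eq X Y (fun q χ => ∫ t : ℝ, ‖∑ n ∈ Finset.Icc 1 N, cpr P T u t n *
        χ (n : ZMod q)‖ ^ 2)] at h
      have hw : primFam X Y (fun _ _ => 1) = WW X Y := rfl
      have := WE_primSet X Y; unfold WE at this; rw [this]
      rw [hw] at h
      refine le_trans ?_ h
      have h2 : C6 * (T * (Real.log ((Y : ℝ) / X) + 1) +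
        (u + 1) ^ 3 * Real.exp u * (Real.log X + 1) / X) ≤
        C * (T * (Real.log ((Y : ℝ) / X) + 1) +
        (u + 1) ^ 3 * Real.exp u * (Real.log X + 1) / X) := by
        refine mul_le_mul_of_nonneg_right (by rw [hC]; linarith) (by positivity)
      linarith)
  -- bounds for M and R
  have hMle : M ≤ T / (2 * Real.pi) * S1 u + C * κ * (u + 1) := by
    obtain ⟨s1, s2⟩ := hsum T κ u N hκ hT hTκ hu
    have hint : Integrable (fun t => ∑ n ∈ Finset.Icc 1 N, ‖cpr P T u t n‖ ^ 2) :=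
      integrable_finsetSum _ fun n _ => cpr_sq_int P T κ u hκ hT hTκ n
    refine (integral_mono hint s1 (fun t => Finset.sum_le_sum fun n _ =>
      cpr_norm_sq P T u t n)).trans (s2.trans ?_)
    have : CS * κ * (u + 1) ≤ C * κ * (u + 1) := by
      have : CS ≤ C := by rw [hC]; linarith
      gcongr
    linarith
  have hRle : R ≤ C * (T ^ 2 + T * (u + 1) ^ 5) := by
    refine (hgram P N T κ u hκ hκT hT hTκ hu).trans ?_
    refine mul_le_mul_of_nonneg_right (by rw [hC]; linarith) (by positivity)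
  have hS1 : 0 ≤ S1 u := tsum_nonneg fun n => by positivity
  -- from the tsum to the finite sum
  have hmem : ∀ p ∈ E, ∃ _ : NeZero p.1, p.2.IsPrimitive := by
    intro p hp
    obtain ⟨h1, h2, h3⟩ := (mem_primSet X Y p).mp (hE hp)
    exact ⟨⟨by omega⟩, h3⟩
  have heq : ∀ t : ℝ, ∑ p ∈ E, (1 / (p.1 : ℝ) ^ 2) *
      ‖∑' n : ℕ, (p.2 (n : ZMod p.1) * (ArithmeticFunction.vonMangoldt n : ℂ)) *
        ((Real.sqrt n : ℂ)⁻¹ * bt T u t (Real.log n))‖ ^ 2 =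
      ∑ p ∈ E, (1 / (p.1 : ℝ) ^ 2) * ‖∑' n : ℕ, aa p.1 p.2 n * bn T u t n‖ ^ 2 := by
    intro t
    refine Finset.sum_congr rfl fun p hp => ?_
    obtain ⟨h1, h2⟩ := hmem p hp
    congr 3
    refine tsum_congr fun n => ?_
    rw [aa_prim p.1 p.2 h2 n]
    rfl
  simp only [heq]
  rw [integral_finsetSum _ fun p _ => (aa_integrable p.1 p.2 T u hT0).const_mul _]
  have hstep : ∀ p ∈ E, ∫ t : ℝ, (1 / (p.1 : ℝ) ^ 2) * ‖∑' n : ℕ, aa p.1 p.2 n * bn T u t n‖ ^ 2 ≤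
      (1 + δ) * ((1 / (p.1 : ℝ) ^ 2) * A p) + (1 / (p.1 : ℝ) ^ 2) * ((1 + 1 / δ) * (C * T)) := by
    intro p hp
    obtain ⟨h1, h2⟩ := hmem p hp
    rw [integral_const_mul]
    have h3 := hpoint p.1 p.2 h2 N T u δ hδ hT hu hN
    have h4 : (1 + 1 / δ) * (C7 * T) ≤ (1 + 1 / δ) * (C * T) := by
      have : C7 ≤ C := by rw [hC]; linarith
      gcongr
    calc _ ≤ (1 / (p.1 : ℝ) ^ 2) * ((1 + δ) * A p + (1 + 1 / δ) * (C * T)) :=
          mul_le_mul_of_nonneg_left (by linarith) (by positivity)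
      _ = _ := by ring
  refine (Finset.sum_le_sum hstep).trans ?_
  rw [Finset.sum_add_distrib, ← Finset.mul_sum, ← Finset.sum_mul]
  have hWEd : ∑ p ∈ E, (1 / (p.1 : ℝ) ^ 2) = WE E := rfl
  rw [hWEd] at hsub ⊢
  have hWE0 := WE_nonneg E
  have hfin : (1 + 2 * δ) * M + Real.sqrt (2 * R / μ) + e / (μ * δ) ≤
      (1 + 2 * δ) * (T / (2 * Real.pi) * S1 u + C * κ * (u + 1)) +
        Real.sqrt (2 * (C * (T ^ 2 + T * (u + 1) ^ 5)) / μ) + e / (μ * δ) := by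
    gcongr
  have h5 := mul_le_mul_of_nonneg_left hfin hWE0
  have h6 : (1 + δ) * ∑ p ∈ E, (1 / (p.1 : ℝ) ^ 2) * A p ≤ (1 + δ) * (WE E *
      ((1 + 2 * δ) * (T / (2 * Real.pi) * S1 u + C * κ * (u + 1)) +
        Real.sqrt (2 * (C * (T ^ 2 + T * (u + 1) ^ 5)) / μ) + e / (μ * δ))) :=
    mul_le_mul_of_nonneg_left (hsub.trans h5) (by positivity)
  calc _ ≤ (1 + δ) * (WE E *
      ((1 + 2 * δ) * (T / (2 * Real.pi) * S1 u + C * κ * (u + 1)) +
        Real.sqrt (2 * (C * (T ^ 2 + T * (u + 1) ^ 5)) / μ) + e / (μ * δ))) +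
        WE E * ((1 + 1 / δ) * (C * T)) := by linarith
    _ = _ := by ring

end H385
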