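import Pool.Agent.H385R4.AE8d

/-!
TEAM Q, project AE: the mean square hypothesis for subsets of positive mass.
-/

open Complex Filter Topology Set MeasureTheory

set_option maxHeartbeats 4000000

namespace H385

/-- choice of the constants of the large sieve -/
theorem mass_choice (μ δ : ℝ) (hμ : 0 < μ) (hμ1 : μ ≤ 1) (hδ : 0 < δ) (hδ1 : δ ≤ 1) :
    ∃ (P : ℕ), Squarefree P ∧ ∃ e1 : ℝ, 0 < e1 ∧ ∀ CL : ℝ, 0 < CL → ∃ L0 : ℝ, 1 ≤ L0 ∧
      ∀ X Y N2 : ℕ, 1 ≤ X → X ≤ Y → L0 ≤ Real.log ((Y : ℝ) / X) →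
        Real.pi * N2 / (X : ℝ) ^ 2 ≤ e1 / 2 →
        0 < WW X Y ∧ Real.log ((Y : ℝ) / X) + 1 ≤ 4 / c0 ^ 2 * WW X Y ∧
        KLS P CL X Y N2 ≤ (1 + μ * δ ^ 2) * WW X Y := by
  have hc0 : 0 < c0 := by unfold c0; positivity
  set e1 : ℝ := μ * δ ^ 2 / 8 with he1
  have he10 : 0 < e1 := by positivity
  have hμδ : μ * δ ^ 2 ≤ 1 := mul_le_one₀ hμ1 (sq_nonneg _) (pow_le_one₀ hδ.le hδ1)
  have he11 : e1 ≤ 1 / 8 := by rw [he1]; linarith
  obtain ⟨P, hsf, hP⟩ := PrimLS.euler_exists e1 he10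
  obtain ⟨Cm, hCm, hmass⟩ := prim_mass
  refine ⟨P, hsf, e1, he10, fun CL hCL => ?_⟩
  refine ⟨1 + 2 * (Cm + CL) / (e1 * c0 ^ 2), by
    have : 0 ≤ 2 * (Cm + CL) / (e1 * c0 ^ 2) := by positivity
    linarith, ?_⟩
  intro X Y N2 hX hXY hL0 hN
  set ℓ : ℝ := Real.log ((Y : ℝ) / X) with hℓ
  have hℓ1 : 1 ≤ ℓ := by
    have : 0 ≤ 2 * (Cm + CL) / (e1 * c0 ^ 2) := by positivity
    linarith
  have hℓ2 : 2 * (Cm + CL) ≤ e1 * c0 ^ 2 * ℓ := by
    have : 2 * (Cm + CL) / (e1 * c0 ^ 2) ≤ ℓ := by linarith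
    rw [div_le_iff₀ (by positivity)] at this
    linarith
  have hW1 := (abs_le.mp (hmass X Y hX hXY)).1
  have hW2 : c0 ^ 2 * ℓ - Cm ≤ WW X Y := by
    have : primFam X Y (fun _ _ => 1) = WW X Y := rfl
    rw [this] at hW1; linarith
  have hcℓ : 0 < c0 ^ 2 * ℓ := by positivity
  have hCm2 : 2 * Cm ≤ 1 / 8 * (c0 ^ 2 * ℓ) := by
    have : e1 * c0 ^ 2 * ℓ ≤ 1 / 8 * (c0 ^ 2 * ℓ) := by
      calc e1 * c0 ^ 2 * ℓ = e1 * (c0 ^ 2 * ℓ) := by ring
        _ ≤ _ := mul_le_mul_of_nonneg_right he11 hcℓ.le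
    linarith
  have hWh : c0 ^ 2 * ℓ / 2 ≤ WW X Y := by linarith
  refine ⟨by linarith, ?_, ?_⟩
  · have h1 : 4 / c0 ^ 2 * (c0 ^ 2 * ℓ / 2) = 2 * ℓ := by field_simp; ring
    have h2 : 4 / c0 ^ 2 * (c0 ^ 2 * ℓ / 2) ≤ 4 / c0 ^ 2 * WW X Y :=
      mul_le_mul_of_nonneg_left hWh (by positivity)
    linarith
  · unfold KLS
    have hexp : Real.exp (Real.pi * N2 / (X : ℝ) ^ 2) ≤ 1 + e1 := by
      refine (Real.exp_le_exp.mpr hN).trans ?_
      have h4 := Real.exp_bound_div_one_sub_of_interval (x := e1 / 2) (by positivity) (by linarith)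
      refine h4.trans ?_
      rw [div_le_iff₀ (by linarith)]
      nlinarith
    have hprod : c0 * (∏ p ∈ P.primeFactors, (1 - 1 / (p : ℝ) ^ 2)) * ℓ ≤
        c0 ^ 2 * (1 + e1) * ℓ := by
      have := mul_le_mul_of_nonneg_left hP hc0.le
      calc _ ≤ (c0 * (c0 * (1 + e1))) * ℓ := mul_le_mul_of_nonneg_right this (by linarith)
        _ = _ := by ring
    have hin : c0 * (∏ p ∈ P.primeFactors, (1 - 1 / (p : ℝ) ^ 2)) * ℓ + CL ≤
        c0 ^ 2 * (1 + e1) * ℓ + CL := by linarith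
    have h1 : Real.exp (Real.pi * N2 / (X : ℝ) ^ 2) *
        (c0 * (∏ p ∈ P.primeFactors, (1 - 1 / (p : ℝ) ^ 2)) * ℓ + CL) ≤
        (1 + e1) * (c0 ^ 2 * (1 + e1) * ℓ + CL) := by
      calc _ ≤ Real.exp (Real.pi * N2 / (X : ℝ) ^ 2) * (c0 ^ 2 * (1 + e1) * ℓ + CL) :=
            mul_le_mul_of_nonneg_left hin (Real.exp_pos _).le
        _ ≤ _ := mul_le_mul_of_nonneg_right hexp (by positivity)
    refine h1.trans ?_
    have hμe : μ * δ ^ 2 = 8 * e1 := by rw [he1]; ring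
    rw [hμe]
    have h2 : (1 + 8 * e1) * (c0 ^ 2 * ℓ - Cm) ≤ (1 + 8 * e1) * WW X Y :=
      mul_le_mul_of_nonneg_left hW2 (by linarith)
    refine le_trans ?_ h2
    have h3 : e1 ^ 2 ≤ e1 := by nlinarith
    have h4 : (1 + e1) * (c0 ^ 2 * (1 + e1) * ℓ + CL) =
        (c0 ^ 2 * ℓ) + 2 * e1 * (c0 ^ 2 * ℓ) + e1 ^ 2 * (c0 ^ 2 * ℓ) + (1 + e1) * CL := by ring
    have h5 : e1 ^ 2 * (c0 ^ 2 * ℓ) ≤ e1 * (c0 ^ 2 * ℓ) := mul_le_mul_of_nonneg_right h3 hcℓ.le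
    have h6 : (1 + e1) * CL ≤ 2 * CL := mul_le_mul_of_nonneg_right (by linarith) hCL.le
    have h7 : (1 + 8 * e1) * Cm ≤ 2 * Cm := mul_le_mul_of_nonneg_right (by linarith) hCm.le
    have h8 : (1 + 8 * e1) * (c0 ^ 2 * ℓ - Cm) = (c0 ^ 2 * ℓ) + 8 * (e1 * (c0 ^ 2 * ℓ)) -
      (1 + 8 * e1) * Cm := by ring
    have h9 : e1 * c0 ^ 2 * ℓ = e1 * (c0 ^ 2 * ℓ) := by ring
    have h10 : 0 ≤ e1 * (c0 ^ 2 * ℓ) := by positivity
    rw [h4, h8]
    rw [h9] at hℓ2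
    linarith

/-- one point -/
theorem ae_point (μ δ' a C b1 T L u : ℝ) (hμ : 0 < μ) (hδ : 0 < δ') (hδ1 : δ' ≤ 1) (ha : 0 < a)
    (hC : 0 < C) (hT : 1 ≤ T) (hL : 1 ≤ L) (hu : 0 ≤ u) (huL : u ≤ L) (hb1 : 0 ≤ b1)
    (h1 : 24 * C * L ≤ a * T) (h2 : (8 * Real.sqrt (2 * C / μ)) ^ 2 * (L + 1) ^ 3 ≤ a ^ 2 * T) :
    (1 + δ' / 8) * ((1 + 2 * (δ' / 8)) * (T / (2 * Real.pi) * S1 u + C * L * (u + 1)) +
        Real.sqrt (2 * (C * (T ^ 2 + T * (u + 1) ^ 5)) / μ) + b1 * T / (μ * (δ' / 8))) +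
        (1 + 1 / (δ' / 8)) * (C * T) ≤
      YE δ' a (2 * Real.sqrt (2 * C / μ) + 2 * (b1 / (μ * (δ' / 8))) + (1 + 1 / (δ' / 8)) * C) T u := by
  unfold YE
  set δ : ℝ := δ' / 8 with hδd
  have hδ0 : 0 < δ := by positivity
  have hδ8 : δ ≤ 1 / 8 := by rw [hδd]; linarith
  set s : ℝ := Real.sqrt (2 * C / μ) with hs
  have hs0 : 0 ≤ s := Real.sqrt_nonneg _
  have hT0 : 0 < T := by linarith
  have hS1 : 0 ≤ S1 u := tsum_nonneg fun n => by positivity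
  have hpi := Real.pi_pos
  have hc : (1 + δ) * (1 + 2 * δ) ≤ 1 + δ' := by
    have : δ' = 8 * δ := by rw [hδd]; ring
    rw [this]; nlinarith
  have hc2 : (1 + δ) * (1 + 2 * δ) ≤ 2 := by linarith
  -- main term
  have m1 : (1 + δ) * (1 + 2 * δ) * (T / (2 * Real.pi) * S1 u) ≤
      (1 + δ') * (T / (2 * Real.pi)) * S1 u := by
    have := mul_le_mul_of_nonneg_right hc (show 0 ≤ T / (2 * Real.pi) * S1 u by positivity)
    linarith
  have m2 : (1 + δ) * (1 + 2 * δ) * (C * L * (u + 1)) ≤ a / 2 * T * (u + 1) := by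
    have h3 : (1 + δ) * (1 + 2 * δ) * (C * L * (u + 1)) ≤ 2 * (C * L * (u + 1)) :=
      mul_le_mul_of_nonneg_right hc2 (by positivity)
    have h4 : 2 * (C * L) ≤ a / 2 * T := by
      have : 0 ≤ a * T := by positivity
      linarith
    calc _ ≤ 2 * (C * L * (u + 1)) := h3
      _ = (2 * (C * L)) * (u + 1) := by ring
      _ ≤ (a / 2 * T) * (u + 1) := mul_le_mul_of_nonneg_right h4 (by linarith)
  -- the square root
  have m3 : Real.sqrt (2 * (C * (T ^ 2 + T * (u + 1) ^ 5)) / μ) ≤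
      s * T + a / 8 * T * (u + 1) := by
    have e1 : 2 * (C * (T ^ 2 + T * (u + 1) ^ 5)) / μ = 2 * C / μ * T ^ 2 +
        2 * C / μ * (T * (u + 1) ^ 5) := by ring
    rw [e1]
    refine (sqrt_add_le_c _ _ (by positivity) (by positivity)).trans ?_
    have e2 : Real.sqrt (2 * C / μ * T ^ 2) = s * T := by
      rw [Real.sqrt_mul (by positivity), Real.sqrt_sq hT0.le]
    rw [e2]
    have e3 : Real.sqrt (2 * C / μ * (T * (u + 1) ^ 5)) ≤ a / 8 * T * (u + 1) := by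
      rw [Real.sqrt_le_left (by positivity)]
      have hs2 : s ^ 2 = 2 * C / μ := Real.sq_sqrt (by positivity)
      have h5 : (u + 1) ^ 3 ≤ (L + 1) ^ 3 := pow_le_pow_left₀ (by linarith) (by linarith) 3
      have h6 : (8 * s) ^ 2 * (u + 1) ^ 3 ≤ a ^ 2 * T :=
        (mul_le_mul_of_nonneg_left h5 (sq_nonneg _)).trans h2
      rw [← hs2]
      have h7 : s ^ 2 * (T * (u + 1) ^ 5) = ((8 * s) ^ 2 * (u + 1) ^ 3) * (T * (u + 1) ^ 2 / 64) := by
        ring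
      have h8 : (a / 8 * T * (u + 1)) ^ 2 = (a ^ 2 * T) * (T * (u + 1) ^ 2 / 64) := by ring
      rw [h7, h8]
      exact mul_le_mul_of_nonneg_right h6 (by positivity)
    linarith
  have m4 : (1 + δ) * Real.sqrt (2 * (C * (T ^ 2 + T * (u + 1) ^ 5)) / μ) ≤
      2 * s * T + a / 4 * T * (u + 1) := by
    calc _ ≤ 2 * (s * T + a / 8 * T * (u + 1)) := by
          refine mul_le_mul (by linarith) m3 (Real.sqrt_nonneg _) (by norm_num)
      _ = _ := by ring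
  have m5 : (1 + δ) * (b1 * T / (μ * δ)) ≤ 2 * (b1 / (μ * δ)) * T := by
    have h3 : 0 ≤ b1 * T / (μ * δ) := by positivity
    calc _ ≤ 2 * (b1 * T / (μ * δ)) := mul_le_mul_of_nonneg_right (by linarith) h3
      _ = _ := by ring
  have m6 : 0 ≤ a / 4 * T * (u + 1) := by positivity
  calc _ = (1 + δ) * (1 + 2 * δ) * (T / (2 * Real.pi) * S1 u) +
        (1 + δ) * (1 + 2 * δ) * (C * L * (u + 1)) +
        (1 + δ) * Real.sqrt (2 * (C * (T ^ 2 + T * (u + 1) ^ 5)) / μ) +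
        (1 + δ) * (b1 * T / (μ * δ)) + (1 + 1 / δ) * (C * T) := by ring
    _ ≤ (1 + δ') * (T / (2 * Real.pi)) * S1 u + a / 2 * T * (u + 1) +
        (2 * s * T + a / 4 * T * (u + 1)) + 2 * (b1 / (μ * δ)) * T + (1 + 1 / δ) * (C * T) := by
      linarith
    _ ≤ _ := by
      have e : (1 + δ') * (T / (2 * Real.pi)) * S1 u + T * (a * (u + 1) +
        (2 * s + 2 * (b1 / (μ * δ)) + (1 + 1 / δ) * C)) =
        (1 + δ') * (T / (2 * Real.pi)) * S1 u + a / 2 * T * (u + 1) +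
        (2 * s * T + a / 4 * T * (u + 1)) + 2 * (b1 / (μ * δ)) * T + (1 + 1 / δ) * (C * T) +
        a / 4 * T * (u + 1) := by ring
      rw [e]; linarith

/-- the mean square hypothesis for subsets -/
theorem HYE_ae (μ γ β : ℝ) (hμ : 0 < μ) (hμ1 : μ ≤ 1) (h0 : 0 < γ) (hπ : γ < Real.pi)
    (hβ : 0 < β) (hβ1 : β < 1) : HYE μ γ β (2 * β * (∫ α in (0 : ℝ)..1, α * Rw γ α)) := by
  intro ε hε
  obtain ⟨δ', a, hδ', hδ'1, ha, ha1, hYI⟩ := YE_integral γ β ε h0 hπ hβ hβ1 hε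
  have hδ0 : 0 < δ' / 8 := by positivity
  have hδ1 : δ' / 8 ≤ 1 := by linarith
  obtain ⟨P, hsf, e1, he1, hmc⟩ := mass_choice μ (δ' / 8) hμ hμ1 hδ0 hδ1
  obtain ⟨CL, C, hCL, hC, hms⟩ := ms_subset P hsf
  obtain ⟨L1, hL11, hmc1⟩ := hmc CL hCL
  obtain ⟨CY, hCY, hYP⟩ := YE_point
  have hc0 : 0 < c0 := by unfold c0; positivity
  set b1 : ℝ := 8 * C / c0 ^ 2 with hb1
  have hb10 : 0 < b1 := by positivity
  set b : ℝ := 2 * Real.sqrt (2 * C / μ) + 2 * (b1 / (μ * (δ' / 8))) + (1 + 1 / (δ' / 8)) * C with hb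
  have hb0 : 0 ≤ b := by positivity
  obtain ⟨L2, hL21, hYI2⟩ := hYI b hb0
  set S8 : ℝ := (8 * Real.sqrt (2 * C / μ)) ^ 2 with hS8
  -- large L
  have hev : ∀ᶠ L : ℝ in atTop, 1 ≤ L ∧ L2 ≤ L ∧ 24 * C * L ≤ a * L ^ 4 ∧
      S8 * (L + 1) ^ 3 ≤ a ^ 2 * L ^ 4 ∧ (L + 1) ^ 4 * Real.exp (-((1 - β) * L)) ≤ 1 ∧
      4 * Real.pi * Real.exp (-((1 - β) * L)) ≤ e1 / 2 ∧
      Real.sqrt CY + Real.sqrt b ≤ ε * L ∧
      (∀ u : ℝ, 0 ≤ u → u ≤ β * L → Tl ⌈Real.exp ((1 + β) / 2 * L)⌉₊ u ≤ 1) := by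
    have ev1 := lin_ev (24 * C) a ha
    have ev2 := lin_ev (S8 * 8) (a ^ 2) (by positivity)
    have ev3 := pow_exp_ev 4 (1 - β) 1 (by linarith) one_pos
    have ev4 := pow_exp_ev 0 (1 - β) (e1 / 2 / (4 * Real.pi)) (by linarith) (by
      have := Real.pi_pos
      positivity)
    filter_upwards [eventually_ge_atTop 1, eventually_ge_atTop L2, ev1, ev2, ev3, ev4,
      lin_ev (Real.sqrt CY + Real.sqrt b) ε hε, tail_ev β hβ1] with L a1 a2 a3 a4 a5 a6 a7 a8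
    refine ⟨a1, a2, ?_, ?_, a5, ?_, a7, a8⟩
    · have h4 : L ≤ L ^ 4 / L ^ 2 := by
        rw [le_div_iff₀ (by positivity)]
        calc L * L ^ 2 = L ^ 3 := by ring
          _ ≤ L ^ 4 := pow_le_pow_right₀ a1 (by norm_num)
      have h5 : 24 * C * L ≤ (a * L) * L := mul_le_mul_of_nonneg_right a3 (by linarith)
      refine h5.trans ?_
      calc a * L * L = a * L ^ 2 := by ring
        _ ≤ a * L ^ 4 := mul_le_mul_of_nonneg_left (pow_le_pow_right₀ a1 (by norm_num)) ha.le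
    · have h5 : (L + 1) ^ 3 ≤ 8 * L ^ 3 := by
        calc (L + 1) ^ 3 ≤ (2 * L) ^ 3 := pow_le_pow_left₀ (by linarith) (by linarith) 3
          _ = 8 * L ^ 3 := by ring
      have hS80 : 0 ≤ S8 := by rw [hS8]; positivity
      calc S8 * (L + 1) ^ 3 ≤ S8 * (8 * L ^ 3) := mul_le_mul_of_nonneg_left h5 hS80
        _ = (S8 * 8) * L ^ 3 := by ring
        _ ≤ (a ^ 2 * L) * L ^ 3 := mul_le_mul_of_nonneg_right a4 (by positivity)
        _ = _ := by ring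
    · rw [pow_zero, one_mul] at a6
      have hp : 0 < 4 * Real.pi := by positivity
      calc 4 * Real.pi * Real.exp (-((1 - β) * L)) ≤ 4 * Real.pi * (e1 / 2 / (4 * Real.pi)) :=
            mul_le_mul_of_nonneg_left a6 hp.le
        _ = _ := by field_simp
  obtain ⟨L3, hL3⟩ := eventually_atTop.mp hev
  refine ⟨Real.exp L1, 1, Real.exp (max L3 1), Real.one_le_exp (by linarith), one_pos,
    Real.one_le_exp (le_max_of_le_right zero_le_one), ?_⟩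
  intro X Y T hX hKX hY hT1 hT2 E hE hEW
  have hXpos : (0 : ℝ) < X := lt_of_lt_of_le (Real.exp_pos _) hX
  have hX1 : 1 ≤ X := by exact_mod_cast hXpos
  set L : ℝ := Real.log X with hLd
  have hL3' : L3 ≤ L := by
    refine (le_max_left _ 1).trans ?_
    rw [hLd, Real.le_log_iff_exp_le hXpos]; exact hX
  obtain ⟨a1, a2, a3, a4, a5, a6, a7, a8⟩ := hL3 L hL3'
  have hXexp : (X : ℝ) = Real.exp L := by rw [hLd, Real.exp_log hXpos]
  have hXYr : (X : ℝ) ≤ Y := by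
    refine le_trans ?_ hKX
    have : (1 : ℝ) ≤ Real.exp L1 := Real.one_le_exp (by linarith)
    nlinarith
  have hXY : X ≤ Y := by exact_mod_cast hXYr
  have hYpos : (0 : ℝ) < Y := by linarith
  have hℓ : L1 ≤ Real.log ((Y : ℝ) / X) := by
    rw [Real.le_log_iff_exp_le (by positivity), le_div_iff₀ hXpos]; exact hKX
  have hTone : 1 ≤ T := (one_le_pow₀ a1).trans hT1
  have hT0 : 0 < T := by linarith
  have hLT : L ≤ T := (le_self_pow₀ a1 (by norm_num)).trans hT1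
  have hTκ : T ≤ Real.exp (L ^ 2) := by
    refine hT2.trans ?_
    rw [Real.rpow_one, hXexp]
    exact Real.exp_le_exp.mpr (le_self_pow₀ a1 two_ne_zero)
  set N : ℕ := ⌈Real.exp ((1 + β) / 2 * L)⌉₊ with hN
  have hN2 : Real.pi * ((N ^ 2 : ℕ) : ℝ) / (X : ℝ) ^ 2 ≤ e1 / 2 := by
    have h1 := ceil_sq β hβ L (by linarith)
    have h2 : ((N ^ 2 : ℕ) : ℝ) = (N : ℝ) ^ 2 := by push_cast; rfl
    rw [h2]
    refine le_trans ?_ a6
    have hX2 : (X : ℝ) ^ 2 = Real.exp (2 * L) := by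
      rw [hXexp, ← Real.exp_nat_mul]; norm_num
    rw [div_le_iff₀ (by positivity), hX2]
    calc Real.pi * (N : ℝ) ^ 2 ≤ Real.pi * (4 * Real.exp ((1 + β) * L)) :=
          mul_le_mul_of_nonneg_left h1 Real.pi_pos.le
      _ = 4 * Real.pi * Real.exp (-((1 - β) * L)) * Real.exp (2 * L) := by
          rw [mul_assoc (4 * Real.pi), ← Real.exp_add]
          ring_nf
      _ ≤ _ := le_rfl
  obtain ⟨hW0, hWℓ, hK⟩ := hmc1 X Y (N ^ 2) hX1 hXY hℓ hN2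
  have hWE0 := WE_nonneg E
  refine ⟨fun u => WE E * YE δ' a b T u, WE E * CY, WE E * b, by positivity, by positivity,
    ?_, ?_, ?_, ?_, ?_⟩
  · intro u hu
    obtain ⟨hu0, hu1⟩ := hu
    have huL : u ≤ L := hu1.trans (by nlinarith)
    have herr : C * (T * (Real.log ((Y : ℝ) / X) + 1) +
        (u + 1) ^ 3 * Real.exp u * (L + 1) / X) ≤ (b1 * T) * WW X Y := by
      have h1 : (u + 1) ^ 3 * Real.exp u * (L + 1) / X ≤ 1 := by
        rw [div_le_one hXpos, hXexp]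
        have h2 : (u + 1) ^ 3 * Real.exp u * (L + 1) ≤ (L + 1) ^ 3 * Real.exp (β * L) * (L + 1) := by
          gcongr
        refine h2.trans ?_
        have h3 : Real.exp (β * L) = Real.exp (-((1 - β) * L)) * Real.exp L := by
          rw [← Real.exp_add]; ring_nf
        rw [h3]
        calc (L + 1) ^ 3 * (Real.exp (-((1 - β) * L)) * Real.exp L) * (L + 1) =
            ((L + 1) ^ 4 * Real.exp (-((1 - β) * L))) * Real.exp L := by ring
          _ ≤ 1 * Real.exp L := mul_le_mul_of_nonneg_right a5 (Real.exp_pos _).le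
          _ = _ := one_mul _
      have h2 : 0 ≤ Real.log ((Y : ℝ) / X) := by linarith
      have h3 : T * (Real.log ((Y : ℝ) / X) + 1) ≤ T * (4 / c0 ^ 2 * WW X Y) :=
        mul_le_mul_of_nonneg_left hWℓ hT0.le
      have h4 : 1 ≤ T * (Real.log ((Y : ℝ) / X) + 1) := by nlinarith
      calc C * (T * (Real.log ((Y : ℝ) / X) + 1) + (u + 1) ^ 3 * Real.exp u * (L + 1) / X) ≤
          C * (T * (4 / c0 ^ 2 * WW X Y) + T * (4 / c0 ^ 2 * WW X Y)) :=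
            mul_le_mul_of_nonneg_left (by linarith) hC.le
        _ = _ := by rw [hb1]; ring
    have h := hms X Y N T L u μ (δ' / 8) (b1 * T) E hX1 hXY a1 hLT hTone hTκ hu0 (a8 u hu0 hu1)
      hμ hμ1 hδ0 hδ1 (by positivity) hE hEW hW0 hK herr
    refine h.trans (mul_le_mul_of_nonneg_left ?_ hWE0)
    exact ae_point μ δ' a C b1 T L u hμ hδ' hδ'1 ha hC hTone a1 hu0 huL hb10.le
      (a3.trans (mul_le_mul_of_nonneg_left hT1 ha.le))
      (a4.trans (mul_le_mul_of_nonneg_left hT1 (by positivity)))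
  · intro u hu
    have h := hYP δ' a b T u hδ'.le hδ'1 ha.le ha1 hb0 hT0.le hu.1
    calc WE E * YE δ' a b T u ≤ WE E * (T * (CY * (u + 1) + b)) :=
          mul_le_mul_of_nonneg_left h hWE0
      _ = _ := by ring
  · exact ((YE_cont _ _ _ _).const_mul _).intervalIntegrable _ _
  · have h := hYI2 T L hT0.le a2
    have e2 : ∀ u : ℝ, Rw γ (u / (β * L)) * (WE E * YE δ' a b T u) =
        WE E * (Rw γ (u / (β * L)) * YE δ' a b T u) := fun u => by ring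
    simp only [e2]
    rw [intervalIntegral.integral_const_mul]
    calc _ = WE E * (2 / (Real.sqrt Real.pi * (β * L)) *
          ∫ u in (0 : ℝ)..(β * L), Rw γ (u / (β * L)) * YE δ' a b T u) := by ring
      _ ≤ WE E * (T / (2 * Real.pi) * L * (2 * β * (∫ α in (0 : ℝ)..1, α * Rw γ α) + ε)) :=
          mul_le_mul_of_nonneg_left h hWE0
      _ = _ := by ring
  · rw [Real.sqrt_mul hWE0, Real.sqrt_mul hWE0]
    calc _ = (Real.sqrt CY + Real.sqrt b) * Real.sqrt (WE E) := by ring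
      _ ≤ (ε * L) * Real.sqrt (WE E) := mul_le_mul_of_nonneg_right a7 (Real.sqrt_nonneg _)
      _ = _ := by ring

end H385
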