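import Pool.Agent.H385R4.AE8e
import Pool.Agent.H385R2.WinE

/-!
TEAM Q, project AE: almost every Dirichlet character.
-/

open Complex Filter Topology Set MeasureTheory
open H370 (zset mult NN Nd Ns)

set_option maxHeartbeats 4000000

namespace H385

/-- every subset of positive mass -/
theorem ae_subset (μ : ℝ) (hμ : 0 < μ) (hμ1 : μ ≤ 1) : ∃ K η X0 : ℝ, 1 ≤ K ∧ 0 < η ∧ 1 ≤ X0 ∧
    ∀ (X Y : ℕ) (T : ℝ), X0 ≤ X → K * X ≤ Y → (Y : ℝ) ≤ (X : ℝ) ^ (1 + η) →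
      (Real.log X) ^ 4 ≤ T → T ≤ (X : ℝ) ^ η → ∀ E : Finset IX, E ⊆ primSet X Y →
      μ * WW X Y ≤ WE E →
      ∑ p ∈ E, (1 / (p.1 : ℝ) ^ 2) *
        (2 * (NN (LF p.1 p.2) T (2 * T) : ℝ) - (Ns (LF p.1 p.2) T (2 * T) : ℝ)) ≤
        1.3275 * ∑ p ∈ E, (1 / (p.1 : ℝ) ^ 2) * (NN (LF p.1 p.2) T (2 * T) : ℝ) ∧
      ∑ p ∈ E, (1 / (p.1 : ℝ) ^ 2) *
        (3 * (NN (LF p.1 p.2) T (2 * T) : ℝ) - 2 * (Nd (LF p.1 p.2) T (2 * T) : ℝ)) ≤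
        1.3275 * ∑ p ∈ E, (1 / (p.1 : ℝ) ^ 2) * (NN (LF p.1 p.2) T (2 * T) : ℝ) := by
  have h0 : (0 : ℝ) < 1.414 := by norm_num
  have hπ : (1.414 : ℝ) < Real.pi := by linarith [Real.pi_gt_three]
  set R0 : ℝ := Rw 1.414 0 with hR0
  have hR0n : 0 ≤ R0 := Rw_nonneg 1.414 h0 hπ 0
  set J : ℝ := ∫ α in (0 : ℝ)..1, α * Rw 1.414 α with hJ
  have hJn : 0 ≤ J := I1_nonneg 1.414 h0 hπ
  have hconst : R0 + 2 * J < 1.3275 := Rw_const_d2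
  set e : ℝ := 1.3275 - (R0 + 2 * J) with he
  have he0 : 0 < e := by rw [he]; linarith
  -- choose β
  set s : ℝ := min (1 / 2) (e / (4 * R0 + 1)) with hs
  have hs0 : 0 < s := by positivity
  have hs1 : s ≤ 1 / 2 := min_le_left _ _
  have hs2 : 4 * R0 * s ≤ e := by
    have h1 : s ≤ e / (4 * R0 + 1) := min_le_right _ _
    calc 4 * R0 * s ≤ 4 * R0 * (e / (4 * R0 + 1)) := mul_le_mul_of_nonneg_left h1 (by positivity)
      _ = e * (4 * R0 / (4 * R0 + 1)) := by ring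
      _ ≤ e * 1 := by
        refine mul_le_mul_of_nonneg_left ?_ he0.le
        rw [div_le_one (by positivity)]; linarith
      _ = e := mul_one e
  set β : ℝ := 1 - s with hβ
  have hβ0 : 0 < β := by rw [hβ]; linarith
  have hβ1 : β < 1 := by rw [hβ]; linarith
  have hβh : 1 / 2 ≤ β := by rw [hβ]; linarith
  have e2 : R0 / β ≤ R0 + e / 2 := by
    rw [div_le_iff₀ hβ0]
    have h1 : (R0 + e / 2) * β = R0 - R0 * s + e / 2 * β := by rw [hβ]; ring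
    have h2 : e / 2 * (1 / 2) ≤ e / 2 * β := mul_le_mul_of_nonneg_left hβh (by linarith)
    rw [h1]
    linarith
  have e3 : 2 * β * J ≤ 2 * J := by
    have : 2 * β * J = 2 * (β * J) := by ring
    rw [this]
    have : β * J ≤ 1 * J := mul_le_mul_of_nonneg_right hβ1.le hJn
    linarith
  obtain ⟨K, η, X0, hK, hη, hX0, h⟩ := final_core_E μ 1.414 β (2 * β * J) h0 hπ hβ0
    (by positivity) hR0n (HYE_ae μ 1.414 β hμ hμ1 h0 hπ hβ0 hβ1) (e / 2) (by positivity)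
  refine ⟨K, η, X0, hK, hη, hX0, ?_⟩
  intro X Y T a1 a2 a3 a4 a5 E hE hEW
  obtain ⟨b1, b2⟩ := h X Y T a1 a2 a3 a4 a5 E hE hEW
  have hcc : R0 / β + 2 * β * J + e / 2 ≤ 1.3275 := by
    have : R0 + 2 * J + e = 1.3275 := by rw [he]; ring
    linarith
  have hSN0 : 0 ≤ ∑ p ∈ E, (1 / (p.1 : ℝ) ^ 2) * (NN (LF p.1 p.2) T (2 * T) : ℝ) :=
    Finset.sum_nonneg fun p _ => by positivity
  have c3 := mul_le_mul_of_nonneg_right hcc hSN0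
  exact ⟨b1.trans c3, b2.trans c3⟩

/-- exceptional sets, simple zeros on the critical line -/
theorem ae_simple (ε : ℝ) (hε : 0 < ε) : ∃ K η X0 : ℝ, 1 ≤ K ∧ 0 < η ∧ 1 ≤ X0 ∧
    ∀ (X Y : ℕ) (T : ℝ), X0 ≤ X → K * X ≤ Y → (Y : ℝ) ≤ (X : ℝ) ^ (1 + η) →
      (Real.log X) ^ 4 ≤ T → T ≤ (X : ℝ) ^ η → ∀ E : Finset IX, E ⊆ primSet X Y →
      (∀ p ∈ E, (Ns (LF p.1 p.2) T (2 * T) : ℝ) < 0.6725 * (NN (LF p.1 p.2) T (2 * T) : ℝ)) →
      WE E ≤ ε * WW X Y := by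
  obtain ⟨K, η, X0, hK, hη, hX0, h⟩ := ae_subset (min ε 1) (lt_min hε one_pos) (min_le_right _ _)
  refine ⟨K, η, X0, hK, hη, hX0, ?_⟩
  intro X Y T a1 a2 a3 a4 a5 E hE hbad
  by_contra hcon
  rw [not_le] at hcon
  have hW0 : 0 ≤ WW X Y := primFam_nonneg _ _ _ (fun _ _ => zero_le_one)
  have hmass : min ε 1 * WW X Y ≤ WE E :=
    (mul_le_mul_of_nonneg_right (min_le_left _ _) hW0).trans hcon.le
  have hpos : 0 < WE E := lt_of_le_of_lt (by positivity) hcon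
  obtain ⟨b1, -⟩ := h X Y T a1 a2 a3 a4 a5 E hE hmass
  have hne : E.Nonempty := by
    rw [Finset.nonempty_iff_ne_empty]
    rintro rfl
    simp [WE] at hpos
  have hlt : 1.3275 * ∑ p ∈ E, (1 / (p.1 : ℝ) ^ 2) * (NN (LF p.1 p.2) T (2 * T) : ℝ) <
      ∑ p ∈ E, (1 / (p.1 : ℝ) ^ 2) *
        (2 * (NN (LF p.1 p.2) T (2 * T) : ℝ) - (Ns (LF p.1 p.2) T (2 * T) : ℝ)) := by
    rw [Finset.mul_sum]
    refine Finset.sum_lt_sum_of_nonempty hne fun p hp => ?_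
    obtain ⟨h1, h2, h3⟩ := (mem_primSet X Y p).mp (hE hp)
    have hq : (0 : ℝ) < p.1 := by exact_mod_cast (show 0 < p.1 by omega)
    have hω : 0 < 1 / (p.1 : ℝ) ^ 2 := by positivity
    have hb := hbad p hp
    have : 1.3275 * (NN (LF p.1 p.2) T (2 * T) : ℝ) <
        2 * (NN (LF p.1 p.2) T (2 * T) : ℝ) - (Ns (LF p.1 p.2) T (2 * T) : ℝ) := by
      norm_num at hb ⊢
      linarith
    calc _ = (1 / (p.1 : ℝ) ^ 2) * (1.3275 * (NN (LF p.1 p.2) T (2 * T) : ℝ)) := by ring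
      _ < _ := mul_lt_mul_of_pos_left this hω
  exact absurd b1 (not_le.mpr hlt)

/-- exceptional sets, distinct zeros -/
theorem ae_distinct (ε : ℝ) (hε : 0 < ε) : ∃ K η X0 : ℝ, 1 ≤ K ∧ 0 < η ∧ 1 ≤ X0 ∧
    ∀ (X Y : ℕ) (T : ℝ), X0 ≤ X → K * X ≤ Y → (Y : ℝ) ≤ (X : ℝ) ^ (1 + η) →
      (Real.log X) ^ 4 ≤ T → T ≤ (X : ℝ) ^ η → ∀ E : Finset IX, E ⊆ primSet X Y →
      (∀ p ∈ E, (Nd (LF p.1 p.2) T (2 * T) : ℝ) < 0.83625 * (NN (LF p.1 p.2) T (2 * T) : ℝ)) →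
      WE E ≤ ε * WW X Y := by
  obtain ⟨K, η, X0, hK, hη, hX0, h⟩ := ae_subset (min ε 1) (lt_min hε one_pos) (min_le_right _ _)
  refine ⟨K, η, X0, hK, hη, hX0, ?_⟩
  intro X Y T a1 a2 a3 a4 a5 E hE hbad
  by_contra hcon
  rw [not_le] at hcon
  have hW0 : 0 ≤ WW X Y := primFam_nonneg _ _ _ (fun _ _ => zero_le_one)
  have hmass : min ε 1 * WW X Y ≤ WE E :=
    (mul_le_mul_of_nonneg_right (min_le_left _ _) hW0).trans hcon.le
  have hpos : 0 < WE E := lt_of_le_of_lt (by positivity) hcon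
  obtain ⟨-, b1⟩ := h X Y T a1 a2 a3 a4 a5 E hE hmass
  have hne : E.Nonempty := by
    rw [Finset.nonempty_iff_ne_empty]
    rintro rfl
    simp [WE] at hpos
  have hlt : 1.3275 * ∑ p ∈ E, (1 / (p.1 : ℝ) ^ 2) * (NN (LF p.1 p.2) T (2 * T) : ℝ) <
      ∑ p ∈ E, (1 / (p.1 : ℝ) ^ 2) *
        (3 * (NN (LF p.1 p.2) T (2 * T) : ℝ) - 2 * (Nd (LF p.1 p.2) T (2 * T) : ℝ)) := by
    rw [Finset.mul_sum]
    refine Finset.sum_lt_sum_of_nonempty hne fun p hp => ?_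
    obtain ⟨h1, h2, h3⟩ := (mem_primSet X Y p).mp (hE hp)
    have hq : (0 : ℝ) < p.1 := by exact_mod_cast (show 0 < p.1 by omega)
    have hω : 0 < 1 / (p.1 : ℝ) ^ 2 := by positivity
    have hb := hbad p hp
    have : 1.3275 * (NN (LF p.1 p.2) T (2 * T) : ℝ) <
        3 * (NN (LF p.1 p.2) T (2 * T) : ℝ) - 2 * (Nd (LF p.1 p.2) T (2 * T) : ℝ) := by
      norm_num at hb ⊢
      linarith
    calc _ = (1 / (p.1 : ℝ) ^ 2) * (1.3275 * (NN (LF p.1 p.2) T (2 * T) : ℝ)) := by ring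
      _ < _ := mul_lt_mul_of_pos_left this hω
  exact absurd b1 (not_le.mpr hlt)

end H385
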