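import Pool.Agent.H385R4.AE8f

/-!
TEAM Q, project AE: the mass of a set of primitive characters.
-/

open Complex Filter Topology Set MeasureTheory

namespace H385

/-- the `q⁻²`-weighted number of primitive characters of conductor in `(X,Y]` with property `S` -/
noncomputable def massS (X Y : ℕ) (S : (q : ℕ) → DirichletCharacter ℂ q → Prop) : ℝ :=
  ∑ q ∈ Finset.Ioc X Y, (1 / (q : ℝ) ^ 2) *
    ({χ : DirichletCharacter ℂ q | χ.IsPrimitive ∧ S q χ}.ncard : ℝ)

open Classical in
theorem massS_eq (X Y : ℕ) (S : (q : ℕ) → DirichletCharacter ℂ q → Prop) :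
    massS X Y S = WE ((primSet X Y).filter (fun p => S p.1 p.2)) := by
  unfold massS WE primSet
  rw [Finset.sum_filter, Finset.sum_sigma]
  refine Finset.sum_congr rfl fun q hq => ?_
  have hq0 : q ≠ 0 := by
    have := (Finset.mem_Ioc.mp hq).1
    omega
  rw [dif_pos hq0]
  simp only
  rw [← Finset.sum_filter, Finset.sum_const, nsmul_eq_mul, mul_comm]
  congr 2
  have h1 : {χ : DirichletCharacter ℂ q | χ.IsPrimitive ∧ S q χ} =
      (((prim_finite q hq0).toFinset.filter (fun χ => S q χ) : Finset _) :
        Set (DirichletCharacter ℂ q)) := by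
    ext χ
    simp
  rw [h1, Set.ncard_coe_finset]

theorem massS_true (X Y : ℕ) : massS X Y (fun _ _ => True) = WW X Y := by
  classical
  rw [massS_eq, ← WE_primSet]
  congr 1
  simp

open Classical in
theorem massS_sub (X Y : ℕ) (S : (q : ℕ) → DirichletCharacter ℂ q → Prop) :
    (primSet X Y).filter (fun p => S p.1 p.2) ⊆ primSet X Y := Finset.filter_subset _ _

end H385
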